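import Pool.Agent.PFW.StmtsC
import Pool.Agent.DIA.Stmts

/-!
# Project PFW (MP_f6626d_co), part D: the force acts on the span or on the graph diameter

The force part of project DIA (`DIA/Stmts.lean`, modules SPB, ZBF, FER, `finF`) in the polynomial
window `f n ≥ n ^ (-c)`. `Mp A f = (A / min f 1) ^ A`. Every doc string contains the proof.
-/

set_option autoImplicit false

namespace Pool.Agent.PFW

open Finset Filter Topology MeasureTheory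
open Pool.Agent.Lib27 Pool.Agent.SapR Pool.Agent.Gap Pool.Agent.AreaLaw Pool.Agent.FL
open Pool.Agent.FS
open Pool.Agent.DIA (wp wZ wErr)
open Pool.Agent.KCS (airyMoment)

/-- SPBP (from `EXW.MC1`, `PWR.MNP`, `PWR.ROOMP`, `PWR.CRQ`, MGI1, MGI2): the weight of all polygons at
the critical weight. PROOF (text of `DIA/SPB.lean`). Case `f ≥ 1`: `SPBx.big`, `Mp A f = A ^ A ≥ 100`. Case
`f < 1`: `m = f / 2`, `x, e, C0` from MNP; ROOMP with `t = 1 / 4`: `y ≥ x (1 + f^4 / 25600000)`, `y < xc`,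
`gw y (Bri H) ≤ exp(-(3/4) m H)`; CRQ: `Crit y q`, `exp(-1) ≤ exp(-m) ≤ q ≤ exp(-(3/4) m) ≤ exp(-f/4)`
(`MNPx.rate`), so `chi y ≤ exp(A2 / f)` (MC1). `δ = f^4 / 10^9`: `x (1 + 4 δ) ≤ y`. As in `SPB.lean`
(`RoomX.low`, `RoomX.ratio`) `τ = C0 (1+e)^(-2(n+1)) ≤ C0 / (2 n e) ≤ (Mp A1 f)^2 / (2 n) ≤ δ` and
`ρ exp(-f) ≤ (1+δ)^2 x^2`; `SPBx.poly`: `#SAP (ρ exp(-f))^n ≤ 4 exp(A2/f)^2 exp(-2 δ n)`. With
`f L ≤ L ≤ n/D`, `D = Mp A f ≥ 2/δ`, and `n ≥ Mp A f ≥ (2 A2/f + 2)/δ` (`poly_le_Mp`):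
`log 4 + 2 A2/f - 2 δ n + n/D ≤ -n/D`. -/
def SPBP_Stmt : Prop := ∃ A : ℕ, 2 ≤ A ∧ ∀ (f : ℝ) (n L : ℕ) (ρ : ℝ), 0 < f → Mp A f ≤ n →
  (L : ℝ) * Mp A f ≤ n → 0 < ρ →
  ∑ p ∈ Pc (2 * n - 1), wp (Real.exp (-f)) ρ p = 1 →
    ((SAP n).card : ℝ) * (ρ * Real.exp (-f)) ^ n * Real.exp (f * L) ≤
      Mp A f * Real.exp (-(n / Mp A f))

/-- ZBFP (from DATP, WCS, WRAT, SLOW4): critical weight, tails and lower bound of the total weight.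
PROOF. The text of `DIA/ZBF.lean` with `M = Mp A (f n)`, WCS (`CritW`) instead of QCS, WRAT instead of
QRAT; `A` the maximum of the two constants, `K` of WCS for this `A`, `K0, K1` of WRAT, and SLOW4 once
with the exponent `(K + 1) (K0 + 2) K0 + K + 1` (smaller powers are smaller as `1 ≤ M`). -/
def ZBFP_Stmt : Prop := ∃ A : ℕ, 2 ≤ A ∧ ∃ (K : ℕ) (c : ℝ), 0 < c ∧ ∀ f : ℕ → ℝ,
  (∀ᶠ n : ℕ in atTop, (n : ℝ) ^ (-c) ≤ f n) → ∀ᶠ n : ℕ in atTop,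
    0 < f n ∧ ∃ ρ : ℝ, 0 < ρ ∧ ∑ p ∈ Pc (2 * n - 1), wp (Real.exp (-f n)) ρ p = 1 ∧
      Tails (Mp A (f n)) (1 - (Mp A (f n))⁻¹) n (Real.exp (-f n)) ρ ∧
      (Mp A (f n) ^ K)⁻¹ ≤ sc n * ρ ^ n * Zq n (Real.exp (-f n))

/-- FERP (from ZBFP, SPBP, BDB, DMX, RFL, SLOW4): the error under the force. PROOF. The text of
`t_FER` (`DIA/FER.lean`, all lemmas of the namespace `FER` except `Mf_two`, `Mf_mono` are used as they
are) with `Mp` (`two_le_Mp`, `Mp_mono`, `A` the maximum of the two constants), SLOW4 once with the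
exponent `2 (K2 + 4) + K1 + K2 + 1` (`K1` of ZBFP, `K2` of BDB) and `c` the minimum of the two
constants. -/
def FERP_Stmt : Prop := ∃ c : ℝ, 0 < c ∧ ∀ f : ℕ → ℝ, (∀ᶠ n : ℕ in atTop, (n : ℝ) ^ (-c) ≤ f n) →
  ∀ j : ℕ, Tendsto (fun n : ℕ => (n : ℝ) ^ j * (wErr n (fun s => Real.exp (f n * span n s))
    (fun s => Real.exp (f n * diam n s)) / wZ n (fun s => Real.exp (f n * span n s)))) atTop (𝓝 0)

/-- the final theorem: polynomial window, span and diameter -/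
def FIN4_Stmt : Prop := ∃ μ : Measure ℝ, IsProbabilityMeasure μ ∧
  (∀ r : ℕ, Integrable (fun x : ℝ => x ^ r) μ ∧ ∫ x, x ^ r ∂μ = airyMoment r) ∧
  (∀ x : ℝ, μ {x} = 0 →
    Tendsto (fun n : ℕ => areaCdf n (Staircase n) x) atTop (𝓝 (μ (Set.Iic x)).toReal)) ∧
  ∃ c : ℕ → ℝ, (∀ r, 0 < c r) ∧ ∀ f : ℕ → ℝ,
    ((∀ᶠ n : ℕ in atTop, (n : ℝ) ^ (-c 0) ≤ f n) → ∀ x : ℝ, μ {x} = 0 →
      Tendsto (fun n : ℕ => forceCdf (f n) n x) atTop (𝓝 (μ (Set.Iic x)).toReal) ∧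
      Tendsto (fun n : ℕ => diamCdf (f n) n x) atTop (𝓝 (μ (Set.Iic x)).toReal)) ∧
    ∀ r : ℕ, (∀ᶠ n : ℕ in atTop, (n : ℝ) ^ (-c r) ≤ f n) →
      Tendsto (fun n : ℕ => forceMoment (f n) n r) atTop (𝓝 (airyMoment r)) ∧
      Tendsto (fun n : ℕ => diamMoment (f n) n r) atTop (𝓝 (airyMoment r))

end Pool.Agent.PFW
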