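import Pool.Agent.PFW.StmtsD
import Pool.Agent.DIA.FER

/-!
# Project PFW, module FERP: the error under the force, polynomial window
-/

set_option autoImplicit false

namespace Pool.Agent.PFW

open Finset Filter Topology MeasureTheory
open Pool.Agent.Lib27 Pool.Agent.SapR Pool.Agent.Gap Pool.Agent.AreaLaw Pool.Agent.FL
open Pool.Agent.FS
open Pool.Agent.DIA (wp wZ wErr lspan)

/-- FERP: the error under the force. -/
theorem t_FERP (hZ : ZBFP_Stmt) (hP : SPBP_Stmt) (hB : DIA.BDB_Stmt) (hD : DIA.DMX_Stmt)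
    (hR : DIA.RFL_Stmt) (hS : SLOW4_Stmt) : FERP_Stmt := by
  classical
  obtain ⟨A1, hA1, K1, c1, hc1, hZ⟩ := hZ
  obtain ⟨A2, hA2, hP⟩ := hP
  obtain ⟨hB1, -, hB3, K2, hB4⟩ := hB
  have hA : 2 ≤ max A1 A2 := hA1.trans (le_max_left _ _)
  obtain ⟨c2, hc2, hS⟩ := hS (max A1 A2) (2 * (K2 + 4) + (K1 + K2 + 1)) 0 0 hA
  refine ⟨min c1 c2, lt_min hc1 hc2, fun f hf j => ?_⟩
  have hmono : ∀ b : ℝ, min c1 c2 ≤ b → ∀ᶠ n : ℕ in atTop, (n : ℝ) ^ (-b) ≤ f n := by
    intro b hb
    filter_upwards [hf, eventually_ge_atTop 1] with n h1 h2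
    have h3 : (1 : ℝ) ≤ n := by exact_mod_cast h2
    exact (Real.rpow_le_rpow_of_exponent_le h3 (by linarith)).trans h1
  have hZ := hZ f (hmono c1 (min_le_left _ _))
  obtain ⟨hS1, -, -, -⟩ := hS f (hmono c2 (min_le_right _ _))
  refine squeeze_zero' (Eventually.of_forall fun n => ?_) ?_ (DIA.FER.lim (j + (K2 + 2)))
  · apply mul_nonneg (by positivity)
    apply div_nonneg
    · exact Finset.sum_nonneg fun s _ => abs_nonneg _
    · exact Finset.sum_nonneg fun s _ => (Real.exp_pos _).le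
  filter_upwards [hZ, hS1, eventually_ge_atTop 1] with n hn hE h4
  obtain ⟨hf0, ρ, hρ, hcrit, htail, hZq⟩ := hn
  have hD2 : 2 ≤ Mp (max A1 A2) (f n) := two_le_Mp hA hf0
  have hDA : Mp A1 (f n) ≤ Mp (max A1 A2) (f n) := Mp_mono hA1 (le_max_left _ _) hf0
  have hDB : Mp A2 (f n) ≤ Mp (max A1 A2) (f n) := Mp_mono hA2 (le_max_right _ _) hf0
  have hM1 : 2 ≤ Mp A1 (f n) := two_le_Mp hA1 hf0
  have hM2 : 2 ≤ Mp A2 (f n) := two_le_Mp hA2 hf0
  obtain ⟨D, hDdef⟩ : ∃ D, D = Mp (max A1 A2) (f n) := ⟨_, rfl⟩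
  rw [← hDdef] at hE hD2 hDA hDB
  have hpow : ∀ k : ℕ, k ≤ 2 * (K2 + 4) + (K1 + K2 + 1) → D ^ k ≤ n := fun k hk =>
    (pow_le_pow_right₀ (by linarith) hk).trans hE.2
  have h1 := hpow (2 * (K2 + 4)) (by omega)
  have h2 := hpow (K1 + K2 + 1) (by omega)
  have h3 := hpow 1 (by omega)
  have hD0 : 0 < D := by linarith
  have hn0 : (0 : ℝ) < n := by exact_mod_cast h4
  have hn1 : (1 : ℝ) ≤ n := by exact_mod_cast h4
  have hDn : D ≤ n := by
    rwa [pow_one] at h3
  obtain ⟨L, hL⟩ : ∃ L, L = ⌊(n : ℝ) / D⌋₊ := ⟨_, rfl⟩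
  have hLn : (L : ℝ) * D ≤ n := by
    have h5 : (L : ℝ) ≤ (n : ℝ) / D := by
      rw [hL]
      exact Nat.floor_le (by positivity)
    rwa [le_div_iff₀ hD0] at h5
  have htail' : Tails D (1 - D⁻¹) n (Real.exp (-f n)) ρ := by
    refine DIA.FER.tails_mono htail hDA (by linarith) ?_ ?_
    · have h5 : (Mp A1 (f n))⁻¹ ≤ 1 := inv_le_one_of_one_le₀ (by linarith)
      linarith
    · have h5 : D⁻¹ ≤ (Mp A1 (f n))⁻¹ := inv_anti₀ (by linarith) hDA
      linarith
  have hs1 : Real.exp (-f n) ≤ 1 := by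
    rw [← Real.exp_zero]
    exact Real.exp_le_exp.mpr (by linarith)
  have hB4' := hB4 D hD2 n (Real.exp (-f n)) ρ h4 (Real.exp_pos _) hs1 hρ hcrit htail' L
  have hP' := hP (f n) n L ρ hf0 (hDB.trans hDn)
    ((mul_le_mul_of_nonneg_left hDB (Nat.cast_nonneg L)).trans hLn) hρ hcrit
  have hB3' := hB3 n (Real.exp (-f n)) h4 (Real.exp_pos _)
  have hPY : ((SAP n).card : ℝ) * (ρ ^ n * Real.exp (-f n) ^ n) * Real.exp (f n * L) ≤
      D * Real.exp (-((n : ℝ) / D)) := by
    rw [← mul_pow]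
    refine hP'.trans ?_
    apply mul_le_mul hDB _ (Real.exp_pos _).le hD0.le
    apply Real.exp_le_exp.mpr
    apply neg_le_neg
    exact div_le_div_of_nonneg_left hn0.le (by linarith) hDB
  have hwE : wErr n (fun s => Real.exp (f n * span n s)) (fun s => Real.exp (f n * diam n s)) ≤
      Real.exp (f n * n) * ∑ w ∈ (SAP n).filter (fun w => L ≤ lspan n w),
        Real.exp (-f n) ^ (n - span n w) + ((SAP n).card : ℝ) * Real.exp (f n * L) := by
    calc wErr n (fun s => Real.exp (f n * span n s)) (fun s => Real.exp (f n * diam n s)) ≤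
        ∑ s ∈ SAP n, ((if L ≤ lspan n s then Real.exp (f n * span n s) else 0) +
          Real.exp (f n * L)) := by
          refine Finset.sum_le_sum fun s _ => ?_
          change |Real.exp (f n * diam n s) - (Real.exp (f n * span n s) +
            Real.exp (f n * span n (DIA.fl n s)))| ≤ _
          rw [hD n s, (hR n s).2.2.2.1]
          exact DIA.FER.pt _ _ _ hf0.le
      _ = _ := by
          rw [Finset.sum_add_distrib, ← Finset.sum_filter, Finset.sum_const, nsmul_eq_mul,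
            Finset.mul_sum]
          congr 1
          refine Finset.sum_congr rfl fun s hs => ?_
          exact DIA.FER.wt (f n) (hB1 n s (Finset.mem_filter.mp hs).1)
  have hwZ : wZ n (fun s => Real.exp (f n * span n s)) =
      Real.exp (f n * n) * ∑ w ∈ SAP n, Real.exp (-f n) ^ (n - span n w) := by
    unfold wZ
    rw [Finset.mul_sum]
    exact Finset.sum_congr rfl fun s hs => DIA.FER.wt (f n) (hB1 n s hs)
  have hee : Real.exp (-f n) ^ n * Real.exp (f n * n) = 1 := by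
    rw [← Real.exp_nat_mul, ← Real.exp_add, ← Real.exp_zero]
    congr 1
    ring
  have hZq' : (D ^ K1)⁻¹ ≤ sc n * ρ ^ n * Zq n (Real.exp (-f n)) := by
    refine (inv_anti₀ (by positivity) ?_).trans hZq
    exact pow_le_pow_left₀ (by linarith) hDA K1
  have hinv : 0 ≤ 1 - D⁻¹ := by
    have h5 : D⁻¹ ≤ 1 := inv_le_one_of_one_le₀ (by linarith)
    linarith
  have hq := DIA.FER.quot (X := D ^ K2 * (n : ℝ) ^ K2 * (Real.exp (-((L : ℝ) ^ 2 / (D ^ K2 * n))) +
    (1 - D⁻¹) ^ n) + D * Real.exp (-((n : ℝ) / D))) h4 (pow_pos hρ n) (Real.exp_pos _) hee hwE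
    hB4' hPY hB3' hZq' (by positivity) rfl (by positivity)
  rw [← hwZ] at hq
  have hest := DIA.FER.est (K1 := K1) h4 hD2 h1 h2
  rw [← hL] at hest
  have hsq : Real.sqrt n / 4 ≤ n := by
    have h5 : Real.sqrt n ≤ n := by
      rw [Real.sqrt_le_left hn0.le]
      nlinarith
    have h6 : 0 ≤ Real.sqrt n := Real.sqrt_nonneg _
    linarith
  calc (n : ℝ) ^ j * (wErr n (fun s => Real.exp (f n * span n s))
      (fun s => Real.exp (f n * diam n s)) / wZ n (fun s => Real.exp (f n * span n s))) ≤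
      (n : ℝ) ^ j * ((3 * ((n : ℝ) ^ (K2 + 1) * Real.exp (-Real.sqrt n))) * n) := by
        apply mul_le_mul_of_nonneg_left _ (by positivity)
        refine hq.trans ?_
        apply mul_le_mul _ hsq (by positivity) (by positivity)
        rw [mul_comm]
        exact hest
    _ = 3 * ((n : ℝ) ^ (j + (K2 + 2)) * Real.exp (-Real.sqrt n)) := by ring

end Pool.Agent.PFW
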