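import Pool.Agent.PFW.StmtsD

/-!
# Project PFW: span and diameter, from the theorem for the span (as `DIA/MainPreF.lean`)
-/

set_option autoImplicit false

namespace Pool.Agent.PFW

open Finset Filter Topology MeasureTheory
open Pool.Agent.Lib27 Pool.Agent.SapR Pool.Agent.Gap Pool.Agent.AreaLaw Pool.Agent.FL
open Pool.Agent.FS
open Pool.Agent.DIA (wp wZ wErr)
open Pool.Agent.KCS (airyMoment)

theorem t_FIN4 (hE : FINAL4_Stmt) (hF : FERP_Stmt) (hT : DIA.TRW_Stmt) : FIN4_Stmt := by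
  obtain ⟨μ, hμ, hmom, hst, c, hc, hforce⟩ := hE
  obtain ⟨c1, hc1, hF⟩ := hF
  refine ⟨μ, hμ, hmom, hst, fun r => min (min (c r) (c 0)) c1,
    fun r => lt_min (lt_min (hc r) (hc 0)) hc1, fun f => ?_⟩
  have hmono : ∀ a b : ℝ, a ≤ b → (∀ᶠ n : ℕ in atTop, (n : ℝ) ^ (-a) ≤ f n) →
      ∀ᶠ n : ℕ in atTop, (n : ℝ) ^ (-b) ≤ f n := by
    intro a b hab hf
    filter_upwards [hf, eventually_ge_atTop 1] with n h1 h2
    have h3 : (1 : ℝ) ≤ n := by exact_mod_cast h2
    exact (Real.rpow_le_rpow_of_exponent_le h3 (by linarith)).trans h1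
  -- the weights are positive in the window
  have key : ∀ a : ℝ, a ≤ c 0 → a ≤ c1 → (∀ᶠ n : ℕ in atTop, (n : ℝ) ^ (-a) ≤ f n) →
      ((∀ x : ℝ, μ {x} = 0 →
        Tendsto (fun n : ℕ => forceCdf (f n) n x) atTop (𝓝 (μ (Set.Iic x)).toReal)) →
      ∀ x : ℝ, μ {x} = 0 →
        Tendsto (fun n : ℕ => diamCdf (f n) n x) atTop (𝓝 (μ (Set.Iic x)).toReal)) ∧
      ∀ (r : ℕ) (L : ℝ), Tendsto (fun n : ℕ => forceMoment (f n) n r) atTop (𝓝 L) →
        Tendsto (fun n : ℕ => diamMoment (f n) n r) atTop (𝓝 L) := by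
    intro a ha ha1 hf
    have hpos : ∀ᶠ n : ℕ in atTop, 0 < wZ n (fun s => Real.exp (f n * span n s)) := by
      have h0 := (hforce f).2 0 (hmono a (c 0) ha hf)
      have e0 : airyMoment 0 = 1 := by
        have := (hmom 0).2
        simp at this
        exact this.symm
      rw [e0] at h0
      have h3 : ∀ᶠ n : ℕ in atTop, forceMoment (f n) n 0 ≠ 0 :=
        h0.eventually_ne one_ne_zero
      filter_upwards [h3] with n hn
      refine lt_of_le_of_ne (Finset.sum_nonneg fun s _ => (Real.exp_pos _).le) ?_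
      intro hz
      apply hn
      have hz' : forceZ (f n) n = 0 := hz.symm
      unfold forceMoment
      rw [hz', div_zero, zero_div]
    exact hT μ hμ (fun n s => Real.exp (f n * span n s))
      (fun n s => Real.exp (f n * diam n s))
      (fun n s => (Real.exp_pos _).le) (fun n s => (Real.exp_pos _).le) hpos
      (hF f (hmono a c1 ha1 hf))
  refine ⟨fun hf x hx => ?_, fun r hf => ?_⟩
  · have h1 : ∀ x : ℝ, μ {x} = 0 →
        Tendsto (fun n : ℕ => forceCdf (f n) n x) atTop (𝓝 (μ (Set.Iic x)).toReal) :=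
      (hforce f).1 (hmono _ _ ((min_le_left _ _).trans (min_le_left _ _)) hf)
    exact ⟨h1 x hx, (key _ ((min_le_left _ _).trans (min_le_left _ _)) (min_le_right _ _) hf).1
      h1 x hx⟩
  · have h2 := (hforce f).2 r (hmono _ _ ((min_le_left _ _).trans (min_le_left _ _)) hf)
    exact ⟨h2, (key _ ((min_le_left _ _).trans (min_le_right _ _)) (min_le_right _ _) hf).2
      r _ h2⟩

end Pool.Agent.PFW
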