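import Pool.Agent.PFW.StmtsD
import Pool.Agent.DIA.SPB
import Pool.Agent.PWR.MNP

/-!
# Project PFW, module SPBP: the weight of all polygons at the critical weight, powers of the force
-/

set_option autoImplicit false

namespace Pool.Agent.PFW

open Finset Filter Topology MeasureTheory
open Pool.Agent.Lib27 Pool.Agent.SapR Pool.Agent.Gap Pool.Agent.AreaLaw Pool.Agent.FL
open Pool.Agent.FS
open Pool.Agent.DIA (wp)
open scoped NNReal ENNReal

namespace SPBPx

/-- constants: everything is at most `Mp A f` for `A` large -/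
lemma consts (A1 : ℕ) (A2 : ℝ) (hA2 : 0 ≤ A2) : ∃ A : ℕ, 4 ≤ A ∧ ∀ f : ℝ, 0 < f → f ≤ 1 →
    (2 * A2 / f + 2) * (10 ^ 9 / f ^ 4) ≤ Mp A f ∧
    PWR.Mp A1 f ^ 2 * (10 ^ 9 / f ^ 4) ≤ Mp A f := by
  obtain ⟨a, ha, hpa⟩ := poly_le_Mp ((2 * A2 + 2) * 10 ^ 9) 5
  obtain ⟨b, hb, hpb⟩ := poly_le_Mp ((A1 : ℝ) ^ (2 * A1) * 10 ^ 9) (2 * A1 + 4)
  refine ⟨max (max a b) 4, le_max_right _ _, fun f hf hf1 => ⟨?_, ?_⟩⟩
  · have h := hpa (max (max a b) 4) (le_trans (le_max_left _ _) (le_max_left _ _)) f hf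
    rw [min_eq_left hf1] at h
    refine le_trans ?_ h
    have h1 : 2 * A2 / f + 2 ≤ (2 * A2 + 2) * (1 / f) := by
      have h2 : 1 ≤ 1 / f := by
        rw [le_div_iff₀ hf]
        linarith
      have h3 : 2 * A2 / f = 2 * A2 * (1 / f) := by ring
      rw [h3]
      nlinarith
    calc (2 * A2 / f + 2) * (10 ^ 9 / f ^ 4)
        ≤ ((2 * A2 + 2) * (1 / f)) * (10 ^ 9 / f ^ 4) :=
          mul_le_mul_of_nonneg_right h1 (by positivity)
      _ = (2 * A2 + 2) * 10 ^ 9 * (1 / f) ^ 5 := by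
          field_simp
  · have h := hpb (max (max a b) 4) (le_trans (le_max_right _ _) (le_max_left _ _)) f hf
    rw [min_eq_left hf1] at h
    refine le_trans (le_of_eq ?_) h
    unfold PWR.Mp
    have e1 : (((A1 : ℝ) / f) ^ A1) ^ 2 = (A1 : ℝ) ^ (2 * A1) * (f⁻¹) ^ (2 * A1) := by
      rw [← pow_mul, mul_comm A1 2, div_eq_mul_inv, mul_pow]
    rw [e1, one_div, pow_add, div_eq_mul_inv ((10 : ℝ) ^ 9), ← inv_pow]
    ring

end SPBPx

open EXW.RoomX in
theorem t_SPBP (h1 : EXW.MC1_Stmt) (h2 : PWR.MNP_Stmt) (h3 : PWR.ROOMP_Stmt)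
    (h4 : PWR.CRQ_Stmt) (h5 : MGI1_Stmt) (h6 : MGI2_Stmt) : SPBP_Stmt := by
  obtain ⟨-, A2, hA2, hMC⟩ := h1
  obtain ⟨A1, hA1, hN⟩ := h2
  obtain ⟨A, hA4, hcon⟩ := SPBPx.consts A1 A2 (by linarith)
  refine ⟨A, by omega, fun f n L ρ hf hn hL hρ hF => ?_⟩
  have hA2' : 2 ≤ A := by omega
  have hM0 : 0 < Mp A f := Mp_pos hA2' hf
  have hn1 : 1 ≤ n := by
    have : (0 : ℝ) < n := hM0.trans_le hn
    exact_mod_cast this
  rcases le_or_gt 1 f with hf1 | hf1
  · have hD : 100 ≤ Mp A f := by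
      have h7 : Mp 4 f ≤ Mp A f := Mp_mono (by norm_num) hA4 hf
      have h8 : Mp 4 f = 256 := by
        unfold Mp
        rw [min_eq_right hf1]
        norm_num
      linarith
    refine DIA.SPBx.big hf1 hn1 hD hL hρ ?_
    refine (h6.2 n (Real.exp (-f)) ρ hn1 (Real.exp_pos _) ?_ hρ hF).2
    rw [← Real.exp_zero]
    exact Real.exp_le_exp.2 (by linarith)
  · have hf1' : f ≤ 1 := hf1.le
    obtain ⟨k1, k2⟩ := hcon f hf hf1'
    obtain ⟨x, e, C0, hx0, hx, he, he1, hC0, hone, hB⟩ := hN f hf hf1'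
    set D : ℝ := Mp A f with hD
    have hn0 : (0 : ℝ) < n := hM0.trans_le hn
    have hxr : (0 : ℝ) < x := hx0
    set m : ℝ := f / 2 with hm
    have hm0 : 0 < m := by positivity
    have hm1 : m ≤ 1 := by rw [hm]; linarith
    -- the weight `y` between `x` and the critical weight
    obtain ⟨y, hxy, hyc, hb⟩ := h3 x m (1 / 4) hm0 hm1 (by norm_num) (by norm_num) hx
    have hu0 : 0 ≤ 1 / 4 * (m ^ 4 / 400000) := by positivity
    have hxley : (x : ℝ) ≤ y := le_trans (by nlinarith) hxy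
    have hy0 : 0 < y := hxr.trans_le hxley
    obtain ⟨q, hq⟩ := h4.1 y hy0 hyc
    have hq1 : Real.exp (-m) ≤ q := h4.2 x y _ q hxley hx hq
    have hq2 : q ≤ Real.exp (-((1 - 1 / 4) * m)) := PWR.MNPx.rate hy0 hyc hq hb
    have hchi : FL.chi y.toNNReal ≤ ENNReal.ofReal (Real.exp (A2 / f)) := by
      refine hMC f y q hf hf1' hq ?_ ?_
      · refine le_trans (Real.exp_le_exp.2 ?_) hq1
        linarith
      · refine hq2.trans (Real.exp_le_exp.2 ?_)
        rw [hm]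
        linarith
    set δ : ℝ := f ^ 4 / 10 ^ 9 with hδ
    have hf4 : f ^ 4 ≤ 1 := pow_le_one₀ hf.le hf1'
    have hδ0 : 0 < δ := by positivity
    have hδ1 : δ ≤ 1 / 4 := by
      rw [hδ]
      linarith
    have hδinv : 10 ^ 9 / f ^ 4 = δ⁻¹ := by
      rw [hδ, inv_div]
    rw [hδinv] at k1 k2
    have hy4 : x * (1 + 4 * δ) ≤ y := by
      refine le_trans ?_ hxy
      apply mul_le_mul_of_nonneg_left _ hxr.le
      have h7 : 4 * δ ≤ 1 / 4 * (m ^ 4 / 400000) := by
        rw [hδ, hm]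
        have h8 : (f / 2) ^ 4 = f ^ 4 / 16 := by ring
        rw [h8]
        have h9 : 0 < f ^ 4 := by positivity
        linarith
      linarith
    -- constants
    have hA2f : 0 ≤ A2 / f := by positivity
    have hDδ : D⁻¹ ≤ δ / 2 := by
      have h7 : 2 * δ⁻¹ ≤ D := by
        refine le_trans ?_ k1
        apply mul_le_mul_of_nonneg_right _ (by positivity)
        have : 0 ≤ 2 * A2 / f := by positivity
        linarith
      have h8 := inv_anti₀ (by positivity) h7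
      rw [mul_inv, inv_inv] at h8
      linarith
    have hXn : 2 * (A2 / f) ≤ δ * n := by
      have h7 : (2 * A2 / f) * δ⁻¹ ≤ n := by
        refine le_trans ?_ (k1.trans hn)
        apply mul_le_mul_of_nonneg_right _ (by positivity)
        linarith
      have h8 := mul_le_mul_of_nonneg_left h7 hδ0.le
      have h9 : δ * (2 * A2 / f * δ⁻¹) = 2 * (A2 / f) := by
        field_simp
      linarith
    set s : ℝ≥0 := (Real.exp (-f)).toNNReal with hs
    have hsr : (s : ℝ) = Real.exp (-f) := Real.coe_toNNReal _ (Real.exp_pos _).le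
    have hs0 : 0 < s := Real.toNNReal_pos.2 (Real.exp_pos _)
    have hP0 : 0 < PWR.Mp A1 f := PWR.MNPx.Mp_pos hA1 hf
    have he0 : (0 : ℝ) < e := (inv_pos.2 hP0).trans_le he
    set τ : ℝ := C0 * (((1 + (e : ℝ)) ^ 2)⁻¹) ^ (n + 1) with hτ
    have hτ0 : 0 ≤ τ := by positivity
    have hτδ : τ ≤ δ := by
      have h7 : 2 * (n : ℝ) * e ≤ ((1 + (e : ℝ)) ^ 2) ^ (n + 1) := by
        have h8 := one_add_mul_le_pow (a := (e : ℝ)) (by linarith) (2 * (n + 1))
        rw [← pow_mul]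
        push_cast at h8 ⊢
        nlinarith
      have h9 : 0 < 2 * (n : ℝ) * e := by positivity
      have h10 : τ ≤ C0 / (2 * n * e) := by
        rw [hτ, inv_pow, div_eq_mul_inv]
        exact mul_le_mul_of_nonneg_left (inv_anti₀ h9 h7) C0.2
      have h11 : (C0 : ℝ) / (2 * n * e) ≤ PWR.Mp A1 f / (2 * n * (PWR.Mp A1 f)⁻¹) := by
        gcongr
      have h12 : PWR.Mp A1 f / (2 * n * (PWR.Mp A1 f)⁻¹) = PWR.Mp A1 f ^ 2 / (2 * n) := by
        field_simp
      have h13 : PWR.Mp A1 f ^ 2 / (2 * n) ≤ δ := by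
        rw [div_le_iff₀ (by positivity)]
        have h14 : PWR.Mp A1 f ^ 2 * δ⁻¹ ≤ n := k2.trans hn
        have h15 := mul_le_mul_of_nonneg_left h14 hδ0.le
        have h16 : δ * (PWR.Mp A1 f ^ 2 * δ⁻¹) = PWR.Mp A1 f ^ 2 := by
          field_simp
        have h17 : 0 ≤ δ * n := by positivity
        linarith
      exact h10.trans (h11.trans (h12.le.trans h13))
    have ht : 1 ≤ (1 + δ) ^ 2 * (1 - τ) := by
      have h7 : (1 + δ) ^ 2 * (1 - δ) ≤ (1 + δ) ^ 2 * (1 - τ) :=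
        mul_le_mul_of_nonneg_left (by linarith) (by positivity)
      have h8 : (1 + δ) ^ 2 * (1 - δ) = 1 + δ * (1 - δ - δ ^ 2) := by ring
      have h9 : δ ^ 2 ≤ δ * 1 := by
        rw [pow_two]
        exact mul_le_mul_of_nonneg_left (by linarith) hδ0.le
      have h10 : 0 ≤ δ * (1 - δ - δ ^ 2) := mul_nonneg hδ0.le (by linarith)
      linarith
    have hrho := ratio n s ((x : ℝ) ^ 2 / s) ρ τ (1 + δ) hs0 (by positivity) hρ ht hτ0
      (by linarith) (low h5 s x e C0 hs0 hx0 (by exact_mod_cast he0) hone hB n)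
      (by rw [hsr]; exact hF)
    have hrs : ρ * Real.exp (-f) ≤ (1 + δ) ^ 2 * (x : ℝ) ^ 2 := by
      rw [← hsr]
      have h7 := mul_le_mul_of_nonneg_right hrho (show (0 : ℝ) ≤ s from s.2)
      have h8 : (1 + δ) ^ 2 * ((x : ℝ) ^ 2 / s) * s = (1 + δ) ^ 2 * (x : ℝ) ^ 2 := by
        have : (s : ℝ) ≠ 0 := by
          rw [hsr]
          exact (Real.exp_pos _).ne'
        field_simp
      rw [h8] at h7
      exact h7
    have hp := DIA.SPBx.poly hn1 hxr hδ0 (by linarith) (Real.exp_pos _).le hchi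
      (by positivity : 0 ≤ ρ * Real.exp (-f)) hrs hy4
    have hD4 : 4 ≤ D := by
      have : (4 : ℝ) ≤ A := by exact_mod_cast hA4
      exact this.trans (A_le_Mp hA2' hf)
    have hLn : (L : ℝ) ≤ n * D⁻¹ := by
      rw [← div_eq_mul_inv, le_div_iff₀ hM0]
      exact hL
    have hfL : f * L ≤ n * D⁻¹ := by
      have h7 : f * (L : ℝ) ≤ 1 * L := mul_le_mul_of_nonneg_right hf1' (by positivity)
      linarith
    calc ((SAP n).card : ℝ) * (ρ * Real.exp (-f)) ^ n * Real.exp (f * L)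
        ≤ (4 * Real.exp (A2 / f) ^ 2 * Real.exp (-(2 * δ * n))) * Real.exp (n * D⁻¹) := by
          gcongr
      _ = 4 * Real.exp (2 * (A2 / f) + (-(2 * δ * n) + n * D⁻¹)) := by
          rw [← Real.exp_nat_mul, mul_assoc, mul_assoc, ← Real.exp_add, ← Real.exp_add]
          push_cast
          ring_nf
      _ ≤ D * Real.exp (-(n / D)) := by
          have h7 : 2 * (A2 / f) + (-(2 * δ * n) + n * D⁻¹) ≤ -(n / D) := by
            rw [div_eq_mul_inv (n : ℝ) D]
            have h8 : n * D⁻¹ ≤ n * (δ / 2) := mul_le_mul_of_nonneg_left hDδ hn0.le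
            linarith
          gcongr

end Pool.Agent.PFW
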