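import Pool.Agent.PFW.StmtsD
import Pool.Agent.DIA.ZBF

/-!
# Project PFW, module ZBFP: critical weight, tails and total weight, polynomial window
-/

set_option autoImplicit false

namespace Pool.Agent.PFW

open Finset Filter Topology MeasureTheory
open Pool.Agent.Lib27 Pool.Agent.SapR Pool.Agent.Gap Pool.Agent.AreaLaw Pool.Agent.FL
open Pool.Agent.FS
open Pool.Agent.DIA (wp)
open Pool.Agent.EXW (Dat2 Sc0 cls_mono clsCap_mono)

open Pool.Agent.DIA.ZBF (near) in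
theorem t_ZBFP (hD : DATP_Stmt) (hC : WCS_Stmt) (hR : WRAT_Stmt) (hS : SLOW4_Stmt) :
    ZBFP_Stmt := by
  obtain ⟨A1, hA1, N1, hN1, hDat⟩ := hD
  obtain ⟨A2, hA2, hC⟩ := hC
  obtain ⟨A, hAdef⟩ : ∃ A : ℕ, A = max A1 A2 := ⟨_, rfl⟩
  have hAA1 : A1 ≤ A := by omega
  have hAA2 : A2 ≤ A := by omega
  have hA : 2 ≤ A := by omega
  obtain ⟨K, hK⟩ := hC A hAA2
  obtain ⟨K0, K1, hRat⟩ := hR
  obtain ⟨E, hE⟩ : ∃ E : ℕ, E = (K + 1) * (K0 + 2) * K0 + K + 1 := ⟨_, rfl⟩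
  obtain ⟨c, hc, hS⟩ := hS A E 0 0 hA
  refine ⟨A, hA, (K + 1) * K1, c, hc, fun f hf => ?_⟩
  obtain ⟨h1, -, -, -⟩ := hS f hf
  filter_upwards [h1, eventually_ge_atTop N1] with n hn hnN
  obtain ⟨hfn, hME⟩ := hn
  have hM2 : 2 ≤ Mp A (f n) := two_le_Mp hA hfn
  have hM1 : 1 ≤ Mp A (f n) := by linarith
  have hpow : ∀ k : ℕ, k ≤ E → Mp A (f n) ^ k ≤ n := fun k hk =>
    (pow_le_pow_right₀ hM1 hk).trans hME
  have hM : Mp A (f n) ≤ n := by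
    have := hpow 1 (by omega)
    rwa [pow_one] at this
  have hnK := hpow K (by omega)
  have hnB := hpow ((K + 1) * (K0 + 2) * K0) (by omega)
  obtain ⟨d⟩ := hDat A hAA1 n (f n) hnN hfn hM
  obtain ⟨V, hV⟩ := hK n (f n) hfn hnK d
  refine ⟨hfn, d.G.rho, d.G.rho_pos, d.crit, d.tails, ?_⟩
  have hMD : Mp A (f n) ≤ Mp A (f n) ^ (K + 1) := le_self_pow₀ hM1 (by omega)
  have hD2 : 2 ≤ Mp A (f n) ^ (K + 1) := hM2.trans hMD
  have hD1 : 1 ≤ Mp A (f n) ^ (K + 1) := by linarith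
  have hcls : Cls (Mp A (f n) ^ (K + 1)) (1 - (Mp A (f n) ^ (K + 1))⁻¹) d.G :=
    cls_mono hM2 hMD d.cls
  have hcap : ClsCap (Mp A (f n) ^ (K + 1)) (1 - (Mp A (f n) ^ (K + 1))⁻¹) d.G (2 * n)
      (capW n (Real.exp (-f n))) := clsCap_mono hM2 hMD d.cap
  have hcrit : CritW (Mp A (f n) ^ (K + 1)) d.G
      (GE.sr d.G.rho (2 * n) (capW n (Real.exp (-f n)))) V :=
    hV.mono (pow_pos (by linarith) K) (pow_le_pow_right₀ hM1 (by omega))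
  have hW2 : 2 ≤ (Mp A (f n) ^ (K + 1)) ^ (K0 + 1) :=
    hD2.trans (le_self_pow₀ hD1 (by omega))
  have hSc : Sc0 K0 (Mp A (f n) ^ (K + 1)) ((Mp A (f n) ^ (K + 1)) ^ (K0 + 1)) d.G n
      ⌊2 * d.G.sig2 * n / d.G.mbar⌋₊ := by
    refine ⟨hD2, hW2, hcls, ?_, near hD2 d.G hcls n⟩
    have e : (Mp A (f n) ^ (K + 1) * (Mp A (f n) ^ (K + 1)) ^ (K0 + 1)) ^ K0 =
        Mp A (f n) ^ ((K + 1) * (K0 + 2) * K0) := by
      have e1 : ∀ x : ℝ, x * x ^ (K0 + 1) = x ^ (K0 + 2) := fun x => by ring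
      rw [e1, pow_mul, pow_mul]
    rw [e]
    exact hnB
  have h2 := (hRat (Mp A (f n) ^ (K + 1)) hD2 d.G hcls (2 * n) (capW n (Real.exp (-f n)))
    (capW n (Real.exp (-f n))) V V d.B hcap hcap hcrit hcrit d.sol
    ((Mp A (f n) ^ (K + 1)) ^ (K0 + 1)) n ⌊2 * d.G.sig2 * n / d.G.mbar⌋₊ hSc
    (pow_le_pow_right₀ hD1 (by omega))).1
  have h3 : Zq n (Real.exp (-f n)) =
      (closeP (2 * n) (capW n (Real.exp (-f n))) d.B n).eval 1 := by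
    rw [← d.count, Polynomial.eval_finsetSum]
    unfold Zq
    refine Finset.sum_congr rfl fun q _ => ?_
    simp
  rw [h3]
  unfold sc
  rw [pow_mul]
  exact h2

end Pool.Agent.PFW
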