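import Pool.Agent.PFW.Main
import Pool.Agent.PFW.FIN4
import Pool.Agent.PFW.ZBFP
import Pool.Agent.PFW.SPBP
import Pool.Agent.PFW.FERP
import Pool.Agent.DIA.MainL

/-!
# Project PFW (MP_f6626d_co): the final theorem for a force acting on the span or on the diameter
-/

set_option autoImplicit false

namespace Pool.Agent.PFW

open Pool.Agent.Gap Pool.Agent.FL

theorem m_ZBFP : ZBFP_Stmt := t_ZBFP m_DATP m_WCS m_WRAT t_SLOW4

theorem m_SPBP : SPBP_Stmt :=
  t_SPBP EXW.t_MC1 PWR.m_MNP PWR.m_ROOMP PWR.t_CRQ FL.H27.mgi1 mgi2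

theorem m_FERP : FERP_Stmt :=
  t_FERP m_ZBFP m_SPBP DIA.m_BDB DIA.t_DMX DIA.t_RFL t_SLOW4

/-- The area law of self-avoiding polygons under a force `f n ≥ n ^ (-c)` on the span or the
diameter. -/
theorem mainF4 : FIN4_Stmt := t_FIN4 main4 m_FERP DIA.m_TRW

end Pool.Agent.PFW
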