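import Pool.Agent.PFW.StmtsC
import Pool.Agent.EXW.DAT2

/-!
# Project PFW, module DATP (port of `EXW/DAT2.lean`): the kernel of a force
-/

set_option autoImplicit false

namespace Pool.Agent.PFW

open Finset Pool.Agent.Lib27 Pool.Agent.SapR Pool.Agent.Gap Pool.Agent.FL Pool.Agent.EXW

/-- the two class parameters agree for `f ≤ 1` -/
theorem Mp_eq {A : ℕ} {f : ℝ} (hf : f ≤ 1) : PWR.Mp A f = Mp A f := by
  unfold PWR.Mp Mp
  rw [min_eq_left hf]

theorem t_DATP (hQ : PWR.QMGP_Stmt) (hMG : MG_Stmt) (hMG2 : MGI2_Stmt) (hKW : KW2_Stmt) :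
    DATP_Stmt := by
  obtain ⟨A0, hA0, hQ⟩ := hQ
  obtain ⟨C1, θ1, hC1, hθ1, hθ11, n1, h1⟩ := hMG (Real.exp (-1)) (Real.exp_pos _) (by
    rw [Real.exp_lt_one_iff]; norm_num)
  obtain ⟨a1, ha1⟩ := exists_nat_ge C1
  obtain ⟨a2, ha2⟩ := exists_nat_ge (1 - θ1)⁻¹
  refine ⟨max (max (A0 + 1) 100) (max a1 a2), ?_, max n1 2, le_max_right _ _,
    fun A hA n f hn hf hM => ?_⟩
  · have h2 : 100 ≤ max (max (A0 + 1) 100) (max a1 a2) :=
      le_trans (le_max_right _ _) (le_max_left _ _)
    omega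
  have hA00 : A0 + 1 ≤ A := le_trans (le_trans (le_max_left _ _) (le_max_left _ _)) hA
  have hA100 : 100 ≤ A := le_trans (le_trans (le_max_right _ _) (le_max_left _ _)) hA
  have hAa1 : a1 ≤ A := le_trans (le_trans (le_max_left _ _) (le_max_right _ _)) hA
  have hAa2 : a2 ≤ A := le_trans (le_trans (le_max_right _ _) (le_max_right _ _)) hA
  have hA2 : 2 ≤ A := by omega
  have hAM := A_le_Mp hA2 hf
  have hn1 : n1 ≤ n := (le_max_left _ _).trans hn
  have hn2 : 1 ≤ n := le_trans (by norm_num) ((le_max_right _ _).trans hn)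
  have hM100 : 100 ≤ Mp A f := by
    have : (100 : ℝ) ≤ A := by exact_mod_cast hA100
    linarith
  have hM0 : 0 < Mp A f := by linarith
  have hs1 : Real.exp (-f) ≤ 1 := by
    rw [Real.exp_le_one_iff]; linarith
  refine DAT2.core hMG2 hKW hM100 hn2 (Real.exp_pos _) hs1 fun rho hrho hcrit => ?_
  rcases le_or_gt f 1 with hf1 | hf1
  · have hle1 : PWR.Mp A0 f ≤ Mp A f := by
      rw [Mp_eq hf1]
      rcases Nat.lt_or_ge A0 2 with h2 | h2
      · have e : A0 = 1 := by omega
        subst e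
        have h3 : Mp 1 f ≤ Mp 2 f := by
          unfold Mp
          have h4 : 0 < min f 1 := lt_min hf one_pos
          have h5 : 1 ≤ ((2 : ℕ) : ℝ) / min f 1 := by
            rw [le_div_iff₀ h4, one_mul]
            have := min_le_right f 1
            push_cast
            linarith
          calc (((1 : ℕ) : ℝ) / min f 1) ^ 1 ≤ (((2 : ℕ) : ℝ) / min f 1) ^ 1 := by
                rw [pow_one, pow_one]
                exact div_le_div_of_nonneg_right (by norm_num) h4.le
            _ ≤ _ := pow_le_pow_right₀ h5 (by norm_num)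
        exact h3.trans (Mp_mono le_rfl hA2 hf)
      · exact Mp_mono h2 (by omega) hf
    have h2 := hQ f hf hf1 n rho (hle1.trans hM) hrho hcrit
    have h3 : 1 ≤ PWR.Mp A0 f := by
      unfold PWR.Mp
      have h4 : 1 ≤ (A0 : ℝ) / f := by
        rw [le_div_iff₀ hf, one_mul]
        have : (1 : ℝ) ≤ A0 := by exact_mod_cast hA0
        linarith
      exact one_le_pow₀ h4
    refine QDAT.tails_mono (by linarith) hle1 ?_ ?_ h2
    · have := inv_le_one_of_one_le₀ h3
      linarith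
    · have := inv_anti₀ (by linarith : 0 < PWR.Mp A0 f) hle1
      linarith
  · have h2 := h1 n (Real.exp (-f)) rho hn1 (Real.exp_pos _) (by
      rw [Real.exp_le_exp]; linarith) hrho hcrit
    have e1 : C1 ≤ Mp A f := by
      have : (a1 : ℝ) ≤ A := by exact_mod_cast hAa1
      linarith
    have e2 : (1 - θ1)⁻¹ ≤ Mp A f := by
      have : (a2 : ℝ) ≤ A := by exact_mod_cast hAa2
      linarith
    refine QDAT.tails_mono hC1.le e1 hθ1.le ?_ h2
    have h4 : 0 < (1 - θ1)⁻¹ := inv_pos.2 (by linarith)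
    have h5 : (Mp A f)⁻¹ ≤ ((1 - θ1)⁻¹)⁻¹ := inv_anti₀ h4 e2
    rw [inv_inv] at h5
    linarith

end Pool.Agent.PFW
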