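import Pool.Agent.PFW.StmtsC
import Pool.Agent.EXW.PSUM

/-!
# Project PFW, module CUT: upper bound of the arches of gap `1` by the limit
-/

set_option autoImplicit false

namespace Pool.Agent.PFW

open Finset Pool.Agent.Gap Pool.Agent.FL Pool.Agent.EXW

namespace CUT

/-- splitting the sum over a window around `g` -/
lemma split (G : GapKernel) (N : ℕ) (g : ℤ) (hg : g ∈ Icc (1 : ℤ) N) (F : ℤ → ℝ)
    (h0 : ∀ g' : ℤ, g' < 1 → F g' = 0) (h1 : ∀ g' : ℤ, (G.R : ℤ) < |g' - g| → F g' = 0) :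
    ∑ g' ∈ Icc (g - G.R) (g + G.R), F g' =
      ∑ g' ∈ Icc (1 : ℤ) N, F g' + ∑ g' ∈ Icc ((N : ℤ) + 1) (N + G.R), F g' := by
  have hg' := Finset.mem_Icc.1 hg
  have hR : (0 : ℤ) ≤ G.R := Int.natCast_nonneg _
  have e1 : ∑ g' ∈ Icc (g - G.R) (g + G.R), F g' =
      ∑ g' ∈ Icc (g - G.R) (g + G.R) ∪ Icc (1 : ℤ) (N + G.R), F g' := by
    refine Finset.sum_subset Finset.subset_union_left fun x _ hx => h1 x ?_
    rw [Finset.mem_Icc] at hx
    by_contra h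
    rw [not_lt, abs_le] at h
    exact hx ⟨by omega, by omega⟩
  have e2 : ∑ g' ∈ Icc (1 : ℤ) (N + G.R), F g' =
      ∑ g' ∈ Icc (g - G.R) (g + G.R) ∪ Icc (1 : ℤ) (N + G.R), F g' := by
    refine Finset.sum_subset Finset.subset_union_right fun x hx hx' => ?_
    rw [Finset.mem_union, Finset.mem_Icc, Finset.mem_Icc] at hx
    rw [Finset.mem_Icc] at hx'
    rcases hx with hx | hx
    · exact h0 x (by omega)
    · exact absurd hx hx'
  have e3 : Icc (1 : ℤ) (N + G.R) = Icc (1 : ℤ) N ∪ Icc ((N : ℤ) + 1) (N + G.R) := by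
    ext x
    simp only [Finset.mem_union, Finset.mem_Icc]
    omega
  rw [e1, ← e2, e3, Finset.sum_union]
  rw [Finset.disjoint_left]
  intro x hx hx'
  rw [Finset.mem_Icc] at hx hx'
  omega

lemma K_zero (G : GapKernel) (i : ℕ × ℕ) {g g' : ℤ} (h : (G.R : ℤ) < |g' - g|) :
    G.K i g g' = 0 :=
  le_antisymm ((G.K_le i g g').trans_eq (G.T_range i _ h)) (G.K_nonneg i g g')

lemma Kc_zero (G : GapKernel) {g g' : ℤ} (h : (G.R : ℤ) < |g' - g|) : G.Kc g g' = 0 := by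
  unfold GapKernel.Kc
  exact Finset.sum_eq_zero fun i _ => by rw [K_zero G i h, mul_zero]

lemma Kc_nonneg (G : GapKernel) (g g' : ℤ) : 0 ≤ G.Kc g g' := by
  unfold GapKernel.Kc
  exact Finset.sum_nonneg fun i _ => mul_nonneg (pow_nonneg G.rho_pos.le _) (G.K_nonneg i g g')

variable {G : GapKernel} {s : ℕ → ℤ → ℝ} {B : ℕ → ℤ → Polynomial ℝ}

lemma ev (hB : IsSol G s B) (m : ℕ) (g : ℤ) (hg : 1 ≤ g) :
    (B m g).eval 1 = s m g + ∑ i ∈ G.S, if i.1 ≤ m then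
      ∑ g' ∈ Icc (g - G.R) (g + G.R), G.K i g g' * (B (m - i.1) g').eval 1 else 0 := by
  rw [hB.step m g hg, Polynomial.eval_add, Polynomial.eval_C, Polynomial.eval_finsetSum]
  congr 1
  refine sum_congr rfl fun i _ => ?_
  by_cases h : i.1 ≤ m
  · rw [if_pos h, if_pos h, Polynomial.eval_finsetSum]
    refine sum_congr rfl fun g' _ => ?_
    rw [Polynomial.eval_mul, Polynomial.eval_mul, Polynomial.eval_C, Polynomial.eval_pow,
      Polynomial.eval_X, one_pow, mul_one]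
  · rw [if_neg h, if_neg h, Polynomial.eval_zero]

lemma ev0 (hB : IsSol G s B) (m : ℕ) (g : ℤ) (hg : g < 1) : (B m g).eval 1 = 0 := by
  rw [hB.zero m g hg]
  simp

lemma ev2 (hB : IsSol G s B) (N m : ℕ) (g : ℤ) (hg : g ∈ Icc (1 : ℤ) N) :
    (B m g).eval 1 = s m g + ∑ i ∈ G.S, if i.1 ≤ m then
      (∑ g' ∈ Icc (1 : ℤ) N, G.K i g g' * (B (m - i.1) g').eval 1 +
        ∑ g' ∈ Icc ((N : ℤ) + 1) (N + G.R), G.K i g g' * (B (m - i.1) g').eval 1) else 0 := by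
  rw [ev hB m g (Finset.mem_Icc.1 hg).1]
  congr 1
  refine sum_congr rfl fun i _ => ?_
  by_cases h : i.1 ≤ m
  · rw [if_pos h, if_pos h]
    refine split G N g hg _ (fun g' h' => ?_) (fun g' h' => ?_)
    · rw [ev0 hB _ _ h', mul_zero]
    · rw [K_zero G i h', zero_mul]
  · rw [if_neg h, if_neg h]

lemma ev_nonneg {C0 : ℕ} (hs : IsCap C0 s) (hB : IsSol G s B) :
    ∀ (m : ℕ) (g : ℤ), 0 ≤ (B m g).eval 1 := by
  intro m
  induction m using Nat.strong_induction_on with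
  | _ m ih =>
  intro g
  by_cases hg : g < 1
  · rw [ev0 hB m g hg]
  push Not at hg
  rw [ev hB m g hg]
  refine add_nonneg (hs.nonneg m g) (Finset.sum_nonneg fun i hi => ?_)
  by_cases h : i.1 ≤ m
  · rw [if_pos h]
    refine Finset.sum_nonneg fun g' _ => mul_nonneg (G.K_nonneg i g g') (ih _ ?_ g')
    have := (G.pos_mem i hi).1
    omega
  · rw [if_neg h]

/-- the difference of the recursions -/
lemma dstep (hB : IsSol G s B) {N : ℕ} {U : ℕ → ℤ → ℝ} (hU : IsArr G s 0 N U) (m : ℕ) (g : ℤ)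
    (hg : g ∈ Icc (1 : ℤ) N) :
    (B m g).eval 1 - U m g = ∑ i ∈ G.S, if i.1 ≤ m then
      (∑ g' ∈ Icc (1 : ℤ) N, G.K i g g' * ((B (m - i.1) g').eval 1 - U (m - i.1) g') +
        ∑ g' ∈ Icc ((N : ℤ) + 1) (N + G.R), G.K i g g' * (B (m - i.1) g').eval 1) else 0 := by
  have hg' := Finset.mem_Icc.1 hg
  rw [ev2 hB N m g hg, hU.step m g hg'.1 hg'.2, add_sub_add_left_eq_sub, ← Finset.sum_sub_distrib]
  refine sum_congr rfl fun i _ => ?_
  by_cases h : i.1 ≤ m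
  · rw [if_pos h, if_pos h, if_pos h]
    have e : ∑ g' ∈ Icc (1 : ℤ) N, G.K i g g' * GapKernel.wt 0 i g g' * U (m - i.1) g' =
        ∑ g' ∈ Icc (1 : ℤ) N, G.K i g g' * U (m - i.1) g' := by
      refine sum_congr rfl fun g' _ => ?_
      have : GapKernel.wt 0 i g g' = 1 := by
        unfold GapKernel.wt
        simp
      rw [this, mul_one]
    rw [e]
    have e2 : ∑ g' ∈ Icc (1 : ℤ) N, G.K i g g' * ((B (m - i.1) g').eval 1 - U (m - i.1) g') =
        ∑ g' ∈ Icc (1 : ℤ) N, G.K i g g' * (B (m - i.1) g').eval 1 -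
          ∑ g' ∈ Icc (1 : ℤ) N, G.K i g g' * U (m - i.1) g' := by
      rw [← Finset.sum_sub_distrib]
      exact sum_congr rfl fun g' _ => by ring
    rw [e2]
    ring
  · rw [if_neg h, if_neg h, if_neg h, sub_zero]

lemma d_nonneg {C0 : ℕ} (hs : IsCap C0 s) (hB : IsSol G s B) {N : ℕ} {U : ℕ → ℤ → ℝ}
    (hU : IsArr G s 0 N U) : ∀ (m : ℕ) (g : ℤ), 0 ≤ (B m g).eval 1 - U m g := by
  intro m
  induction m using Nat.strong_induction_on with
  | _ m ih =>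
  intro g
  by_cases hg : g ∈ Icc (1 : ℤ) N
  · rw [dstep hB hU m g hg]
    refine Finset.sum_nonneg fun i hi => ?_
    by_cases h : i.1 ≤ m
    · rw [if_pos h]
      refine add_nonneg (Finset.sum_nonneg fun g' _ => mul_nonneg (G.K_nonneg i g g') (ih _ ?_ g'))
        (Finset.sum_nonneg fun g' _ => mul_nonneg (G.K_nonneg i g g') (ev_nonneg hs hB _ _))
      have := (G.pos_mem i hi).1
      omega
    · rw [if_neg h]
  · rw [hU.zero m g (by rw [Finset.mem_Icc] at hg; omega), sub_zero]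
    exact ev_nonneg hs hB m g

/-- the difference between a solution and a truncated solution -/
lemma y_RS {N : ℕ} {t V u : ℤ → ℝ} (hV0 : ∀ g ≤ 0, V g = 0)
    (hV : ∀ g : ℤ, 1 ≤ g → V g = t g + ∑ g' ∈ Icc (g - G.R) (g + G.R), G.Kc g g' * V g')
    (hu : VX.RS G N u t) :
    VX.RS G N (fun g => if g ∈ Icc (1 : ℤ) N then V g - u g else 0)
      (fun g => ∑ g' ∈ Icc ((N : ℤ) + 1) (N + G.R), G.Kc g g' * V g') := by
  refine ⟨fun g hg => ?_, fun g hg => ?_⟩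
  · simp only
    rw [if_neg]
    rw [Finset.mem_Icc]
    omega
  · simp only
    rw [if_pos hg]
    have h1 := hV g (Finset.mem_Icc.1 hg).1
    have h2 := hu.2 g hg
    have h3 := split G N g hg (fun g' => G.Kc g g' * V g')
      (fun g' h' => by rw [hV0 g' (by omega), mul_zero])
      (fun g' h' => by rw [Kc_zero G h', zero_mul])
    have h4 : ∑ g' ∈ Icc (1 : ℤ) N, G.Kc g g' *
        (if g' ∈ Icc (1 : ℤ) N then V g' - u g' else 0) =
        ∑ g' ∈ Icc (1 : ℤ) N, G.Kc g g' * V g' - ∑ g' ∈ Icc (1 : ℤ) N, G.Kc g g' * u g' := by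
      rw [← Finset.sum_sub_distrib]
      refine sum_congr rfl fun g' h' => ?_
      rw [if_pos h']
      ring
    rw [h4]
    rw [h3] at h1
    linarith

/-- the main claim -/
lemma main {C0 : ℕ} (hs : IsCap C0 s) (hB : IsSol G s B) {N : ℕ} {U : ℕ → ℤ → ℝ}
    (hU : IsArr G s 0 N U) {V y : ℤ → ℝ} (hVn : ∀ g, 0 ≤ V g)
    (hP : ∀ (M : ℕ) (g : ℤ), 1 ≤ g → ∑ m ∈ range M, G.rho ^ m * (B m g).eval 1 ≤ V g)
    (hy : VX.RS G N y (fun g => ∑ g' ∈ Icc ((N : ℤ) + 1) (N + G.R), G.Kc g g' * V g')) :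
    ∀ (M : ℕ) (g : ℤ), g ∈ Icc (1 : ℤ) N →
      ∑ m ∈ range M, G.rho ^ m * ((B m g).eval 1 - U m g) ≤ y g := by
  have hrho := G.rho_pos
  have hyn : ∀ g, 0 ≤ y g := VX.RS_nonneg G hy fun g _ =>
    Finset.sum_nonneg fun g' _ => mul_nonneg (Kc_nonneg G g g') (hVn g')
  intro M
  induction M using Nat.strong_induction_on with
  | _ M ih =>
  intro g hg
  rcases Nat.eq_zero_or_pos M with hM | hM
  · subst hM
    simpa using hyn g
  have key : ∑ m ∈ range M, G.rho ^ m * ((B m g).eval 1 - U m g) =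
      ∑ i ∈ G.S, G.rho ^ i.1 *
        (∑ g' ∈ Icc (1 : ℤ) N, G.K i g g' *
            ∑ m ∈ range (M - i.1), G.rho ^ m * ((B m g').eval 1 - U m g') +
          ∑ g' ∈ Icc ((N : ℤ) + 1) (N + G.R), G.K i g g' *
            ∑ m ∈ range (M - i.1), G.rho ^ m * (B m g').eval 1) := by
    have e1 : ∀ m ∈ range M, G.rho ^ m * ((B m g).eval 1 - U m g) =
        ∑ i ∈ G.S, G.rho ^ i.1 * (if i.1 ≤ m then
          (fun j => ∑ g' ∈ Icc (1 : ℤ) N, G.K i g g' * (G.rho ^ j * ((B j g').eval 1 - U j g')) +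
            ∑ g' ∈ Icc ((N : ℤ) + 1) (N + G.R), G.K i g g' * (G.rho ^ j * (B j g').eval 1))
            (m - i.1) else 0) := by
      intro m _
      rw [dstep hB hU m g hg, mul_sum]
      refine sum_congr rfl fun i _ => ?_
      by_cases h : i.1 ≤ m
      · simp only [if_pos h]
        have e : G.rho ^ m = G.rho ^ i.1 * G.rho ^ (m - i.1) := by
          rw [← pow_add]
          congr 1
          omega
        rw [e, mul_assoc, mul_add, mul_sum, mul_sum]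
        congr 2
        · exact sum_congr rfl fun g' _ => by ring
        · exact sum_congr rfl fun g' _ => by ring
      · simp only [if_neg h, mul_zero]
    rw [sum_congr rfl e1, sum_comm]
    refine sum_congr rfl fun i _ => ?_
    rw [← mul_sum, psum_shift i.1 (fun j => ∑ g' ∈ Icc (1 : ℤ) N, G.K i g g' *
      (G.rho ^ j * ((B j g').eval 1 - U j g')) +
        ∑ g' ∈ Icc ((N : ℤ) + 1) (N + G.R), G.K i g g' * (G.rho ^ j * (B j g').eval 1)) M]
    congr 1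
    rw [sum_add_distrib]
    congr 1
    · rw [sum_comm]
      exact sum_congr rfl fun g' _ => by rw [← mul_sum]
    · rw [sum_comm]
      exact sum_congr rfl fun g' _ => by rw [← mul_sum]
  have hle : ∀ i ∈ G.S, G.rho ^ i.1 *
        (∑ g' ∈ Icc (1 : ℤ) N, G.K i g g' *
            ∑ m ∈ range (M - i.1), G.rho ^ m * ((B m g').eval 1 - U m g') +
          ∑ g' ∈ Icc ((N : ℤ) + 1) (N + G.R), G.K i g g' *
            ∑ m ∈ range (M - i.1), G.rho ^ m * (B m g').eval 1) ≤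
      G.rho ^ i.1 * (∑ g' ∈ Icc (1 : ℤ) N, G.K i g g' * y g' +
          ∑ g' ∈ Icc ((N : ℤ) + 1) (N + G.R), G.K i g g' * V g') := by
    intro i hi
    refine mul_le_mul_of_nonneg_left (add_le_add (sum_le_sum fun g' h' => ?_)
      (sum_le_sum fun g' h' => ?_)) (pow_nonneg hrho.le _)
    · refine mul_le_mul_of_nonneg_left (ih _ ?_ g' h') (G.K_nonneg i g g')
      have := (G.pos_mem i hi).1
      omega
    · refine mul_le_mul_of_nonneg_left (hP _ g' ?_) (G.K_nonneg i g g')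
      rw [Finset.mem_Icc] at h'
      omega
  have hyg : y g = ∑ g' ∈ Icc ((N : ℤ) + 1) (N + G.R), G.Kc g g' * V g' +
      ∑ g' ∈ Icc (1 : ℤ) N, G.Kc g g' * y g' := hy.2 g hg
  rw [key, hyg]
  refine (sum_le_sum hle).trans (le_of_eq ?_)
  have e2 : ∀ (s' : Finset ℤ) (F : ℤ → ℝ), ∑ g' ∈ s', G.Kc g g' * F g' =
      ∑ i ∈ G.S, G.rho ^ i.1 * ∑ g' ∈ s', G.K i g g' * F g' := by
    intro s' F
    unfold GapKernel.Kc
    simp only [sum_mul, mul_sum]
    rw [sum_comm]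
    exact sum_congr rfl fun i _ => sum_congr rfl fun g' _ => by ring
  rw [e2, e2, ← sum_add_distrib]
  refine sum_congr rfl fun i _ => ?_
  ring

end CUT

open CUT in
/-- MODULE CUT. -/
theorem t_CUT (h1 : Pool.Agent.EXW.QGRE_Stmt) (h2 : Pool.Agent.EXW.PSUM_Stmt) (h3 : TRN_Stmt)
    (h4 : LYA_Stmt) (h5 : Pool.Agent.Gap.J1_Stmt) : CUT_Stmt := by
  intro K1
  obtain ⟨Kr, hR⟩ := h1
  obtain ⟨Kt, hT⟩ := h3
  obtain ⟨Kl, hL⟩ := h4
  refine ⟨3 * Kt + 2 * K1 + Kl + 2, fun D hD G hG C0 s B V A hs hB hV hA W m hW => ?_⟩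
  set K : ℕ := 3 * Kt + 2 * K1 + Kl + 2 with hK
  have hD0 : (0 : ℝ) < D := by linarith
  have hD1 : (1 : ℝ) ≤ D := by linarith
  have hrho := G.rho_pos
  have hW1 : (1 : ℝ) ≤ W := (one_le_pow₀ hD1).trans hW
  have hWn : 1 ≤ W := by exact_mod_cast hW1
  -- the class `D ^ 3`
  have hsrc := GE.critSrc_sr hD0 (th_pos hD) (th_lt hD) hG hs
  have e : D ^ 2 + D / (1 - (1 - D⁻¹)) = 2 * D ^ 2 := by
    rw [sub_sub_cancel, div_inv_eq_mul]
    ring
  rw [e] at hsrc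
  have h22 : 2 * D ^ 2 ≤ D ^ 3 := by nlinarith [sq_nonneg D]
  have h33 : D ≤ D ^ 3 := by nlinarith [sq_nonneg D]
  have h44 : 2 ≤ D ^ 3 := hD.trans h33
  have hsrc' : CritSrc (D ^ 3) (1 - (D ^ 3)⁻¹) C0 (GE.sr G.rho C0 s) :=
    { nonneg := hsrc.nonneg
      supp := hsrc.supp
      one := (inv_anti₀ (by positivity) h22).trans hsrc.one
      dec := fun g => (hsrc.dec g).trans <|
        mul_le_mul h22 (pow_le_pow_left₀ (th_pos hD).le (th_mono hD h33) g)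
          (pow_nonneg (th_pos hD).le g) (by positivity) }
  -- the truncated solution
  have hz : ‖(G.rho : ℂ)‖ ≤ G.rho := by
    rw [Complex.norm_real, Real.norm_of_nonneg hrho.le]
  obtain ⟨v, hv⟩ := (hR D hD G hG (2 * W) 0 (G.rho : ℂ) le_rfl hz).1
    (fun g => ((GE.sr G.rho C0 s g : ℝ) : ℂ))
  have hu := VX.RS_of_solves G hv
  set u : ℤ → ℝ := fun g => (v g).re with hudef
  obtain ⟨U, hU⟩ := (h5 G C0 s hs.cap (2 * W) 0 le_rfl).1
  have hy := y_RS hV.zero hV.eq hu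
  have hP : ∀ (M : ℕ) (g : ℤ), 1 ≤ g → ∑ m ∈ range M, G.rho ^ m * (B m g).eval 1 ≤ V g := by
    intro M g hg
    rcases Nat.eq_zero_or_pos M with hM | hM
    · subst hM
      simpa using hV.nonneg g
    · obtain ⟨M', rfl⟩ : ∃ M', M = M' + 1 := ⟨M - 1, by omega⟩
      exact h2 G C0 s B V hs.cap hB hV.nonneg hV.eq M' g hg
  have hone : (1 : ℤ) ∈ Icc (1 : ℤ) ((2 * W : ℕ) : ℤ) := by
    rw [Finset.mem_Icc]
    exact ⟨le_rfl, by exact_mod_cast (by omega : 1 ≤ 2 * W)⟩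
  have hmain := main hs.cap hB hU hV.nonneg hP hy (m + 1) 1 hone
  rw [if_pos hone] at hmain
  have hsingle : G.rho ^ m * ((B m 1).eval 1 - U m 1) ≤
      ∑ m ∈ range (m + 1), G.rho ^ m * ((B m 1).eval 1 - U m 1) :=
    Finset.single_le_sum (f := fun m => G.rho ^ m * ((B m 1).eval 1 - U m 1))
      (fun j _ => mul_nonneg (pow_nonneg hrho.le _) (d_nonneg hs.cap hB hU j 1))
      (Finset.mem_range.2 (Nat.lt_succ_self m))
  -- TRN
  set X : ℝ := D ^ K1 * (A + Real.exp (-((W : ℝ) / D ^ K1))) with hX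
  have hDK1 : 0 < D ^ K1 := by positivity
  have hXb : ∀ g : ℤ, (W : ℤ) ≤ g → V g ≤ X := by
    intro g hg
    obtain ⟨g', rfl⟩ : ∃ g' : ℕ, g = g' := ⟨g.toNat, by omega⟩
    refine (hA.ptw g').trans ?_
    rw [hX]
    refine mul_le_mul_of_nonneg_left ?_ hDK1.le
    have h7 : (W : ℝ) ≤ g' := by exact_mod_cast hg
    have h8 : (W : ℝ) / D ^ K1 ≤ (g' : ℝ) / D ^ K1 := div_le_div_of_nonneg_right h7 hDK1.le
    have h9 := Real.exp_le_exp.2 (neg_le_neg h8)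
    linarith
  have htrn := hT (D ^ 3) h44 G (cls_mono hD h33 hG) C0 _ V hsrc' (hV.mono h33) (2 * W) W u X
    (by omega) le_rfl hu hXb
  -- LYA
  have hlya := hL D hD G hG C0 s hs (2 * W) (by
    push_cast
    have h7 : D ^ Kl ≤ D ^ K := pow_le_pow_right₀ hD1 (by omega)
    linarith) U hU m 1
  push_cast at hlya
  have hA0 := hA.nonneg
  have hW2 : (1 : ℝ) ≤ (W : ℝ) ^ 2 := one_le_pow₀ hW1
  -- bounds of exponentials
  have hexp : ∀ (P Q : ℝ), 0 ≤ P → 0 < Q → ∀ Q', Q ≤ Q' → Real.exp (-(P / Q)) ≤ Real.exp (-(P / Q')) := by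
    intro P Q hP0 hQ Q' hQQ
    refine Real.exp_le_exp.2 (neg_le_neg ?_)
    exact div_le_div_of_nonneg_left hP0 hQ hQQ
  have hW0 : (0 : ℝ) ≤ W := by linarith
  have hm0 : (0 : ℝ) ≤ m := Nat.cast_nonneg m
  set E : ℝ := Real.exp (-((W : ℝ) / D ^ K)) with hE
  have hE0 : 0 < E := Real.exp_pos _
  have b1 : Real.exp (-((W : ℝ) / D ^ K1)) ≤ E :=
    hexp _ _ hW0 (by positivity) _ (pow_le_pow_right₀ hD1 (by omega))
  have b2 : Real.exp (-((W : ℝ) / (D ^ 3) ^ Kt)) ≤ E := by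
    rw [← pow_mul]
    exact hexp _ _ hW0 (by positivity) _ (pow_le_pow_right₀ hD1 (by omega))
  have b3 : Real.exp (-((W : ℝ) / D ^ K1)) ≤ 1 := by
    rw [Real.exp_le_one_iff]
    have : 0 ≤ (W : ℝ) / D ^ K1 := by positivity
    linarith
  have b0 : 0 < Real.exp (-((W : ℝ) / D ^ K1)) := Real.exp_pos _
  set e1 : ℝ := Real.exp (-((W : ℝ) / D ^ K1)) with he1
  have bX : X ^ 2 ≤ 2 * D ^ (2 * K1) * (A ^ 2 + E) := by
    have h7 : X ^ 2 = D ^ (2 * K1) * (A + e1) ^ 2 := by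
      rw [hX, mul_pow, ← pow_mul, mul_comm K1 2]
    rw [h7]
    have h8 : (A + e1) ^ 2 ≤ 2 * (A ^ 2 + E) := by
      nlinarith [sq_nonneg (A - e1)]
    have h9 : 0 ≤ D ^ (2 * K1) := by positivity
    nlinarith
  -- first part
  have c1 : V 1 - u 1 ≤ D ^ K * (A ^ 2 + (W : ℝ) ^ 2 * E) := by
    refine htrn.trans ?_
    have h7 : (D ^ 3) ^ Kt = D ^ (3 * Kt) := by rw [← pow_mul]
    rw [h7] at b2 ⊢
    have h8 : (1 : ℝ) ≤ D ^ (2 * K1) := one_le_pow₀ hD1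
    have h9 : X ^ 2 + Real.exp (-((W : ℝ) / D ^ (3 * Kt))) ≤ D ^ (2 * K1) * (2 * A ^ 2 + 3 * E) := by
      nlinarith
    have h10 : D ^ (3 * Kt) * D ^ (2 * K1) * D ^ 2 ≤ D ^ K := by
      rw [← pow_add, ← pow_add]
      exact pow_le_pow_right₀ hD1 (by omega)
    have h11 : (4 : ℝ) ≤ D ^ 2 := by nlinarith
    have h12 : 0 ≤ D ^ (3 * Kt) * D ^ (2 * K1) := by positivity
    have h13 : 2 * A ^ 2 + 3 * E ≤ D ^ 2 * (A ^ 2 + (W : ℝ) ^ 2 * E) := by
      have h14 : 2 * A ^ 2 ≤ D ^ 2 * A ^ 2 := by nlinarith [sq_nonneg A]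
      have h15 : E ≤ (W : ℝ) ^ 2 * E := by nlinarith
      have h16 : 3 * E ≤ D ^ 2 * ((W : ℝ) ^ 2 * E) := by nlinarith
      linarith
    have h17 : 0 ≤ A ^ 2 + (W : ℝ) ^ 2 * E := by positivity
    calc D ^ (3 * Kt) * (X ^ 2 + Real.exp (-((W : ℝ) / D ^ (3 * Kt))))
        ≤ D ^ (3 * Kt) * (D ^ (2 * K1) * (2 * A ^ 2 + 3 * E)) :=
          mul_le_mul_of_nonneg_left h9 (by positivity)
      _ = D ^ (3 * Kt) * D ^ (2 * K1) * (2 * A ^ 2 + 3 * E) := by ring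
      _ ≤ D ^ (3 * Kt) * D ^ (2 * K1) * (D ^ 2 * (A ^ 2 + (W : ℝ) ^ 2 * E)) :=
          mul_le_mul_of_nonneg_left h13 h12
      _ = D ^ (3 * Kt) * D ^ (2 * K1) * D ^ 2 * (A ^ 2 + (W : ℝ) ^ 2 * E) := by ring
      _ ≤ _ := mul_le_mul_of_nonneg_right h10 h17
  -- second part
  have c2 : G.rho ^ m * U m 1 ≤
      D ^ K * ((W : ℝ) ^ 2 * Real.exp (-((m : ℝ) / (D ^ K * (W : ℝ) ^ 2)))) := by
    refine hlya.trans ?_
    have h7 : D ^ Kl * (2 * (W : ℝ)) ^ 2 ≤ D ^ K * (W : ℝ) ^ 2 := by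
      have h8 : D ^ Kl * D ^ 2 ≤ D ^ K := by
        rw [← pow_add]
        exact pow_le_pow_right₀ hD1 (by omega)
      have h9 : (4 : ℝ) ≤ D ^ 2 := by nlinarith
      have h10 : 0 < D ^ Kl := by positivity
      have h11 : D ^ Kl * 4 ≤ D ^ K := by nlinarith
      nlinarith
    have h8 : 0 < D ^ Kl * (2 * (W : ℝ)) ^ 2 := by positivity
    have h9 := hexp (m : ℝ) _ hm0 h8 _ h7
    calc D ^ Kl * (2 * (W : ℝ)) ^ 2 * Real.exp (-((m : ℝ) / (D ^ Kl * (2 * (W : ℝ)) ^ 2)))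
        ≤ D ^ K * (W : ℝ) ^ 2 * Real.exp (-((m : ℝ) / (D ^ K * (W : ℝ) ^ 2))) :=
          mul_le_mul h7 h9 (Real.exp_pos _).le (by positivity)
      _ = _ := by ring
  have h7 : G.rho ^ m * ((B m 1).eval 1 - U m 1) ≤ V 1 - u 1 := hsingle.trans hmain
  have h8 : G.rho ^ m * (B m 1).eval 1 ≤ (V 1 - u 1) + G.rho ^ m * U m 1 := by
    rw [mul_sub] at h7
    linarith
  refine h8.trans ((add_le_add c1 c2).trans (le_of_eq ?_))
  ring

end Pool.Agent.PFW
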