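import Pool.Agent.PFW.StmtsC
import Pool.Agent.EXW.CHB

/-!
# Project PFW (MP_f6626d_co), module LYA: exponential decay of the truncated arrays

`Φ g = 4 N^2 - g^2`, `lam = 1 + η`, `η = 1 / (D^12 N^2)`; the claim is
`ρ^m U m g ≤ 2 D^2 Φ g lam^(-m)` on `[1, N]`.
-/

set_option autoImplicit false

namespace Pool.Agent.PFW

open Finset Pool.Agent.Gap Pool.Agent.FL Pool.Agent.EXW

namespace LYA

variable {D : ℝ} {G : GapKernel}

/-- the translation invariant kernel, restricted to the gaps `1..N` -/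
lemma shift (G : GapKernel) (i : ℕ × ℕ) (g : ℤ) (N : ℕ) (w : ℤ → ℝ) (hw : ∀ x, 0 ≤ w x) :
    ∑ g' ∈ Icc (1 : ℤ) N, G.T i (g' - g) * w g' ≤
      ∑ d ∈ Icc (-(G.R : ℤ)) G.R, G.T i d * w (g + d) := by
  classical
  have h0 : ∀ g' : ℤ, 0 ≤ G.T i (g' - g) * w g' := fun g' => mul_nonneg (G.T_nonneg _ _) (hw _)
  have h : ∑ g' ∈ Icc (g - (G.R : ℤ)) (g + G.R), G.T i (g' - g) * w g' =
      ∑ d ∈ Icc (-(G.R : ℤ)) G.R, G.T i d * w (g + d) := by
    refine Finset.sum_nbij' (fun g' => g' - g) (fun d => g + d) ?_ ?_ ?_ ?_ ?_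
    · intro a ha
      rw [Finset.mem_Icc] at ha ⊢
      omega
    · intro a ha
      rw [Finset.mem_Icc] at ha ⊢
      omega
    · intro a _
      ring
    · intro a _
      ring
    · intro a _
      have : g + (a - g) = a := by ring
      simp only [this]
  rw [← h]
  calc ∑ g' ∈ Icc (1 : ℤ) N, G.T i (g' - g) * w g'
      = ∑ g' ∈ (Icc (1 : ℤ) N).filter (fun g' => g' ∈ Icc (g - (G.R : ℤ)) (g + G.R)),
          G.T i (g' - g) * w g' := by
        symm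
        refine Finset.sum_filter_of_ne fun x _ hx => ?_
        by_contra hcon
        apply hx
        rw [G.T_range i (x - g) ?_, zero_mul]
        by_contra h2
        apply hcon
        rw [not_lt, abs_le] at h2
        rw [Finset.mem_Icc]
        omega
    _ ≤ _ := Finset.sum_le_sum_of_subset_of_nonneg (fun x hx => (Finset.mem_filter.1 hx).2)
        fun x _ _ => h0 x

/-- the quadratic function, one piece type -/
lemma one_type (hG : Loc G) (i : ℕ × ℕ) {g : ℤ} {N : ℕ} (h1 : 1 ≤ g) (h2 : g ≤ N) :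
    ∑ g' ∈ Icc (1 : ℤ) N, G.T i (g' - g) * (4 * (N : ℝ) ^ 2 - (g' : ℝ) ^ 2) ≤
      (4 * (N : ℝ) ^ 2 - (g : ℝ) ^ 2) * G.tot i -
        ∑ d ∈ Icc (-(G.R : ℤ)) G.R, (d : ℝ) ^ 2 * G.T i d +
        (if N / 2 ≤ i.1 then 16 * (i.1 : ℝ) ^ 2 else 0) * G.tot i := by
  have e1 : ∑ g' ∈ Icc (1 : ℤ) N, G.T i (g' - g) * (4 * (N : ℝ) ^ 2 - (g' : ℝ) ^ 2) =
      ∑ g' ∈ Icc (1 : ℤ) N, G.T i (g' - g) * max (4 * (N : ℝ) ^ 2 - (g' : ℝ) ^ 2) 0 := by
    refine Finset.sum_congr rfl fun x hx => ?_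
    rw [Finset.mem_Icc] at hx
    have hx1 : (1 : ℝ) ≤ x := by exact_mod_cast hx.1
    have hx2 : (x : ℝ) ≤ N := by exact_mod_cast hx.2
    rw [max_eq_left]
    nlinarith
  rw [e1]
  refine (shift G i g N (fun x => max (4 * (N : ℝ) ^ 2 - (x : ℝ) ^ 2) 0)
    (fun x => le_max_right _ _)).trans ?_
  set c : ℝ := if N / 2 ≤ i.1 then 16 * (i.1 : ℝ) ^ 2 else 0 with hc
  have hc0 : 0 ≤ c := by
    rw [hc]
    split_ifs <;> positivity
  have key : ∀ d : ℤ, G.T i d * max (4 * (N : ℝ) ^ 2 - ((g + d : ℤ) : ℝ) ^ 2) 0 ≤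
      (4 * (N : ℝ) ^ 2 - (g : ℝ) ^ 2) * G.T i d - 2 * g * (G.T i d * d) -
        (d : ℝ) ^ 2 * G.T i d + c * G.T i d := by
    intro d
    have hT := G.T_nonneg i d
    rcases lt_or_ge (2 * (i.1 : ℤ)) |d| with h5 | h5
    · rw [hG.T_loc i d h5]
      simp
    · have hmain : max (4 * (N : ℝ) ^ 2 - ((g + d : ℤ) : ℝ) ^ 2) 0 ≤
          4 * (N : ℝ) ^ 2 - ((g + d : ℤ) : ℝ) ^ 2 + c := by
        refine max_le (by linarith) ?_
        by_contra hcon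
        push Not at hcon
        have h6 : (N : ℤ) < |d| := by
          by_contra h
          push Not at h
          have h7 : |((g + d : ℤ) : ℝ)| ≤ 2 * N := by
            have h8 : |g + d| ≤ 2 * (N : ℤ) := by
              rw [abs_le] at h ⊢
              omega
            exact_mod_cast h8
          have h9 : ((g + d : ℤ) : ℝ) ^ 2 ≤ (2 * (N : ℝ)) ^ 2 := by
            rw [← sq_abs]
            exact pow_le_pow_left₀ (abs_nonneg _) h7 2
          nlinarith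
        have h7 : |((g + d : ℤ) : ℝ)| ≤ 4 * (i.1 : ℝ) := by
          have h8 : |g + d| ≤ 4 * (i.1 : ℤ) := by
            have := abs_add_le g d
            rw [abs_of_pos (by omega : 0 < g)] at this
            omega
          exact_mod_cast h8
        have h9 : ((g + d : ℤ) : ℝ) ^ 2 ≤ (4 * (i.1 : ℝ)) ^ 2 := by
          rw [← sq_abs]
          exact pow_le_pow_left₀ (abs_nonneg _) h7 2
        rw [hc, if_pos (by omega)] at hcon
        nlinarith [sq_nonneg (N : ℝ)]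
      have h10 := mul_le_mul_of_nonneg_left hmain hT
      refine h10.trans (le_of_eq ?_)
      push_cast
      ring
  refine (Finset.sum_le_sum fun d _ => key d).trans (le_of_eq ?_)
  rw [Finset.sum_add_distrib, Finset.sum_sub_distrib, Finset.sum_sub_distrib, ← Finset.mul_sum,
    ← Finset.mul_sum, ← Finset.mul_sum, CHB.first G i]
  unfold GapKernel.tot
  ring

/-- the quadratic function is superharmonic with a gap -/
lemma parta (hD : 2 ≤ D) (hG : Cls D (1 - D⁻¹) G) {K1 : ℕ}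
    (hK1 : ∀ a : ℕ, ∑ i ∈ G.S.filter (fun i => a ≤ i.1), (i.1 : ℝ) ^ 2 * (G.rho ^ i.1 * G.tot i)
      ≤ D ^ K1 * (1 - (2 * D)⁻¹) ^ a) (hsig : D⁻¹ ≤ G.sig2) {N : ℕ}
    (hN : D ^ (K1 + 11) ≤ N) {g : ℤ} (h1 : 1 ≤ g) (h2 : g ≤ N) :
    ∑ i ∈ G.S, G.rho ^ i.1 *
        ∑ g' ∈ Icc (1 : ℤ) N, G.T i (g' - g) * (4 * (N : ℝ) ^ 2 - (g' : ℝ) ^ 2) ≤
      (4 * (N : ℝ) ^ 2 - (g : ℝ) ^ 2) - 3 * D⁻¹ / 4 := by
  have hD0 : 0 < D := by linarith
  have hDi : 0 < D⁻¹ := inv_pos.2 hD0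
  have s1 : ∑ i ∈ G.S, G.rho ^ i.1 *
        ∑ g' ∈ Icc (1 : ℤ) N, G.T i (g' - g) * (4 * (N : ℝ) ^ 2 - (g' : ℝ) ^ 2) ≤
      ∑ i ∈ G.S, ((4 * (N : ℝ) ^ 2 - (g : ℝ) ^ 2) * (G.rho ^ i.1 * G.tot i) -
        G.rho ^ i.1 * ∑ d ∈ Icc (-(G.R : ℤ)) G.R, (d : ℝ) ^ 2 * G.T i d +
        (if N / 2 ≤ i.1 then 16 * ((i.1 : ℝ) ^ 2 * (G.rho ^ i.1 * G.tot i)) else 0)) := by
    refine Finset.sum_le_sum fun i _ => ?_
    refine (mul_le_mul_of_nonneg_left (one_type hG.loc i h1 h2)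
      (pow_nonneg G.rho_pos.le i.1)).trans (le_of_eq ?_)
    split_ifs <;> ring
  refine s1.trans ?_
  rw [Finset.sum_add_distrib, Finset.sum_sub_distrib, ← Finset.mul_sum, GSum.crit',
    ← Finset.sum_filter, ← Finset.mul_sum]
  have s2 := hK1 (N / 2)
  have s3 : (∑ i ∈ G.S, G.rho ^ i.1 *
      ∑ d ∈ Icc (-(G.R : ℤ)) G.R, (d : ℝ) ^ 2 * G.T i d) = G.sig2 := rfl
  rw [s3]
  -- the tail is small
  have hNpos : (1 : ℝ) ≤ N := (one_le_pow₀ (by linarith)).trans hN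
  have hN1 : 1 ≤ N := by exact_mod_cast hNpos
  have hN512 : 512 * D ^ (K1 + 2) ≤ N := by
    refine le_trans ?_ hN
    have h6 : (2 : ℝ) ^ 9 ≤ D ^ 9 := pow_le_pow_left₀ (by norm_num) hD 9
    have e : D ^ (K1 + 11) = D ^ 9 * D ^ (K1 + 2) := by
      rw [← pow_add]
      congr 1
      omega
    rw [e]
    exact mul_le_mul_of_nonneg_right (by linarith) (by positivity)
  have hN2 : (2 : ℝ) ≤ N := by
    have h6 : (1 : ℝ) ≤ D ^ (K1 + 2) := one_le_pow₀ (by linarith)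
    linarith
  have hN2' : 2 ≤ N := by exact_mod_cast hN2
  have ha : (N : ℝ) / 4 ≤ ((N / 2 : ℕ) : ℝ) := by
    have h6 : N ≤ 4 * (N / 2) := by omega
    have h7 : (N : ℝ) ≤ 4 * ((N / 2 : ℕ) : ℝ) := by exact_mod_cast h6
    linarith
  have hexp : (1 - (2 * D)⁻¹) ^ (N / 2) ≤ 8 * D / N := by
    have q0 : 0 ≤ 1 - (2 * D)⁻¹ := (th_pos (by linarith)).le
    have q1 : 1 - (2 * D)⁻¹ ≤ Real.exp (-(2 * D)⁻¹) := by
      have := Real.add_one_le_exp (-(2 * D)⁻¹)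
      linarith
    calc (1 - (2 * D)⁻¹) ^ (N / 2) ≤ Real.exp (-(2 * D)⁻¹) ^ (N / 2) :=
          pow_le_pow_left₀ q0 q1 _
      _ = Real.exp (-(((N / 2 : ℕ) : ℝ) * (2 * D)⁻¹)) := by
          rw [← Real.exp_nat_mul]
          congr 1
          ring
      _ = (Real.exp (((N / 2 : ℕ) : ℝ) * (2 * D)⁻¹))⁻¹ := Real.exp_neg _
      _ ≤ ((N : ℝ) / 4 * (2 * D)⁻¹)⁻¹ := by
          refine inv_anti₀ (by positivity) ?_
          have h7 : (N : ℝ) / 4 * (2 * D)⁻¹ ≤ ((N / 2 : ℕ) : ℝ) * (2 * D)⁻¹ :=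
            mul_le_mul_of_nonneg_right ha (by positivity)
          have h8 := Real.add_one_le_exp (((N / 2 : ℕ) : ℝ) * (2 * D)⁻¹)
          linarith
      _ = 8 * D / N := by
          field_simp
          ring
  have s4 : 16 * (D ^ K1 * (1 - (2 * D)⁻¹) ^ (N / 2)) ≤ D⁻¹ / 4 := by
    have h6 : 16 * (D ^ K1 * (1 - (2 * D)⁻¹) ^ (N / 2)) ≤ 16 * (D ^ K1 * (8 * D / N)) := by
      gcongr
    refine h6.trans ?_
    have h7 : 16 * (D ^ K1 * (8 * D / N)) = (128 * D ^ (K1 + 1)) / N := by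
      rw [pow_succ]
      ring
    rw [h7, div_le_iff₀ (by linarith)]
    have h8 : D⁻¹ / 4 * (512 * D ^ (K1 + 2)) ≤ D⁻¹ / 4 * N :=
      mul_le_mul_of_nonneg_left hN512 (by positivity)
    refine le_trans (le_of_eq ?_) h8
    rw [pow_succ D (K1 + 1)]
    field_simp
    ring
  linarith

/-- `lam^k - 1` -/
lemma pow_sub_le {η : ℝ} (hη : 0 ≤ η) (k : ℕ) : (1 + η) ^ k - 1 ≤ η * (k * (1 + η) ^ k) := by
  induction k with
  | zero => simp
  | succ k ih =>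
    have h1 : (1 : ℝ) ≤ (1 + η) ^ (k + 1) := one_le_pow₀ (by linarith)
    have h2 : (1 + η) ^ (k + 1) - 1 = (1 + η) * ((1 + η) ^ k - 1) + η := by ring
    rw [h2]
    push_cast
    calc (1 + η) * ((1 + η) ^ k - 1) + η ≤ (1 + η) * (η * (k * (1 + η) ^ k)) +
          η * (1 + η) ^ (k + 1) := by
          have h3 := mul_le_mul_of_nonneg_left ih (by linarith : (0 : ℝ) ≤ 1 + η)
          have h4 := mul_le_mul_of_nonneg_left h1 hη
          linarith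
      _ = _ := by ring

/-- the error from the factor `lam^i` -/
lemma partb (hD : 2 ≤ D) (hG : Cls D (1 - D⁻¹) G) {η : ℝ} (h0 : 0 ≤ η) (h4 : η ≤ D⁻¹ / 4)
    {N : ℕ} {g : ℤ} :
    ∑ i ∈ G.S, G.rho ^ i.1 * (((1 + η) ^ i.1 - 1) *
        ∑ g' ∈ Icc (1 : ℤ) N, G.T i (g' - g) * (4 * (N : ℝ) ^ 2 - (g' : ℝ) ^ 2)) ≤
      4 * (N : ℝ) ^ 2 * η * D ^ 7 := by
  have hD0 : 0 < D := by linarith
  have hDi : 0 < D⁻¹ := inv_pos.2 hD0
  have hθ := th_pos hD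
  have h1l : ∀ k : ℕ, (1 : ℝ) ≤ (1 + η) ^ k := fun k => one_le_pow₀ (by linarith)
  have s1 : ∀ i : ℕ × ℕ,
      ∑ g' ∈ Icc (1 : ℤ) N, G.T i (g' - g) * (4 * (N : ℝ) ^ 2 - (g' : ℝ) ^ 2) ≤
        4 * (N : ℝ) ^ 2 * G.tot i := by
    intro i
    have h5 : ∑ g' ∈ Icc (1 : ℤ) N, G.T i (g' - g) * (4 * (N : ℝ) ^ 2 - (g' : ℝ) ^ 2) ≤
        ∑ g' ∈ Icc (1 : ℤ) N, G.T i (g' - g) * (4 * (N : ℝ) ^ 2) := by
      refine Finset.sum_le_sum fun x _ => mul_le_mul_of_nonneg_left ?_ (G.T_nonneg _ _)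
      have := sq_nonneg (x : ℝ)
      linarith
    refine h5.trans ((shift G i g N (fun _ => 4 * (N : ℝ) ^ 2) (fun _ => by positivity)).trans
      (le_of_eq ?_))
    rw [← Finset.sum_mul, mul_comm]
    rfl
  have q1 : (1 + η) * (1 - D⁻¹) ≤ 1 - (4 * D)⁻¹ := by
    have e3 : (4 * D)⁻¹ = D⁻¹ / 4 := by rw [mul_inv]; ring
    rw [e3]
    nlinarith
  have q0 : 0 ≤ (1 + η) * (1 - D⁻¹) := by positivity
  have h4D : 0 < (4 * D)⁻¹ := by positivity
  set q : ℝ := (1 + η) * (1 - D⁻¹) with hq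
  have hq1 : q < 1 := by linarith
  have hs : Summable fun m : ℕ => (m : ℝ) ^ 1 * q ^ m :=
    summable_pow_mul_geometric_of_norm_lt_one 1 (by rwa [Real.norm_of_nonneg q0])
  have hF : ∀ m : ℕ, ((m : ℝ) * (1 + η) ^ m) * (1 - D⁻¹) ^ m = (m : ℝ) ^ 1 * q ^ m := by
    intro m
    rw [hq, mul_pow, pow_one]
    ring
  have t1 := GSum.sum_le hG hD0.le hθ.le (F := fun m => (m : ℝ) * (1 + η) ^ m)
    (fun m => by positivity) (hs.congr fun m => (hF m).symm)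
  simp only [hF] at t1
  have t2 : ∑' m : ℕ, (m : ℝ) ^ 1 * q ^ m ≤ 16 * D ^ 2 := by
    have h3 := geo_le 1 q0 h4D q1
    have h5 : ((Nat.factorial 1 : ℕ) : ℝ) / (4 * D)⁻¹ ^ (1 + 1) = 16 * D ^ 2 := by
      rw [inv_pow, div_inv_eq_mul]
      norm_num
      ring
    rw [h5] at h3
    refine le_trans ?_ h3
    refine hs.tsum_le_tsum (fun m => ?_) (summable_geo 1 q0 hq1)
    have : (m : ℝ) ^ 1 ≤ ((m : ℝ) + 1) ^ 1 := pow_le_pow_left₀ (by positivity) (by linarith) 1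
    exact mul_le_mul_of_nonneg_right this (by positivity)
  have t3 : D * ∑' m : ℕ, (m : ℝ) ^ 1 * q ^ m ≤ D ^ 7 := by
    calc D * ∑' m : ℕ, (m : ℝ) ^ 1 * q ^ m ≤ D * (16 * D ^ 2) :=
          mul_le_mul_of_nonneg_left t2 hD0.le
      _ = 2 ^ 4 * D ^ 3 := by ring
      _ ≤ D ^ 4 * D ^ 3 := mul_le_mul_of_nonneg_right
          (pow_le_pow_left₀ (by norm_num) hD 4) (by positivity)
      _ = _ := by ring
  calc ∑ i ∈ G.S, G.rho ^ i.1 * (((1 + η) ^ i.1 - 1) *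
        ∑ g' ∈ Icc (1 : ℤ) N, G.T i (g' - g) * (4 * (N : ℝ) ^ 2 - (g' : ℝ) ^ 2))
      ≤ ∑ i ∈ G.S, (4 * (N : ℝ) ^ 2 * η) *
          (((i.1 : ℝ) * (1 + η) ^ i.1) * (G.rho ^ i.1 * G.tot i)) := by
        refine Finset.sum_le_sum fun i _ => ?_
        have hr : 0 ≤ G.rho ^ i.1 := pow_nonneg G.rho_pos.le _
        have ht := GSum.tot_nonneg G i
        have h5 : ((1 + η) ^ i.1 - 1) *
            (∑ g' ∈ Icc (1 : ℤ) N, G.T i (g' - g) * (4 * (N : ℝ) ^ 2 - (g' : ℝ) ^ 2)) ≤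
            (η * (i.1 * (1 + η) ^ i.1)) * (4 * (N : ℝ) ^ 2 * G.tot i) := by
          refine (mul_le_mul_of_nonneg_left (s1 i) (by linarith [h1l i.1])).trans ?_
          exact mul_le_mul_of_nonneg_right (pow_sub_le h0 i.1) (by positivity)
        calc G.rho ^ i.1 * (((1 + η) ^ i.1 - 1) *
              ∑ g' ∈ Icc (1 : ℤ) N, G.T i (g' - g) * (4 * (N : ℝ) ^ 2 - (g' : ℝ) ^ 2))
            ≤ G.rho ^ i.1 * ((η * (i.1 * (1 + η) ^ i.1)) * (4 * (N : ℝ) ^ 2 * G.tot i)) :=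
              mul_le_mul_of_nonneg_left h5 hr
          _ = _ := by ring
    _ = (4 * (N : ℝ) ^ 2 * η) * ∑ i ∈ G.S,
          (((i.1 : ℝ) * (1 + η) ^ i.1) * (G.rho ^ i.1 * G.tot i)) := by rw [Finset.mul_sum]
    _ ≤ (4 * (N : ℝ) ^ 2 * η) * D ^ 7 :=
        mul_le_mul_of_nonneg_left (t1.trans t3) (by positivity)

/-- one step of the recursion, on the gaps `1..N` -/
lemma step_le (G : GapKernel) (N n : ℕ) (g : ℤ) (x : ℕ → ℤ → ℝ) (W : ℕ × ℕ → ℤ → ℝ)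
    (hW : ∀ i, ∀ g' ∈ Icc (1 : ℤ) N, 0 ≤ W i g')
    (hx : ∀ i ∈ G.S, i.1 ≤ n → ∀ g' ∈ Icc (1 : ℤ) N,
      G.rho ^ (n - i.1) * x (n - i.1) g' ≤ W i g') :
    G.rho ^ n * ∑ i ∈ G.S, (if i.1 ≤ n then
      ∑ g' ∈ Icc (1 : ℤ) N, G.K i g g' * GapKernel.wt 0 i g g' * x (n - i.1) g' else 0) ≤
    ∑ i ∈ G.S, G.rho ^ i.1 * ∑ g' ∈ Icc (1 : ℤ) N, G.T i (g' - g) * W i g' := by
  rw [Finset.mul_sum]
  refine Finset.sum_le_sum fun i hi => ?_
  have hr : 0 ≤ G.rho ^ i.1 := pow_nonneg G.rho_pos.le _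
  split_ifs with h
  · have e : G.rho ^ n = G.rho ^ i.1 * G.rho ^ (n - i.1) := by
      rw [← pow_add]
      congr 1
      omega
    rw [e, mul_assoc]
    refine mul_le_mul_of_nonneg_left ?_ hr
    rw [Finset.mul_sum]
    refine Finset.sum_le_sum fun g' hg' => ?_
    have hw : GapKernel.wt 0 i g g' = 1 := by
      unfold GapKernel.wt
      simp
    rw [hw, mul_one]
    calc G.rho ^ (n - i.1) * (G.K i g g' * x (n - i.1) g')
        = G.K i g g' * (G.rho ^ (n - i.1) * x (n - i.1) g') := by ring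
      _ ≤ G.K i g g' * W i g' := mul_le_mul_of_nonneg_left (hx i hi h g' hg') (G.K_nonneg i g g')
      _ ≤ _ := mul_le_mul_of_nonneg_right (G.K_le i g g') (hW i g' hg')
  · rw [mul_zero]
    exact mul_nonneg hr (Finset.sum_nonneg fun d hd => mul_nonneg (G.T_nonneg i _) (hW i d hd))

end LYA

open LYA in
/-- `LYA`: exponential decay of the truncated arrays. -/
theorem t_LYA : LYA_Stmt := by
  obtain ⟨K1, hK1⟩ := sum_tail 2
  obtain ⟨K2, hK2⟩ := par_bounds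
  refine ⟨K1 + 13, fun D hD G hG C0 s hs N hN U hU => ?_⟩
  have hD0 : 0 < D := by linarith
  have hD1 : 1 ≤ D := by linarith
  have hDi : 0 < D⁻¹ := inv_pos.2 hD0
  have hθ := th_pos hD
  have hsig : D⁻¹ ≤ G.sig2 := (hK2 D hD G hG).2.2.2.2.1
  have hN11 : D ^ (K1 + 11) ≤ N := (pow_le_pow_right₀ hD1 (by omega)).trans hN
  have hN1 : (1 : ℝ) ≤ N := (one_le_pow₀ hD1).trans hN
  have hN0 : (0 : ℝ) < N := by linarith
  set η : ℝ := 1 / (D ^ 12 * (N : ℝ) ^ 2) with hη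
  have hη0 : 0 < η := by positivity
  have hη4 : η ≤ D⁻¹ / 4 := by
    have e : D⁻¹ / 4 = 1 / (4 * D) := by
      field_simp
    rw [hη, e]
    refine one_div_le_one_div_of_le (by positivity) ?_
    have h1 : (2 : ℝ) ^ 2 ≤ D ^ 2 := pow_le_pow_left₀ (by norm_num) hD 2
    have h2 : D ≤ D ^ 10 := le_self_pow₀ hD1 (by norm_num)
    have h3 : (1 : ℝ) ≤ (N : ℝ) ^ 2 := one_le_pow₀ hN1
    calc 4 * D ≤ D ^ 2 * D ^ 10 := mul_le_mul (by linarith) h2 hD0.le (by positivity)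
      _ = D ^ 12 * 1 := by ring
      _ ≤ _ := mul_le_mul_of_nonneg_left h3 (by positivity)
  have hη1 : η ≤ 1 := by
    have := inv_le_half hD
    linarith
  have hb : 4 * (N : ℝ) ^ 2 * η * D ^ 7 ≤ D⁻¹ / 4 := by
    have e : 4 * (N : ℝ) ^ 2 * η * D ^ 7 = 4 / D ^ 5 := by
      rw [hη]
      field_simp
    rw [e, div_le_div_iff₀ (by positivity) (by norm_num)]
    have h1 : (2 : ℝ) ^ 4 ≤ D ^ 4 := pow_le_pow_left₀ (by norm_num) hD 4
    have e2 : D⁻¹ * D ^ 5 = D ^ 4 := by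
      field_simp
    rw [e2]
    linarith
  have hlam : 0 < 1 + η := by linarith
  -- the superharmonic function
  have key : ∀ g : ℤ, 1 ≤ g → g ≤ N → ∑ i ∈ G.S, G.rho ^ i.1 * ((1 + η) ^ i.1 *
        ∑ g' ∈ Icc (1 : ℤ) N, G.T i (g' - g) * (4 * (N : ℝ) ^ 2 - (g' : ℝ) ^ 2)) ≤
      (4 * (N : ℝ) ^ 2 - (g : ℝ) ^ 2) - D⁻¹ / 2 := by
    intro g h1 h2
    have p1 := parta hD hG (hK1 D hD G hG) hsig hN11 h1 h2
    have p2 := partb hD hG hη0.le hη4 (N := N) (g := g)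
    have e : ∑ i ∈ G.S, G.rho ^ i.1 * ((1 + η) ^ i.1 *
        ∑ g' ∈ Icc (1 : ℤ) N, G.T i (g' - g) * (4 * (N : ℝ) ^ 2 - (g' : ℝ) ^ 2)) =
        (∑ i ∈ G.S, G.rho ^ i.1 *
          ∑ g' ∈ Icc (1 : ℤ) N, G.T i (g' - g) * (4 * (N : ℝ) ^ 2 - (g' : ℝ) ^ 2)) +
        ∑ i ∈ G.S, G.rho ^ i.1 * (((1 + η) ^ i.1 - 1) *
          ∑ g' ∈ Icc (1 : ℤ) N, G.T i (g' - g) * (4 * (N : ℝ) ^ 2 - (g' : ℝ) ^ 2)) := by
      rw [← Finset.sum_add_distrib]
      refine Finset.sum_congr rfl fun i _ => ?_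
      ring
    rw [e]
    linarith
  -- the claim
  have claim : ∀ (m : ℕ) (g : ℤ), 1 ≤ g → g ≤ N → G.rho ^ m * U m g ≤
      2 * D ^ 2 * (4 * (N : ℝ) ^ 2 - (g : ℝ) ^ 2) * ((1 + η)⁻¹) ^ m := by
    intro m
    induction m using Nat.strong_induction_on with
    | _ m ih =>
      intro g h1 h2
      rw [hU.step m g h1 h2, mul_add]
      have hpos : ∀ g' ∈ Icc (1 : ℤ) N, (0 : ℝ) ≤ 4 * (N : ℝ) ^ 2 - (g' : ℝ) ^ 2 := by
        intro x hx
        rw [Finset.mem_Icc] at hx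
        have hx1 : (1 : ℝ) ≤ x := by exact_mod_cast hx.1
        have hx2 : (x : ℝ) ≤ N := by exact_mod_cast hx.2
        nlinarith
      have t1 := step_le G N m g U
        (fun i g' => 2 * D ^ 2 * (4 * (N : ℝ) ^ 2 - (g' : ℝ) ^ 2) *
          (((1 + η)⁻¹) ^ m * (1 + η) ^ i.1))
        (fun i g' hg' => by
          have := hpos g' hg'
          positivity)
        (fun i hi him g' hg' => by
          have h3 := (G.pos_mem i hi).1
          have h4 := Finset.mem_Icc.1 hg'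
          refine (ih (m - i.1) (by omega) g' h4.1 h4.2).trans (le_of_eq ?_)
          congr 1
          have e : m = (m - i.1) + i.1 := by omega
          have e2 : ((1 + η)⁻¹) ^ m = ((1 + η)⁻¹) ^ (m - i.1) * ((1 + η)⁻¹) ^ i.1 := by
            rw [← pow_add, ← e]
          rw [e2, mul_assoc, ← mul_pow, inv_mul_cancel₀ hlam.ne', one_pow, mul_one])
      have t2 : ∑ i ∈ G.S, G.rho ^ i.1 * ∑ g' ∈ Icc (1 : ℤ) N, G.T i (g' - g) *
          (2 * D ^ 2 * (4 * (N : ℝ) ^ 2 - (g' : ℝ) ^ 2) *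
            (((1 + η)⁻¹) ^ m * (1 + η) ^ i.1)) =
          2 * D ^ 2 * ((1 + η)⁻¹) ^ m * ∑ i ∈ G.S, G.rho ^ i.1 * ((1 + η) ^ i.1 *
            ∑ g' ∈ Icc (1 : ℤ) N, G.T i (g' - g) * (4 * (N : ℝ) ^ 2 - (g' : ℝ) ^ 2)) := by
        rw [Finset.mul_sum]
        refine Finset.sum_congr rfl fun i _ => ?_
        simp only [Finset.mul_sum]
        refine Finset.sum_congr rfl fun g' _ => ?_
        ring
      rw [t2] at t1
      have t3 : 2 * D ^ 2 * ((1 + η)⁻¹) ^ m * ∑ i ∈ G.S, G.rho ^ i.1 * ((1 + η) ^ i.1 *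
            ∑ g' ∈ Icc (1 : ℤ) N, G.T i (g' - g) * (4 * (N : ℝ) ^ 2 - (g' : ℝ) ^ 2)) ≤
          2 * D ^ 2 * ((1 + η)⁻¹) ^ m * ((4 * (N : ℝ) ^ 2 - (g : ℝ) ^ 2) - D⁻¹ / 2) :=
        mul_le_mul_of_nonneg_left (key g h1 h2) (by positivity)
      have t4 : G.rho ^ m * s m g ≤ D * ((1 + η)⁻¹) ^ m := by
        refine (CHB.src_le hD hs m g).trans ?_
        refine mul_le_mul_of_nonneg_left (pow_le_pow_left₀ hθ.le ?_ m) hD0.le
        rw [le_inv_comm₀ hθ hlam, inv_eq_one_div, le_div_iff₀ hθ]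
        nlinarith
      have t5 : 2 * D ^ 2 * ((1 + η)⁻¹) ^ m * ((4 * (N : ℝ) ^ 2 - (g : ℝ) ^ 2) - D⁻¹ / 2) =
          2 * D ^ 2 * (4 * (N : ℝ) ^ 2 - (g : ℝ) ^ 2) * ((1 + η)⁻¹) ^ m -
            D * ((1 + η)⁻¹) ^ m := by
        have e : D ^ 2 * D⁻¹ = D := by
          field_simp
        calc _ = 2 * D ^ 2 * (4 * (N : ℝ) ^ 2 - (g : ℝ) ^ 2) * ((1 + η)⁻¹) ^ m -
              (D ^ 2 * D⁻¹) * ((1 + η)⁻¹) ^ m := by ring
          _ = _ := by rw [e]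
      linarith
  -- closing
  intro m g
  by_cases hg : g < 1 ∨ (N : ℤ) < g
  · rw [hU.zero m g hg, mul_zero]
    positivity
  · push Not at hg
    refine (claim m g hg.1 hg.2).trans ?_
    have c1 : ((1 + η)⁻¹) ^ m ≤ Real.exp (-((m : ℝ) / (D ^ (K1 + 13) * (N : ℝ) ^ 2))) := by
      have d1 : (1 + η)⁻¹ ≤ 1 - η / 2 := by
        rw [inv_le_comm₀ hlam (by linarith), inv_eq_one_div, div_le_iff₀ (by linarith)]
        nlinarith
      have d2 : 1 - η / 2 ≤ Real.exp (-(η / 2)) := by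
        have := Real.add_one_le_exp (-(η / 2))
        linarith
      calc ((1 + η)⁻¹) ^ m ≤ Real.exp (-(η / 2)) ^ m :=
            pow_le_pow_left₀ (by positivity) (d1.trans d2) m
        _ = Real.exp (-(m * (η / 2))) := by
            rw [← Real.exp_nat_mul]
            congr 1
            ring
        _ ≤ _ := by
            apply Real.exp_le_exp.2
            apply neg_le_neg
            have d3 : (D ^ (K1 + 13) * (N : ℝ) ^ 2)⁻¹ ≤ η / 2 := by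
              have d4 : η / 2 = (2 * D ^ 12 * (N : ℝ) ^ 2)⁻¹ := by
                rw [hη]
                field_simp
              rw [d4]
              refine inv_anti₀ (by positivity) ?_
              refine mul_le_mul_of_nonneg_right ?_ (by positivity)
              calc 2 * D ^ 12 ≤ D * D ^ 12 := mul_le_mul_of_nonneg_right hD (by positivity)
                _ = D ^ 13 := by ring
                _ ≤ _ := pow_le_pow_right₀ hD1 (by omega)
            rw [div_eq_mul_inv]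
            exact mul_le_mul_of_nonneg_left d3 (by positivity)
    have c2 : 2 * D ^ 2 * (4 * (N : ℝ) ^ 2 - (g : ℝ) ^ 2) ≤ D ^ (K1 + 13) * (N : ℝ) ^ 2 := by
      have d1 : 2 * D ^ 2 * (4 * (N : ℝ) ^ 2 - (g : ℝ) ^ 2) ≤ 2 * D ^ 2 * (4 * (N : ℝ) ^ 2) := by
        refine mul_le_mul_of_nonneg_left ?_ (by positivity)
        have := sq_nonneg (g : ℝ)
        linarith
      have d2 : (8 : ℝ) * D ^ 2 ≤ D ^ (K1 + 13) := by
        calc (8 : ℝ) * D ^ 2 = 2 ^ 3 * D ^ 2 := by norm_num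
          _ ≤ D ^ 3 * D ^ 2 := mul_le_mul_of_nonneg_right
              (pow_le_pow_left₀ (by norm_num) hD 3) (by positivity)
          _ = D ^ 5 := by ring
          _ ≤ _ := pow_le_pow_right₀ hD1 (by omega)
      have d3 : 0 ≤ (N : ℝ) ^ 2 := by positivity
      nlinarith
    exact mul_le_mul c2 c1 (by positivity) (by positivity)

end Pool.Agent.PFW
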