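import Pool.Agent.PFW.MainPre
import Pool.Agent.PFW.CUT
import Pool.Agent.PFW.LYA
import Pool.Agent.PWR.Main

/-!
# Project PFW (MP_f6626d_co): the final theorem for a force acting on the span
-/

set_option autoImplicit false

namespace Pool.Agent.PFW

open Finset Pool.Agent.Lib27 Pool.Agent.SapR Pool.Agent.Gap Pool.Agent.FL Pool.Agent.EXW Filter
  Topology Pool.Agent.AreaLaw MeasureTheory

theorem m_CUT : CUT_Stmt := t_CUT m_QGRE t_PSUM t_TRN t_LYA J1

theorem m_WCS : WCS_Stmt :=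
  t_WCS (t_GVN m_QGRE m_QGSUP) t_WVL m_CUT (t_LOW PWR.m_MNP PWR.m_ARP hg) m_QGV

theorem m_DATP : DATP_Stmt := t_DATP PWR.m_QMGP mg_main mgi2 (t_KW2 hg)

/-- The area law of self-avoiding polygons under a force `f n ≥ n ^ (-c)` on the span. -/
theorem main4 : FINAL4_Stmt := m_FINAL4 m_CUT PWR.m_MNP PWR.m_ARP PWR.m_QMGP

end Pool.Agent.PFW
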