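import Pool.Agent.PFW.StmtsW
import Pool.Agent.PWR.StmtsR
import Pool.Agent.EXW.Stmts2

/-!
# Project PFW (MP_f6626d_co, polynomial force window): the lower bound of the critical solution
far from the wall, and the assembly

Idea. `V` = critical solution of the kernel of the perimeter `2 n`, `V → A`. If `A` is small then
`V` is small at all large gaps (`LimN.ptw`), so the arches of gap `1` rarely reach large gaps: the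
difference between `V` and the solution truncated at the gap `N` is at the gap `1` of order
`sup (V near N) ^ 2` by the symmetry of the kernel (TRN), and the truncated arrays decay
exponentially at the scale `N ^ 2` (LYA). So the weight `b_m` of the arches of gap `1` with `2 m`
steps is at most about `A ^ 2` (CUT). On the other hand `b_m ≥ c m ^ -9` for some `m` in every
interval `[N1, 2 N1 + 2]` (LOW, from `PWR.ARP`).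
-/

set_option autoImplicit false

namespace Pool.Agent.PFW

open Finset Pool.Agent.Lib27 Pool.Agent.SapR Pool.Agent.Gap Pool.Agent.FL Pool.Agent.EXW Filter
  Topology Pool.Agent.AreaLaw MeasureTheory
open Pool.Agent.KCS (airyMoment)
open scoped NNReal ENNReal

/-! ### The kernel -/

/-- TRN: comparison of the critical solution with the solution truncated at `N`. PROOF. `y g = V g - u g`
for `g ∈ [1, N]`, `0` outside, satisfies `VX.RS G N y r` with `r g = ∑ g' ∈ Icc (N+1) (N+R), Kc g g' V g'`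
(`V` vanishes for `g ≤ 0`, `Kc g g' = 0` for `|g' - g| > R`; `GV.sum_split` as in `EXW/GV2.lean`). `u, y ≥ 0`
(`VX.RS_nonneg`), so `u ≤ V` on `[1, N]`. Symmetry (`K_symm`): `∑ s g y g = ∑ (u - K_N u) y =
∑ u (y - K_N y) = ∑ u g r g` (sums over `[1, N]`). So `D⁻¹ y 1 ≤ s 1 y 1 ≤ ∑_{g ≤ N < g'} u g Kc g g' V g' ≤
∑_{g ≤ N < g'} V g κ(g' - g) V g'` with `κ d = VL.kk G d` (`VX.Kc_le_kk`). If `W ≤ g` then `V g V g' ≤ X^2`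
(`0 ≤ V`), otherwise `g' - g > N - W ≥ W` and `V g V g' ≤ D^2`. For `d ≥ 1` there are at most `d` pairs with
`g' - g = d`; `∑_{d ≥ 1} d κ(d) ≤ ∑_i 2 i.1 ρ^i.1 tot i ≤ D^K'` (`T_loc`, `EXW.sum_pow`), and
`∑_{d > W} d κ(d) ≤ ∑_{2 i.1 > W} 2 i.1 ρ^i.1 tot i ≤ D^K' (1 - (2D)⁻¹)^(W/2) ≤ D^K'' exp(-W/D^K'')`
(`EXW.sum_tail`). -/
def TRN_Stmt : Prop := ∃ K : ℕ, ∀ D : ℝ, 2 ≤ D → ∀ G : GapKernel, Cls D (1 - D⁻¹) G →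
  ∀ (R' : ℕ) (s V : ℤ → ℝ), CritSrc D (1 - D⁻¹) R' s → CritN D G s V →
  ∀ (N W : ℕ) (u : ℤ → ℝ) (X : ℝ), 1 ≤ N → 2 * W ≤ N → VX.RS G N u s →
    (∀ g : ℤ, (W : ℤ) ≤ g → V g ≤ X) →
    V 1 - u 1 ≤ D ^ K * (X ^ 2 + Real.exp (-((W : ℝ) / D ^ K)))

/-- LYA: exponential decay of the truncated arrays. PROOF. `Φ g = 4 N^2 - g^2` on `[1, N]`,
`λ = 1 + η`, `η = 1/(D^K' N^2)`. CLAIM `ρ^m U m g ≤ 2 D^2 Φ g λ^(-m)` for `g ∈ [1, N]`, by strong induction on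
`m`. By `step` (`wt 0 = 1`), `K ≤ T` and `U ≥ 0` (induction): `ρ^m U m g ≤ ρ^m s m g + 2 D^2 λ^(-m)
∑_i ρ^i.1 λ^i.1 ∑_{g' ∈ [1,N]} T i (g' - g) Φ g'`, and `ρ^m s m g ≤ D θ^m` (`ClsCap.dec`). For `λ = 1` in the
inner factor: `Φ g' ≤ (4 N^2 - g'^2) + (g'^2 - 4 N^2)^+` summed over all `g' = g + d`, `|d| ≤ R`:
`∑_d T i d (4 N^2 - (g+d)^2) = tot i Φ g - ∑_d d^2 T i d` (`T_even`), total `Φ g - sig2 ≤ Φ g - D⁻¹` (`crit`,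
`par_bounds`); and `(g+d)^2 > 4 N^2` forces `|d| > N`, `(g+d)^2 ≤ 4 d^2`, `2 i.1 > N`, so the rest is at most
`∑_{2 i.1 > N} 16 i.1^2 ρ^i.1 tot i ≤ D^K1 (1 - (2D)⁻¹)^(N/2) ≤ 1/(4 D)` for `N ≥ D^K`. The factor
`λ^i.1`: `λ^k - 1 ≤ η k λ^k`, `∑_i i.1 λ^i.1 ρ^i.1 tot i ≤ D^K2` (`Cls.dec`, `θ λ ≤ 1 - 1/(4D)`), so it
costs at most `4 N^2 η D^K2 ≤ 1/(8 D)`. Since `(θ λ)^m ≤ 1`: `D θ^m ≤ D λ^(-m) ≤ 2 D^2 λ^(-m) / (2 D)`.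
Finally `Φ ≤ 4 N^2` and `λ^(-m) ≤ exp(-η m / 2)`. -/
def LYA_Stmt : Prop := ∃ K : ℕ, ∀ D : ℝ, 2 ≤ D → ∀ G : GapKernel, Cls D (1 - D⁻¹) G →
  ∀ (C0 : ℕ) (s : ℕ → ℤ → ℝ), ClsCap D (1 - D⁻¹) G C0 s → ∀ N : ℕ, D ^ K ≤ N →
  ∀ U : ℕ → ℤ → ℝ, IsArr G s 0 N U → ∀ (m : ℕ) (g : ℤ),
    G.rho ^ m * U m g ≤ D ^ K * (N : ℝ) ^ 2 * Real.exp (-((m : ℝ) / (D ^ K * (N : ℝ) ^ 2)))

/-- CUT (from QGRE, PSUM, TRN, LYA and the old J1): upper bound of the weights of the arches of gap `1` by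
the limit `A`. PROOF. `N = 2 W`. `U` = truncated arrays (J1 with `eps = 0`), `u` = truncated solution
(`VX.RS G N u (GE.sr ..)`, from QGRE with `z = ρ` and `VX.RS_of_solves`, as in `EXW/GV2.lean`), `y = V - u`.
CLAIM `∑_{m ≤ M} ρ^m ((B m g).eval 1 - U m g) ≤ y g` for `g ∈ [1, N]`, by strong induction on `M`: the
difference of the recursions (evaluate `IsSol` at `1`; `K i g g' = 0` for `g' ≤ 0` or `|g' - g| > R`) is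
`δ_m g = ∑_i ρ^i.1 (∑_{g' ∈ [1,N]} K i g g' δ_{m-i.1} g' + ∑_{g' ∈ Icc (N+1) (N+R)} K i g g' ρ^(m-i.1)
(B (m-i.1) g').eval 1)`, `δ ≥ 0`, the partial sums of the last factors are at most `V g'` (PSUM), and `y`
solves the equation with `Kc` and `V`. So `ρ^m (B m 1).eval 1 ≤ ρ^m U m 1 + (V 1 - u 1)`. TRN with the class
parameter `D^3` (`GE.critSrc_sr` as in `EXW/QCA.lean`, `cls_mono`, `CritN.mono`) and
`X = D^K1 (A + exp(-W/D^K1))`, `X^2 ≤ 2 D^(2K1) (A^2 + exp(-W/D^K1))`; LYA. -/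
def CUT_Stmt : Prop := ∀ K1 : ℕ, ∃ K : ℕ, ∀ D : ℝ, 2 ≤ D → ∀ G : GapKernel,
  Cls D (1 - D⁻¹) G → ∀ (C0 : ℕ) (s : ℕ → ℤ → ℝ) (B : ℕ → ℤ → Polynomial ℝ) (V : ℤ → ℝ) (A : ℝ),
  ClsCap D (1 - D⁻¹) G C0 s → IsSol G s B → CritN D G (GE.sr G.rho C0 s) V → LimN K1 D V A →
  ∀ W m : ℕ, D ^ K ≤ W → G.rho ^ m * (B m 1).eval 1 ≤
    D ^ K * (A ^ 2 + (W : ℝ) ^ 2 * Real.exp (-((W : ℝ) / D ^ K)) +
      (W : ℝ) ^ 2 * Real.exp (-((m : ℝ) / (D ^ K * (W : ℝ) ^ 2))))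

/-! ### The lower bound of the limit, and the assembly -/

/-- LOW (from `PWR.MNP`, `PWR.ARP`, HG): arches of gap `1` at the critical weight of the perimeter `2 n`.
PROOF. `x` from MNP, `Crit x (exp(-f/2))`. (1) `x^2 ≤ ρ s`, `s = exp(-f)`: the pieces of `Pc (2n-1)` are free
pieces, their length is `2 hl` and `htn ≤ hl` (HG, `H66.k5size`), so
`ρ^hl s^(hl - htn) = (ρ s)^hl e^(f htn)`; if `ρ s < x^2` then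
`1 = ∑_{Pc} (ρ s)^hl e^(f htn) < ∑_{Pc} x^(2 hl) e^(f htn) ≤ 1` (the sum of MNP in `ℝ≥0∞` restricted to a
finite set; `Pc` is not empty as its sum is `1`). (2) ARP with `N = N1`: `k`; `m = k + 2`. The arches `a` of
gap `1` in `words (2 k + 4)` are all in `ArchSet (2n-1) 1 (2 m)`: `ArchRuns` holds since there are only
`2 k + 5 ≤ 4 N1 + 5 ≤ 2 n - 1` vertices. `ρ^m s^(m - hgt a) = (ρ s)^m e^(f hgt a) ≥ x^(2 m) e^(f hgt a)` (`2 hgt ≤ 2 m`: HG).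
`k^5 ≤ 32 N1^5 ≤ 32 N1^9`, and `32 Mp A f ≤ Mp A' f` for a suitable `A'` (also for the threshold). -/
def LOW_Stmt : Prop := ∃ A : ℕ, 2 ≤ A ∧ ∀ f : ℝ, 0 < f → f ≤ 1 → ∀ (n N1 : ℕ) (rho : ℝ),
  Mp A f ≤ N1 → 2 * N1 + 3 ≤ n → 0 < rho →
  ∑ p ∈ Pc (2 * n - 1), rho ^ hl p * Real.exp (-f) ^ (hl p - htn p) = 1 →
  ∃ m : ℕ, N1 ≤ m ∧ m ≤ 2 * N1 + 2 ∧ (Mp A f)⁻¹ / (N1 : ℝ) ^ 9 ≤
    rho ^ m * ∑ w ∈ ArchSet (2 * n - 1) 1 (2 * m), Real.exp (-f) ^ (m - hgt w)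

/-- WCS (from GVN, WVL, CUT, LOW and QGV): critical solutions with a limit which is bounded below.
PROOF. `D = Mp A f`. Case `f > 1`: `D = A^A` is a constant, QGV (with `GE.critSrc_sr` as in
`EXW/QCA.lean`) gives `CritSol (exp (D^3)^K')`, `critW_of_critSol`, `CritW.mono`, `K` depends on `A`.
Case `f ≤ 1`: `V` from GVN for the class parameter `D^3` (`GE.critSrc_sr`), so with `D1 = D^(3 Kg + 3)`:
`Cls D1`, `ClsCap D1`, `CritSrc D1`, `CritN D1`; WVL: `LimN K1 D1 V A'`; CUT with `K1`: exponent `K`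
(put `K ≥ 1`). Let `W = ⌈D1^(K+1)⌉`, `N1 = ⌈D1^(3K+4)⌉`, so `W ≤ 2 D1^(K+1)`, `N1 ≤ 2 D1^(3K+4)`, and for
`m ≥ N1`: `W/D1^K ≥ D1`, `m/(D1^K W^2) ≥ D1/4`. LOW (the equation of `crit`, `Mp A1 f ≤ D ≤ N1` if
`A ≥ A1`; `2 N1 + 3 ≤ n` from `Mp A f ^ K ≤ n`) and `ArEq` (gap `1`): `D1⁻¹ N1^(-9) ≤ D1^K (A'^2 +
2 W^2 exp(-D1/4))`. For `D1 ≥ D0` (absolute, since `D1^p exp(-D1/4) → 0`; `D1 ≥ A ≥ D0`) the second term is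
at most half of the left side, so `A'^2 ≥ D1^(-P)`, `A' ≥ D1^(-P)`. `far`: `V g → A'` along large `g`
(`LimN.sum`, each term is at most `D1^K1`), so `V g ≥ A'/2 ≥ D1^(-P-1)` for large `g`. -/
def WCS_Stmt : Prop := ∃ A0 : ℕ, 2 ≤ A0 ∧ ∀ A : ℕ, A0 ≤ A → ∃ K : ℕ, ∀ (n : ℕ) (f : ℝ), 0 < f →
  Mp A f ^ K ≤ n → ∀ d : Dat2 (Mp A f) (1 - (Mp A f)⁻¹) n (Real.exp (-f)), ∃ V : ℤ → ℝ,
    CritW (Mp A f ^ K) d.G (GE.sr d.G.rho (2 * n) (capW n (Real.exp (-f)))) V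

/-- DATP (from `PWR.QMGP`, the old MG, MGI2 and KW2): the text of `EXW/DAT2.lean` with `Mp`; for every
larger `A` (`QDAT.tails_mono`, `Mp_mono`). -/
def DATP_Stmt : Prop := ∃ A0 : ℕ, 2 ≤ A0 ∧ ∃ N0 : ℕ, 2 ≤ N0 ∧ ∀ A : ℕ, A0 ≤ A →
  ∀ (n : ℕ) (f : ℝ), N0 ≤ n → 0 < f → Mp A f ≤ n →
    Nonempty (Dat2 (Mp A f) (1 - (Mp A f)⁻¹) n (Real.exp (-f)))

/-- WMOD (from QNEAR, PDIF): the sequence of models (text of `EXW.t_MOD3`). -/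
def WMOD_Stmt : Prop := ∃ (Kn : ℕ) (Kp : ℕ → ℕ), ∀ (M D f : ℕ → ℝ) (N0 : ℕ), 2 ≤ N0 →
  (∀ n, 2 ≤ M n) → (∀ n, M n ≤ D n) → (∀ n, 0 < f n) →
  ∀ (d : ∀ n, Dat (M n) (1 - (M n)⁻¹) (mx N0 n) (Real.exp (-f n))) (V : ℕ → ℤ → ℝ),
    (∀ n, CritW (D n) (d n).G
      (GE.sr (d n).G.rho (2 * mx N0 n) (capW (mx N0 n) (Real.exp (-f n)))) (V n)) →
  ∃ Q : WModel D, (∀ n x, Q.cdf n x = cdfO (mx N0 n) (Real.exp (-f n)) x) ∧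
    (∀ n r, Q.mom n r = momO (mx N0 n) (Real.exp (-f n)) r) ∧
    (∀ j : ℕ, Tendsto (fun n : ℕ => kap0 (M n ^ Kn) (M n) (1 - (M n)⁻¹) n * D n ^ j)
      atTop (𝓝 0) → Q.Kap j) ∧
    (∀ p, Q.Near (Kp p) p) ∧
    ((∀ i j : ℕ, Tendsto (fun n : ℕ => (n : ℝ) ^ i * D n ^ j * (1 - (M n)⁻¹) ^ n)
      atTop (𝓝 0)) → ∀ p, Q.Bad p)

/-- SLOW4: sequences (pure analysis). PROOF. `M n = Mp A (f n) = (A / min (f n) 1)^A ≤ A^A n^(c A)` (`c > 0`,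
`n ≥ 1`, `n^(-c) ≤ f n`, `n^(-c) ≤ 1`). Take `c` with `c A (K Kw + Kn + K + 2) ≤ 1/8`: then
`M n ^ (K Kw + Kn + K + 1) ≤ C n^(1/8)`. (1) `C n^(1/8) ≤ n` eventually. (2) clear. (3) `kap0 (M^Kn) M (1 - M⁻¹) n =
M^Kn log n/√n + M^Kn/n^5 + 2 M n^4 (1 - M⁻¹)^n`, the last factor is at most `exp(-n/M) ≤ exp(-√n)`
eventually. (4) `D n ^ j ≤ n^j` eventually and `n^(i+j) exp(-√n) → 0`. -/
def SLOW4_Stmt : Prop := ∀ A K Kw Kn : ℕ, 2 ≤ A → ∃ c : ℝ, 0 < c ∧ ∀ f : ℕ → ℝ,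
  (∀ᶠ n : ℕ in atTop, (n : ℝ) ^ (-c) ≤ f n) →
    (∀ᶠ n : ℕ in atTop, 0 < f n ∧ Mp A (f n) ^ K ≤ n) ∧
    Tendsto (fun n : ℕ => (Mp A (f n) ^ K) ^ Kw / (n : ℝ)) atTop (𝓝 0) ∧
    Tendsto (fun n : ℕ => kap0 (Mp A (f n) ^ Kn) (Mp A (f n)) (1 - (Mp A (f n))⁻¹) n *
      (Mp A (f n) ^ K) ^ Kw) atTop (𝓝 0) ∧
    ∀ i j : ℕ, Tendsto (fun n : ℕ => (n : ℝ) ^ i * (Mp A (f n) ^ K) ^ j *
      (1 - (Mp A (f n))⁻¹) ^ n) atTop (𝓝 0)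

/-- the final theorem: polynomial window -/
def FINAL4_Stmt : Prop := ∃ μ : Measure ℝ, IsProbabilityMeasure μ ∧
  (∀ r : ℕ, Integrable (fun x : ℝ => x ^ r) μ ∧ ∫ x, x ^ r ∂μ = airyMoment r) ∧
  (∀ x : ℝ, μ {x} = 0 →
    Tendsto (fun n : ℕ => areaCdf n (Staircase n) x) atTop (𝓝 (μ (Set.Iic x)).toReal)) ∧
  ∃ c : ℕ → ℝ, (∀ r, 0 < c r) ∧ ∀ f : ℕ → ℝ,
    ((∀ᶠ n : ℕ in atTop, (n : ℝ) ^ (-c 0) ≤ f n) → ∀ x : ℝ, μ {x} = 0 →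
      Tendsto (fun n : ℕ => forceCdf (f n) n x) atTop (𝓝 (μ (Set.Iic x)).toReal)) ∧
    ∀ r : ℕ, (∀ᶠ n : ℕ in atTop, (n : ℝ) ^ (-c r) ≤ f n) →
      Tendsto (fun n : ℕ => forceMoment (f n) n r) atTop (𝓝 (airyMoment r))

end Pool.Agent.PFW
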