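import Pool.Agent.PFW.StmtsC
import Pool.Agent.EXW.FINAL2

/-!
# Project PFW, module FINAL4: the final theorem from the modules
-/

set_option autoImplicit false

namespace Pool.Agent.PFW

open Finset Pool.Agent.Lib27 Pool.Agent.SapR Pool.Agent.Gap Pool.Agent.FL Pool.Agent.EXW Filter
  Topology Pool.Agent.AreaLaw MeasureTheory
open Pool.Agent.KCS (airyMoment)
open scoped NNReal ENNReal

namespace FINAL4

theorem near_mono {D : ℕ → ℝ} (hD : ∀ n, 1 ≤ D n) (M : WModel D) {K K' p : ℕ} (h : K ≤ K')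
    (hM : M.Near K p) : M.Near K' p := by
  unfold WModel.Near at *
  filter_upwards [hM, eventually_ge_atTop 1] with n h1 h2
  refine h1.trans ?_
  have h3 : D n ^ K ≤ D n ^ K' := pow_le_pow_right₀ (hD n) h
  have h4 : 0 < D n := by linarith [hD n]
  have h5 : (0 : ℝ) ≤ Real.log n := Real.log_nonneg (by exact_mod_cast h2)
  have h6 : 0 ≤ ∑ x ∈ M.good n, M.wt n x := Finset.sum_nonneg fun x _ => M.wt_nonneg n x
  have h7 : 0 ≤ M.c n / ((n : ℝ) ^ 2 * (M.G n).rho ^ n) := by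
    have := (M.c_pos n).le
    have := (M.G n).rho_pos
    positivity
  have h8 : (D n ^ K * n * Real.log n) ^ p ≤ (D n ^ K' * n * Real.log n) ^ p := by
    refine pow_le_pow_left₀ (by positivity) ?_ p
    gcongr
  exact add_le_add (mul_le_mul_of_nonneg_right h8 h6) (mul_le_mul_of_nonneg_right h3 h7)

end FINAL4

/-- FINAL4 -/
theorem t_FINAL4 (hFIN : WFIN_Stmt) (hDAT : DATP_Stmt) (hWCS : WCS_Stmt) (hSLOW : SLOW4_Stmt)
    (hMOD : WMOD_Stmt) (hWMK : WMK_Stmt) (hTRM : TRM_Stmt)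
    (hIDN : KCS.IDN_Stmt) (hHG : HG_Stmt) (hTR : TR_Stmt) : FINAL4_Stmt := by
  obtain ⟨μ, hμ, hold, Kf, hnew⟩ := hFIN
  obtain ⟨A1, hA1, N1, hN1, hD⟩ := hDAT
  obtain ⟨A2, hA2, hC⟩ := hWCS
  obtain ⟨A, hAdef⟩ : ∃ A : ℕ, A = max A1 A2 := ⟨_, rfl⟩
  have hAA1 : A1 ≤ A := by omega
  have hAA2 : A2 ≤ A := by omega
  have hA : 2 ≤ A := by omega
  obtain ⟨K, hK⟩ := hC A hAA2
  obtain ⟨Kn, Kp, hM⟩ := hMOD
  obtain ⟨K', hK'⟩ : ∃ K' : ℕ, K' = K + 1 := ⟨_, rfl⟩
  -- the models for a given exponent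
  have key : ∀ Kw : ℕ, ∃ c : ℝ, 0 < c ∧ ∀ f : ℕ → ℝ, (∀ᶠ n : ℕ in atTop, (n : ℝ) ^ (-c) ≤ f n) →
      ∃ (D : ℕ → ℝ) (Q : WModel D), SlowK Kw D ∧ Q.Kap Kw ∧ (∀ p, Q.Near (Kp p) p) ∧
        (∀ p, Q.Bad p) ∧
        (∀ᶠ n : ℕ in atTop, ∀ x, Q.cdf n x = forceCdf (f n) n x) ∧
        ∀ᶠ n : ℕ in atTop, ∀ r, Q.mom n r = forceMoment (f n) n r := by
    intro Kw
    obtain ⟨c, hc, hS⟩ := hSLOW A K' Kw Kn hA
    refine ⟨c, hc, fun f hf => ?_⟩
    obtain ⟨h1, h2, h3, h4⟩ := hS f hf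
    obtain ⟨N2, hN2⟩ := eventually_atTop.1 h1
    set N0 : ℕ := max N1 N2 with hN0
    have hN0' : 2 ≤ N0 := hN1.trans (le_max_left _ _)
    have hN01 : N1 ≤ N0 := le_max_left _ _
    have hN02 : N2 ≤ N0 := le_max_right _ _
    have hmx : ∀ n, N0 ≤ mx N0 n := fun n => le_max_right _ _
    set f' : ℕ → ℝ := fun n => f (mx N0 n) with hf'
    have hf'pos : ∀ n, 0 < f' n := fun n => (hN2 (mx N0 n) (hN02.trans (hmx n))).1
    set M : ℕ → ℝ := fun n => Mp A (f' n) with hMdef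
    have hM2 : ∀ n, 2 ≤ M n := fun n => two_le_Mp hA (hf'pos n)
    have hM1 : ∀ n, 1 ≤ M n := fun n => by linarith [hM2 n]
    set D : ℕ → ℝ := fun n => M n ^ K' with hDdef
    have hMD : ∀ n, M n ≤ D n := fun n => le_self_pow₀ (hM1 n) (by omega)
    have hev : ∀ᶠ n : ℕ in atTop, f' n = f n := by
      filter_upwards [eventually_ge_atTop N0] with n hn
      simp only [hf', mx_eq N0 n hn]
    have hslow : SlowK Kw D := by
      refine ⟨fun n => (hM2 n).trans (hMD n), ?_⟩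
      refine h2.congr' ?_
      filter_upwards [hev] with n hn
      simp only [hDdef, hMdef, hn]
    have hbig : ∀ n, M n ^ K' ≤ (mx N0 n : ℕ) := fun n =>
      (hN2 (mx N0 n) (hN02.trans (hmx n))).2
    have hdat : ∀ n, Nonempty (Dat2 (M n) (1 - (M n)⁻¹) (mx N0 n) (Real.exp (-f' n))) :=
      fun n => hD A hAA1 (mx N0 n) (f' n) (hN01.trans (hmx n)) (hf'pos n)
        ((hMD n).trans (hbig n))
    obtain ⟨d⟩ : Nonempty (∀ n, Dat2 (M n) (1 - (M n)⁻¹) (mx N0 n) (Real.exp (-f' n))) :=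
      ⟨fun n => (hdat n).some⟩
    have hcrit : ∀ n, ∃ V : ℤ → ℝ, CritW (M n ^ K) (d n).G
        (GE.sr (d n).G.rho (2 * mx N0 n) (capW (mx N0 n) (Real.exp (-f' n)))) V :=
      fun n => hK (mx N0 n) (f' n) (hf'pos n)
        (le_trans (pow_le_pow_right₀ (hM1 n) (by omega)) (hbig n)) (d n)
    choose V hV using hcrit
    obtain ⟨Q, hQ, hQm, hQk, hQn, hQb⟩ := hM M D f' N0 hN0' hM2 hMD hf'pos
      (fun n => (d n).toDat) V (fun n => by
        have hpos : 0 < M n ^ K := pow_pos (by linarith [hM1 n]) K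
        exact (hV n).mono hpos (pow_le_pow_right₀ (hM1 n) (by omega)))
    refine ⟨D, Q, hslow, hQk Kw ?_, hQn, hQb fun i j => ?_, ?_, ?_⟩
    · refine h3.congr' ?_
      filter_upwards [hev] with n hn
      simp only [hDdef, hMdef, hn]
    · refine (h4 i j).congr' ?_
      filter_upwards [hev] with n hn
      simp only [hDdef, hMdef, hn]
    · filter_upwards [eventually_ge_atTop N0, hev] with n hn hn' x
      rw [hQ, mx_eq N0 n hn, hn', forceCdf_eq hHG hTR n (by omega)]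
    · filter_upwards [eventually_ge_atTop N0, hev] with n hn hn' r
      rw [hQm, mx_eq N0 n hn, hn', hTRM n (f n) r (by omega)]
  refine ⟨μ, hμ, hIDN μ hμ hold, ?_, ?_⟩
  · intro x hx
    have key : Tendsto (fun n : ℕ => areaCdf n (Short 1 n) x) atTop (𝓝 (μ (Set.Iic x)).toReal) := by
      refine (hold (M41.mdl 1 le_rfl) x hx).congr' ?_
      filter_upwards [eventually_gt_atTop 1] with n hn
      exact (M41.short_cdf 1 le_rfl n (by omega) x).symm
    refine key.congr' ?_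
    filter_upwards [eventually_ge_atTop 2] with n hn
    exact (M41.stair_cdf n hn x).symm
  · -- the exponents
    have hr : ∀ r : ℕ, ∃ c : ℝ, 0 < c ∧ ∀ f : ℕ → ℝ,
        (∀ᶠ n : ℕ in atTop, (n : ℝ) ^ (-c) ≤ f n) →
        Tendsto (fun n : ℕ => forceMoment (f n) n r) atTop (𝓝 (airyMoment r)) := by
      intro r
      obtain ⟨Kq, hKq⟩ : ∃ Kq : ℕ, ∀ p ≤ r + 2, Kp p ≤ Kq := by
        refine ⟨(Finset.range (r + 3)).sup Kp, fun p hp => ?_⟩
        exact Finset.le_sup (f := Kp) (Finset.mem_range.2 (by omega))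
      obtain ⟨Kw, hW⟩ := hWMK r Kq
      obtain ⟨c, hc, hc'⟩ := key Kw
      refine ⟨c, hc, fun f hf => ?_⟩
      obtain ⟨D, Q, hD', -, hn', hb', -, hm'⟩ := hc' f hf
      have hD1 : ∀ n, 1 ≤ D n := fun n => by linarith [hD'.two_le n]
      refine (hW D hD' Q (fun p hp => FINAL4.near_mono hD1 Q (hKq p hp) (hn' p))
        fun p _ => hb' p).congr' ?_
      filter_upwards [hm'] with n hn
      exact hn r
    obtain ⟨cl, hcl, hlaw⟩ := key Kf
    choose cm hcm hmom using hr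
    have hmono : ∀ (a b : ℝ) (f : ℕ → ℝ), a ≤ b → (∀ᶠ n : ℕ in atTop, (n : ℝ) ^ (-a) ≤ f n) →
        ∀ᶠ n : ℕ in atTop, (n : ℝ) ^ (-b) ≤ f n := by
      intro a b f hab hf
      filter_upwards [hf, eventually_ge_atTop 1] with n h1 h2
      have h3 : (1 : ℝ) ≤ n := by exact_mod_cast h2
      exact (Real.rpow_le_rpow_of_exponent_le h3 (by linarith)).trans h1
    refine ⟨fun r => min cl (cm r), fun r => lt_min hcl (hcm r), fun f => ⟨fun hf x hx => ?_,
      fun r hf => hmom r f (hmono _ _ f (min_le_right _ _) hf)⟩⟩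
    obtain ⟨D, Q, hD', hk', -, -, hcdf, -⟩ := hlaw f (hmono _ _ f (min_le_left _ _) hf)
    refine (hnew D hD' Q hk' x hx).congr' ?_
    filter_upwards [hcdf] with n hn
    exact hn x

end Pool.Agent.PFW
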