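import Pool.Agent.PFW.StmtsC
import Pool.Agent.EXW.GV2

/-!
# Module GVN (MP_f6626d_co, project PFW): existence of the critical solution

The text of the first half of `EXW.t_GV2`: `EXW.GV2.core` with the polynomial bounds.
-/

set_option autoImplicit false

open Finset Filter Topology

namespace Pool.Agent.PFW

open Pool.Agent.Gap Pool.Agent.FL Pool.Agent.EXW

/-- Module GVN. -/
theorem t_GVN (h1 : Pool.Agent.EXW.QGRE_Stmt) (h2 : Pool.Agent.EXW.QGSUP_Stmt) : GVN_Stmt := by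
  obtain ⟨K0, hRE⟩ := h1
  obtain ⟨K1, hSUP⟩ := h2
  have hS : PB fun D => ∑' n : ℕ, (n : ℝ) ^ 1 * (1 - D⁻¹) ^ n :=
    PB.geo' 1 (fun D hD => (th_pos hD).le) LB.inv_self fun D _ => le_rfl
  have hB : PB fun D => D ^ K1 * (D * ∑' n : ℕ, (n : ℝ) ^ 1 * (1 - D⁻¹) ^ n)
      + D ^ K1 * (D * ∑' n : ℕ, (n : ℝ) ^ 1 * (1 - D⁻¹) ^ n) ^ 2 + 1 :=
    (((PB.pow_self K1).mul (PB.id.mul hS)).add
      ((PB.pow_self K1).mul ((PB.id.mul hS).pow 2))).add (PB.const 1)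
  obtain ⟨K3, hK3⟩ := hB.le
  refine ⟨K3, fun D hD G hG R' s hs => ?_⟩
  have hD0 : (0 : ℝ) < D := by linarith
  have hz : ‖(G.rho : ℂ)‖ ≤ G.rho := by
    rw [Complex.norm_real, Real.norm_of_nonneg G.rho_pos.le]
  obtain ⟨v, hv0, hvn, hvu, hve, hveq⟩ := GV2.core hD0 (th_pos hD) (th_lt hD) (C1 := D ^ K1)
    (by positivity) G (fun N e => (hRE D hD G hG N 0 (G.rho : ℂ) le_rfl hz).1 e)
    (fun N v e hve => hSUP D hD G hG N 0 (G.rho : ℂ) v e le_rfl hz hve) R' s hs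
  have hS0 : 0 ≤ ∑' n : ℕ, (n : ℝ) ^ 1 * (1 - D⁻¹) ^ n := by
    have := th_pos hD
    exact tsum_nonneg fun n => by positivity
  have hKD := hK3 D hD
  have hp1 : 0 ≤ D ^ K1 * (D * ∑' n : ℕ, (n : ℝ) ^ 1 * (1 - D⁻¹) ^ n) := by positivity
  have hp2 : 0 ≤ D ^ K1 * (D * ∑' n : ℕ, (n : ℝ) ^ 1 * (1 - D⁻¹) ^ n) ^ 2 := by positivity
  exact ⟨v, hv0, hvn, fun g => (hvu g).trans (by linarith), fun N => (hve N).trans (by linarith),
    hveq⟩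

end Pool.Agent.PFW
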