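import Pool.Agent.PFW.StmtsC
import Pool.Agent.Lib_helper12.FL.MGI2

/-!
# Project PFW, module LOW: lower bound of the weight of the arches of gap one
-/

set_option autoImplicit false

namespace Pool.Agent.PFW

open Finset Pool.Agent.Lib27 Pool.Agent.SapR Pool.Agent.Gap Pool.Agent.FL Pool.Agent.EXW Filter
  Topology
open scoped NNReal ENNReal

namespace LOW

/-- the critical point of the full series is below the critical weight of the truncated one -/
lemma x_le (x : ℝ≥0) (f rho : ℝ) (hr : 0 < rho) (r : ℕ)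
    (hone : ∑' p : {p : Wd × Wd | FreePiece p.1 p.2}, (x : ℝ≥0∞) ^ ((p : Wd × Wd).1.length +
      (p : Wd × Wd).2.length) * (((Real.exp (-f)).toNNReal⁻¹ : ℝ≥0) : ℝ≥0∞) ^ htn p = 1)
    (hHG : ∀ p : Wd × Wd, p ∈ Pc r → htn p ≤ hl p)
    (hF : ∑ p ∈ Pc r, rho ^ hl p * Real.exp (-f) ^ (hl p - htn p) = 1) :
    (x : ℝ) ^ 2 ≤ rho * Real.exp (-f) := by
  classical
  by_contra hc
  push Not at hc
  obtain ⟨s, hs⟩ : ∃ s : ℝ, s = Real.exp (-f) := ⟨_, rfl⟩
  have hs0 : 0 < s := by rw [hs]; exact Real.exp_pos _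
  rw [← hs] at hc hF
  have hsn : ((Real.exp (-f)).toNNReal : ℝ) = s := by
    rw [hs]
    exact Real.coe_toNNReal _ (Real.exp_pos _).le
  -- the real weights
  set F : Wd × Wd → ℝ := fun p => (x : ℝ) ^ (p.1.length + p.2.length) * (s⁻¹) ^ htn p with hFd
  have hfree : ∀ p ∈ Pc r, FreePiece p.1 p.2 := fun p hp => ((mem_Pc r p).1 hp).1
  -- the finite sum of the weights is at most one
  have h1 : ∑ p ∈ Pc r, F p ≤ 1 := by
    have e1 : ∀ p : Wd × Wd, (x : ℝ≥0∞) ^ (p.1.length + p.2.length) *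
        (((Real.exp (-f)).toNNReal⁻¹ : ℝ≥0) : ℝ≥0∞) ^ htn p = ENNReal.ofReal (F p) := by
      intro p
      have e2 : F p = ((x ^ (p.1.length + p.2.length) *
          ((Real.exp (-f)).toNNReal⁻¹) ^ htn p : ℝ≥0) : ℝ) := by
        rw [hFd]
        push_cast
        rw [hsn]
      rw [e2, ENNReal.ofReal_coe_nnreal]
      push_cast
      rfl
    have e3 : ∑ p ∈ Pc r, ENNReal.ofReal (F p) ≤ 1 := by
      rw [← hone]
      have e4 : ∑' p : {p : Wd × Wd | FreePiece p.1 p.2}, (x : ℝ≥0∞) ^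
          ((p : Wd × Wd).1.length + (p : Wd × Wd).2.length) *
          (((Real.exp (-f)).toNNReal⁻¹ : ℝ≥0) : ℝ≥0∞) ^ htn p =
          ∑' p : Wd × Wd, Set.indicator {p : Wd × Wd | FreePiece p.1 p.2}
            (fun p => ENNReal.ofReal (F p)) p := by
        rw [← _root_.tsum_subtype]
        exact tsum_congr fun p => e1 p
      rw [e4]
      refine le_trans (le_of_eq ?_) (ENNReal.sum_le_tsum (Pc r))
      refine sum_congr rfl fun p hp => ?_
      rw [Set.indicator_of_mem (show p ∈ {p : Wd × Wd | FreePiece p.1 p.2} from hfree p hp)]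
    have hF0 : ∀ p ∈ Pc r, 0 ≤ F p := fun p _ => by rw [hFd]; positivity
    rw [← ENNReal.ofReal_sum_of_nonneg hF0] at e3
    exact ENNReal.ofReal_le_one.1 e3
  -- and it is larger than the sum for rho
  have hne : (Pc r).Nonempty := by
    rw [Finset.nonempty_iff_ne_empty]
    intro h
    rw [h, sum_empty] at hF
    exact zero_ne_one hF
  have h2 : ∑ p ∈ Pc r, rho ^ hl p * s ^ (hl p - htn p) < ∑ p ∈ Pc r, F p := by
    refine sum_lt_sum_of_nonempty hne fun p hp => ?_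
    have hle := hHG p hp
    have hpos := FL.hl_pos (hfree p hp)
    have e1 : rho ^ hl p * s ^ (hl p - htn p) = (rho * s) ^ hl p * (s⁻¹) ^ htn p := by
      have e2 : s ^ hl p = s ^ (hl p - htn p) * s ^ htn p := by
        rw [← pow_add]
        congr 1
        omega
      rw [mul_pow, e2, inv_pow]
      field_simp
    have e3 : F p = ((x : ℝ) ^ 2) ^ hl p * (s⁻¹) ^ htn p := by
      rw [hFd]
      beta_reduce
      rw [FL.hl_eq (hfree p hp), pow_mul]
    rw [e1, e3]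
    exact mul_lt_mul_of_pos_right (pow_lt_pow_left₀ hc (by positivity) (by omega)) (by positivity)
  linarith

lemma Mp_eq (A : ℕ) {f : ℝ} (hf1 : f ≤ 1) : Mp A f = PWR.Mp A f := by
  unfold Mp PWR.Mp
  rw [min_eq_left hf1]

lemma Mp_big (A : ℕ) {f : ℝ} (hA : 1 ≤ A) (hf : 0 < f) (hf1 : f ≤ 1) :
    32 * PWR.Mp A f ≤ Mp (A + 32) f := by
  rw [Mp_eq _ hf1]
  unfold PWR.Mp
  have hA1 : (1 : ℝ) ≤ A := by exact_mod_cast hA
  have h1 : (A : ℝ) / f ≤ ((A + 32 : ℕ) : ℝ) / f :=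
    div_le_div_of_nonneg_right (by push_cast; linarith) hf.le
  have h2 : (32 : ℝ) ≤ ((A + 32 : ℕ) : ℝ) / f := by
    rw [le_div_iff₀ hf]
    push_cast
    nlinarith
  rw [pow_add, mul_comm]
  refine mul_le_mul (pow_le_pow_left₀ (by positivity) h1 A) ?_ (by norm_num) (by positivity)
  calc (32 : ℝ) ≤ ((A + 32 : ℕ) : ℝ) / f := h2
    _ = (((A + 32 : ℕ) : ℝ) / f) ^ 1 := (pow_one _).symm
    _ ≤ _ := pow_le_pow_right₀ (by linarith) (by norm_num)

/-- short arches satisfy the run condition -/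
lemma mem_archSet {r k : ℕ} (w : List (Fin 4)) (hk : k + 1 ≤ r) (hw : w ∈ words k)
    (ha : Arch 1 w) : w ∈ ArchSet r 1 k := by
  classical
  unfold ArchSet
  rw [mem_filter]
  refine ⟨hw, ha, ?_⟩
  intro a b _ _
  unfold cntI
  refine (List.countP_le_length).trans ?_
  rw [vt_length, (mem_words k w).1 hw]
  exact hk

end LOW

/-- **LOW**: arches of gap `1` at the critical weight of the perimeter `2 n`. -/
theorem t_LOW (h1 : PWR.MNP_Stmt) (h2 : PWR.ARP_Stmt) (h3 : HG_Stmt) : LOW_Stmt := by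
  classical
  obtain ⟨A1, hA1, h1⟩ := h1
  obtain ⟨A2, hA2, h2⟩ := h2
  obtain ⟨-, hArch, hPc⟩ := h3
  refine ⟨A2 + 32, by omega, ?_⟩
  intro f hf hf1 n N1 rho hN hn hr hF
  obtain ⟨x, e, C0, hx, hcrit, -, -, -, hone, -⟩ := h1 f hf hf1
  have hbig := LOW.Mp_big A2 hA2 hf hf1
  have hM2 : 0 < PWR.Mp A2 f := by
    unfold PWR.Mp
    have : (0 : ℝ) < A2 := by exact_mod_cast hA2
    positivity
  have hx2 : (x : ℝ) ^ 2 ≤ rho * Real.exp (-f) :=
    LOW.x_le x f rho hr (2 * n - 1) hone (fun p hp => (hPc _ p hp).2) hF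
  obtain ⟨k, hk1, hk2, hk⟩ := h2 x f hf hf1 hcrit N1 (by linarith)
  have hN1 : 1 ≤ N1 := by
    have : (0 : ℝ) < N1 := by linarith
    exact_mod_cast this
  refine ⟨k + 2, by omega, by omega, ?_⟩
  -- the constants
  have hc : (Mp (A2 + 32) f)⁻¹ / (N1 : ℝ) ^ 9 ≤ (PWR.Mp A2 f)⁻¹ / (k : ℝ) ^ 5 := by
    have hN1' : (1 : ℝ) ≤ N1 := by exact_mod_cast hN1
    have hkR : (k : ℝ) ≤ 2 * N1 := by exact_mod_cast hk2
    have hk0 : (0 : ℝ) < k := by
      have : 1 ≤ k := by omega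
      exact_mod_cast this
    have e1 : (k : ℝ) ^ 5 ≤ 32 * (N1 : ℝ) ^ 9 := by
      calc (k : ℝ) ^ 5 ≤ (2 * N1) ^ 5 := pow_le_pow_left₀ hk0.le hkR 5
        _ = 32 * (N1 : ℝ) ^ 5 := by ring
        _ ≤ 32 * (N1 : ℝ) ^ 9 :=
          mul_le_mul_of_nonneg_left (pow_le_pow_right₀ hN1' (by norm_num)) (by norm_num)
    have hM3 : 0 < Mp (A2 + 32) f := by linarith
    rw [← one_div, ← one_div, div_div, div_div, div_le_div_iff₀ (by positivity) (by positivity),
      one_mul, one_mul]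
    calc PWR.Mp A2 f * (k : ℝ) ^ 5 ≤ PWR.Mp A2 f * (32 * (N1 : ℝ) ^ 9) :=
          mul_le_mul_of_nonneg_left e1 hM2.le
      _ = (32 * PWR.Mp A2 f) * (N1 : ℝ) ^ 9 := by ring
      _ ≤ Mp (A2 + 32) f * (N1 : ℝ) ^ 9 := mul_le_mul_of_nonneg_right hbig (by positivity)
  refine (hc.trans hk).trans ?_
  rw [mul_sum]
  have hsub : (words (2 * k + 4)).filter (fun a => Arch 1 a) ⊆
      ArchSet (2 * n - 1) 1 (2 * (k + 2)) := by
    intro a ha
    rw [mem_filter] at ha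
    have e2 : 2 * (k + 2) = 2 * k + 4 := by ring
    rw [e2]
    exact LOW.mem_archSet a (by omega) ha.1 ha.2
  refine (sum_le_sum fun a ha => ?_).trans (sum_le_sum_of_subset_of_nonneg hsub fun a _ _ => by
    positivity)
  rw [mem_filter] at ha
  have hh := (hArch 1 a le_rfl ha.2).2
  rw [(mem_words _ a).1 ha.1] at hh
  have e1 : Real.exp (-f) ^ (k + 2) = Real.exp (-f) ^ (k + 2 - hgt a) * Real.exp (-f) ^ hgt a := by
    rw [← pow_add]
    congr 1
    omega
  have e2 : Real.exp (f * (hgt a : ℝ)) * Real.exp (-f) ^ hgt a = 1 := by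
    rw [← Real.exp_nat_mul, ← Real.exp_add]
    rw [show f * (hgt a : ℝ) + (hgt a : ℝ) * -f = 0 by ring, Real.exp_zero]
  have e3 : rho ^ (k + 2) * Real.exp (-f) ^ (k + 2 - hgt a) =
      (rho * Real.exp (-f)) ^ (k + 2) * Real.exp (f * (hgt a : ℝ)) := by
    rw [mul_pow, e1]
    calc rho ^ (k + 2) * Real.exp (-f) ^ (k + 2 - hgt a) =
        rho ^ (k + 2) * Real.exp (-f) ^ (k + 2 - hgt a) *
          (Real.exp (f * (hgt a : ℝ)) * Real.exp (-f) ^ hgt a) := by rw [e2, mul_one]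
      _ = _ := by ring
  rw [e3, show 2 * k + 4 = 2 * (k + 2) by ring, pow_mul]
  exact mul_le_mul_of_nonneg_right (pow_le_pow_left₀ (by positivity) hx2 _) (Real.exp_pos _).le

end Pool.Agent.PFW
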