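import Pool.Agent.PFW.StmtsC
import Pool.Agent.EXW.SLOW2

/-!
# Project PFW, module SLOW4: sequences
-/

set_option autoImplicit false

namespace Pool.Agent.PFW

open Finset Pool.Agent.Lib27 Pool.Agent.SapR Pool.Agent.Gap Pool.Agent.FL Pool.Agent.EXW Filter
  Topology Pool.Agent.AreaLaw MeasureTheory
open scoped NNReal ENNReal

namespace SLOW4aux

open Pool.Agent.EXW.SLOW2aux

/-- the class parameter is a small power of `n` -/
lemma ev_M {A T : ℕ} (hA : 2 ≤ A) (hT : 1 ≤ T) (f : ℕ → ℝ)
    (hf : ∀ᶠ n : ℕ in atTop, (n : ℝ) ^ (-(1 / (16 * (A : ℝ) * T))) ≤ f n) :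
    ∀ᶠ n : ℕ in atTop, 0 < f n ∧ 1 ≤ Mp A (f n) ∧
      Mp A (f n) ^ T ≤ Real.exp (Real.log n / 8) := by
  have hA2 : (2 : ℝ) ≤ A := by exact_mod_cast hA
  have hT1 : (1 : ℝ) ≤ T := by exact_mod_cast hT
  have hA0 : (0 : ℝ) < A := by linarith
  have hT0 : (0 : ℝ) < T := by linarith
  filter_upwards [hf, tend_log.eventually_ge_atTop (16 * (A * T * Real.log A)),
    tend_log.eventually_ge_atTop 1] with n h1 h2 h3
  obtain ⟨h6, h7⟩ := nat_exp h3
  set L : ℝ := Real.log n with hL
  set c : ℝ := 1 / (16 * (A : ℝ) * T) with hc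
  have hc0 : 0 < c := by positivity
  have h8 : (n : ℝ) ^ (-c) = Real.exp (-(c * L)) := by
    rw [Real.rpow_def_of_pos h7, ← hL]
    congr 1
    ring
  rw [h8] at h1
  have h9 : 0 < Real.exp (-(c * L)) := Real.exp_pos _
  have hfn : 0 < f n := h9.trans_le h1
  have h10 : Real.exp (-(c * L)) ≤ 1 := by
    rw [Real.exp_le_one_iff]
    have : 0 ≤ c * L := by positivity
    linarith
  have h11 : Real.exp (-(c * L)) ≤ min (f n) 1 := le_min h1 h10
  have h12 := two_le_Mp hA hfn
  refine ⟨hfn, by linarith, ?_⟩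
  have h13 : (A : ℝ) / min (f n) 1 ≤ A * Real.exp (c * L) := by
    calc (A : ℝ) / min (f n) 1 ≤ A / Real.exp (-(c * L)) :=
          div_le_div_of_nonneg_left hA0.le h9 h11
      _ = A * Real.exp (c * L) := by
          rw [Real.exp_neg, div_inv_eq_mul]
  have h14 : (A : ℝ) * Real.exp (c * L) = Real.exp (Real.log A + c * L) := by
    rw [Real.exp_add, Real.exp_log hA0]
  have h15 : 0 ≤ (A : ℝ) / min (f n) 1 := by
    have := base_ge hA hfn
    linarith
  unfold Mp
  rw [← pow_mul]
  calc ((A : ℝ) / min (f n) 1) ^ (A * T) ≤ (Real.exp (Real.log A + c * L)) ^ (A * T) :=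
        pow_le_pow_left₀ h15 (h13.trans h14.le) _
    _ = Real.exp (((A * T : ℕ) : ℝ) * (Real.log A + c * L)) := (Real.exp_nat_mul _ _).symm
    _ ≤ Real.exp (L / 8) := by
        refine Real.exp_le_exp.2 ?_
        have e1 : ((A * T : ℕ) : ℝ) * (c * L) = L / 16 := by
          rw [hc]
          push_cast
          field_simp
        rw [mul_add, e1]
        push_cast
        linarith

/-- a power of the logarithm scale against the exponential -/
lemma ev_exp (i : ℕ) :
    ∀ᶠ n : ℕ in atTop, ((i : ℝ) + 1) * Real.log n ≤ Real.exp (Real.log n / 2) := by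
  have h1 : Tendsto (fun L : ℝ => ((i : ℝ) + 1) * L * Real.exp (-(L / 2))) atTop (𝓝 0) := by
    have h2 := (Real.tendsto_pow_mul_exp_neg_atTop_nhds_zero 1).comp
      (tendsto_id.atTop_div_const (show (0 : ℝ) < 2 by norm_num))
    have h3 := h2.const_mul (((i : ℝ) + 1) * 2)
    rw [mul_zero] at h3
    refine h3.congr fun L => ?_
    simp only [Function.comp_apply, id, pow_one]
    ring
  have := (h1.comp tend_log).eventually (gt_mem_nhds (show (0 : ℝ) < 1 by norm_num))
  filter_upwards [this] with n hn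
  simp only [Function.comp_apply] at hn
  have h3 := mul_le_mul_of_nonneg_right (le_of_lt hn) (Real.exp_pos (Real.log n / 2)).le
  rwa [mul_assoc, ← Real.exp_add, neg_add_cancel, Real.exp_zero, mul_one, one_mul] at h3

end SLOW4aux

open SLOW4aux Pool.Agent.EXW.SLOW2aux in
/-- the sequences of the polynomial window -/
theorem t_SLOW4 : SLOW4_Stmt := by
  intro A K Kw Kn hA
  have hA2 : (2 : ℝ) ≤ A := by exact_mod_cast hA
  set T : ℕ := K * Kw + Kn + K + 2 with hT
  have hT1 : 1 ≤ T := by omega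
  have hT1' : (1 : ℝ) ≤ T := by exact_mod_cast hT1
  have hKle : K ≤ T := by omega
  have hKwle : K * Kw ≤ T := by omega
  have hKnle : Kn + K * Kw + 1 ≤ T := by omega
  clear_value T
  refine ⟨1 / (16 * (A : ℝ) * T), by positivity, ?_⟩
  intro f hf
  have hev := ev_M hA hT1 f hf
  refine ⟨?_, ?_, ?_, ?_⟩
  · filter_upwards [hev, tend_log.eventually_ge_atTop 1] with n h1 h2
    obtain ⟨h3, h4, h5⟩ := h1
    obtain ⟨h6, h7⟩ := nat_exp h2
    refine ⟨h3, (pow_le_pow_right₀ h4 hKle).trans (h5.trans ?_)⟩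
    calc Real.exp (Real.log n / 8) ≤ Real.exp (Real.log n) := Real.exp_le_exp.2 (by linarith)
      _ = n := h6.symm
  · refine squeeze_zero' ?_ ?_ tend_g
    · filter_upwards [hev] with n h1
      have : 0 ≤ Mp A (f n) := by linarith [h1.2.1]
      positivity
    · filter_upwards [hev, tend_log.eventually_ge_atTop 1] with n h1 h2
      obtain ⟨h3, h4, h5⟩ := h1
      obtain ⟨h6, h7⟩ := nat_exp h2
      have h8 : (Mp A (f n) ^ K) ^ Kw ≤ Real.exp (Real.log n / 8) := by
        rw [← pow_mul]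
        exact (pow_le_pow_right₀ h4 hKwle).trans h5
      calc (Mp A (f n) ^ K) ^ Kw / (n : ℝ) ≤ Real.exp (Real.log n / 8) / n :=
            div_le_div_of_nonneg_right h8 h7.le
        _ = Real.exp (Real.log n / 8 - Real.log n) := by
            rw [Real.exp_sub, ← h6]
        _ ≤ Real.exp (-(Real.log n / 4)) := Real.exp_le_exp.2 (by linarith)
        _ ≤ _ := le_mul_of_one_le_left (Real.exp_pos _).le (one_le_pow₀ h2)
  · have hg := tend_g.const_mul (4 : ℝ)
    rw [mul_zero] at hg
    refine squeeze_zero' ?_ ?_ hg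
    · filter_upwards [hev, tend_log.eventually_ge_atTop 1] with n h1 h2
      obtain ⟨h3, h4, -⟩ := h1
      have h10 : 0 ≤ 1 - (Mp A (f n))⁻¹ := by
        have := inv_le_one_of_one_le₀ h4
        linarith
      have h11 : 0 < Mp A (f n) := by linarith
      have h12 : 0 ≤ Real.log n := by linarith
      unfold kap0
      positivity
    · filter_upwards [hev, tend_log.eventually_ge_atTop 1, ev_exp 4] with n h1 h2 he
      obtain ⟨h3, h4, h5⟩ := h1
      obtain ⟨h6, h7⟩ := nat_exp h2
      rw [← pow_mul]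
      generalize K * Kw = j at *
      set u : ℝ := Mp A (f n) with hu
      set L : ℝ := Real.log n with hL
      have hu0 : 0 < u := by linarith
      have hn1 : (1 : ℝ) ≤ n := by
        rw [h6]; exact Real.one_le_exp (by linarith)
      have hpow : ∀ i : ℕ, i ≤ Kn + j + 1 → u ^ i ≤ Real.exp (L / 8) := fun i hi =>
        (pow_le_pow_right₀ h4 (hi.trans hKnle)).trans h5
      have hsq : Real.sqrt n = Real.exp (L / 2) := by
        rw [h6, Real.exp_half]
      have hL2 : (1 : ℝ) ≤ L ^ 2 := one_le_pow₀ h2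
      have hLL : L ≤ L ^ 2 := by nlinarith
      have hE4 : 0 < Real.exp (-(L / 4)) := Real.exp_pos _
      have hone : Real.exp (-(L / 4)) ≤ L ^ 2 * Real.exp (-(L / 4)) :=
        le_mul_of_one_le_left hE4.le hL2
      have t1 : u ^ Kn * (L / Real.sqrt n) * u ^ j ≤ L ^ 2 * Real.exp (-(L / 4)) := by
        have e1 : u ^ Kn * (L / Real.sqrt n) * u ^ j = u ^ (Kn + j) * (L * Real.exp (-(L / 2))) := by
          rw [hsq, pow_add, Real.exp_neg, div_eq_mul_inv]
          ring
        rw [e1]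
        calc u ^ (Kn + j) * (L * Real.exp (-(L / 2)))
            ≤ Real.exp (L / 8) * (L * Real.exp (-(L / 2))) :=
              mul_le_mul_of_nonneg_right (hpow _ (by omega)) (by positivity)
          _ = L * Real.exp (L / 8 - L / 2) := by
              rw [sub_eq_add_neg, Real.exp_add]; ring
          _ ≤ L ^ 2 * Real.exp (-(L / 4)) :=
              mul_le_mul hLL (Real.exp_le_exp.2 (by linarith)) (Real.exp_pos _).le (by positivity)
      have t2 : u ^ Kn / (n : ℝ) ^ 5 * u ^ j ≤ L ^ 2 * Real.exp (-(L / 4)) := by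
        have h11 : Real.exp L ≤ (n : ℝ) ^ 5 := by
          calc Real.exp L = n := h6.symm
            _ ≤ (n : ℝ) ^ 5 := le_self_pow₀ hn1 (by norm_num)
        have e1 : u ^ Kn / (n : ℝ) ^ 5 * u ^ j = u ^ (Kn + j) / (n : ℝ) ^ 5 := by
          rw [pow_add]; ring
        rw [e1]
        calc u ^ (Kn + j) / (n : ℝ) ^ 5 ≤ Real.exp (L / 8) / Real.exp L :=
              div_le_div₀ (Real.exp_pos _).le (hpow _ (by omega)) (Real.exp_pos _) h11
          _ = Real.exp (L / 8 - L) := (Real.exp_sub _ _).symm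
          _ ≤ Real.exp (-(L / 4)) := Real.exp_le_exp.2 (by linarith)
          _ ≤ _ := hone
      have t3 : 2 * u * ((n : ℝ) ^ 4 * (1 - u⁻¹) ^ n) * u ^ j ≤
          2 * (L ^ 2 * Real.exp (-(L / 4))) := by
        have h10 : 0 ≤ 1 - u⁻¹ := by
          have := inv_le_one_of_one_le₀ h4
          linarith
        have hu8 : u ≤ Real.exp (L / 8) := by
          have := hpow 1 (by omega)
          rwa [pow_one] at this
        have h12 : 5 * L ≤ (n : ℝ) * u⁻¹ := by
          have h13 : (Real.exp (L / 8))⁻¹ ≤ u⁻¹ := inv_anti₀ hu0 hu8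
          calc 5 * L ≤ Real.exp (L / 2) := by push_cast at he; linarith
            _ ≤ Real.exp (L - L / 8) := Real.exp_le_exp.2 (by linarith)
            _ = (n : ℝ) * (Real.exp (L / 8))⁻¹ := by
                rw [Real.exp_sub, ← h6, div_eq_mul_inv]
            _ ≤ (n : ℝ) * u⁻¹ := mul_le_mul_of_nonneg_left h13 h7.le
        have h11 : (1 - u⁻¹) ^ n ≤ Real.exp (-(5 * L)) := by
          calc (1 - u⁻¹) ^ n ≤ Real.exp (-u⁻¹) ^ n :=
                pow_le_pow_left₀ h10 (Real.one_sub_le_exp_neg _) n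
            _ = Real.exp ((n : ℝ) * (-u⁻¹)) := (Real.exp_nat_mul _ _).symm
            _ ≤ Real.exp (-(5 * L)) := Real.exp_le_exp.2 (by linarith)
        have e1 : 2 * u * ((n : ℝ) ^ 4 * (1 - u⁻¹) ^ n) * u ^ j =
            2 * (u ^ (j + 1) * ((n : ℝ) ^ 4 * (1 - u⁻¹) ^ n)) := by
          rw [pow_succ]; ring
        rw [e1]
        have hn4 : (n : ℝ) ^ 4 = Real.exp (4 * L) := by
          rw [h6, ← Real.exp_nat_mul]
          push_cast
          rfl
        calc 2 * (u ^ (j + 1) * ((n : ℝ) ^ 4 * (1 - u⁻¹) ^ n))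
            ≤ 2 * (Real.exp (L / 8) * (Real.exp (4 * L) * Real.exp (-(5 * L)))) := by
              refine mul_le_mul_of_nonneg_left ?_ (by norm_num)
              refine mul_le_mul (hpow _ (by omega)) ?_ (by positivity) (Real.exp_pos _).le
              rw [hn4]
              exact mul_le_mul_of_nonneg_left h11 (Real.exp_pos _).le
          _ = 2 * Real.exp (L / 8 + (4 * L + -(5 * L))) := by
              rw [Real.exp_add, Real.exp_add]
          _ ≤ 2 * Real.exp (-(L / 4)) :=
              mul_le_mul_of_nonneg_left (Real.exp_le_exp.2 (by linarith)) (by norm_num)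
          _ ≤ _ := by linarith
      have hk : kap0 (u ^ Kn) u (1 - u⁻¹) n * u ^ j =
          u ^ Kn * (L / Real.sqrt n) * u ^ j + u ^ Kn / (n : ℝ) ^ 5 * u ^ j +
            2 * u * ((n : ℝ) ^ 4 * (1 - u⁻¹) ^ n) * u ^ j := by
        unfold kap0
        ring
      rw [hk]
      linarith
  · intro i j
    refine squeeze_zero' ?_ ?_ tend_g
    · filter_upwards [hev] with n h1
      obtain ⟨-, h4, -⟩ := h1
      have h10 : 0 ≤ 1 - (Mp A (f n))⁻¹ := by
        have := inv_le_one_of_one_le₀ h4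
        linarith
      have h11 : 0 < Mp A (f n) := by linarith
      positivity
    · filter_upwards [hev, tend_log.eventually_ge_atTop 1, ev_exp (i + j)]
        with n h1 h2 he
      obtain ⟨h3, h4, h5⟩ := h1
      obtain ⟨h6, h7⟩ := nat_exp h2
      have hKn : Mp A (f n) ^ K ≤ n := by
        refine (pow_le_pow_right₀ h4 hKle).trans (h5.trans ?_)
        calc Real.exp (Real.log n / 8) ≤ Real.exp (Real.log n) := Real.exp_le_exp.2 (by linarith)
          _ = n := h6.symm
      have hu8 : Mp A (f n) ≤ Real.exp (Real.log n / 8) := by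
        have := (pow_le_pow_right₀ h4 hT1).trans h5
        rwa [pow_one] at this
      set u : ℝ := Mp A (f n) with hu
      set L : ℝ := Real.log n with hL
      have hu0 : 0 < u := by linarith
      have hL2 : (1 : ℝ) ≤ L ^ 2 := one_le_pow₀ h2
      have h10 : 0 ≤ 1 - u⁻¹ := by
        have := inv_le_one_of_one_le₀ h4
        linarith
      have h12 : (((i + j : ℕ) : ℝ) + 1) * L ≤ (n : ℝ) * u⁻¹ := by
        have h13 : (Real.exp (L / 8))⁻¹ ≤ u⁻¹ := inv_anti₀ hu0 hu8
        calc (((i + j : ℕ) : ℝ) + 1) * L ≤ Real.exp (L / 2) := he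
          _ ≤ Real.exp (L - L / 8) := Real.exp_le_exp.2 (by linarith)
          _ = (n : ℝ) * (Real.exp (L / 8))⁻¹ := by
              rw [Real.exp_sub, ← h6, div_eq_mul_inv]
          _ ≤ (n : ℝ) * u⁻¹ := mul_le_mul_of_nonneg_left h13 h7.le
      have h11 : (1 - u⁻¹) ^ n ≤ Real.exp (-((((i + j : ℕ) : ℝ) + 1) * L)) := by
        calc (1 - u⁻¹) ^ n ≤ Real.exp (-u⁻¹) ^ n :=
              pow_le_pow_left₀ h10 (Real.one_sub_le_exp_neg _) n
          _ = Real.exp ((n : ℝ) * (-u⁻¹)) := (Real.exp_nat_mul _ _).symm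
          _ ≤ Real.exp (-((((i + j : ℕ) : ℝ) + 1) * L)) := Real.exp_le_exp.2 (by linarith)
      have hni : (n : ℝ) ^ (i + j) = Real.exp (((i + j : ℕ) : ℝ) * L) := by
        rw [Real.exp_nat_mul, ← h6]
      calc (n : ℝ) ^ i * (u ^ K) ^ j * (1 - u⁻¹) ^ n
          ≤ (n : ℝ) ^ i * (n : ℝ) ^ j * (1 - u⁻¹) ^ n := by
            refine mul_le_mul_of_nonneg_right ?_ (pow_nonneg h10 _)
            refine mul_le_mul_of_nonneg_left ?_ (by positivity)
            exact pow_le_pow_left₀ (by positivity) hKn _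
        _ = Real.exp (((i + j : ℕ) : ℝ) * L) * (1 - u⁻¹) ^ n := by
            rw [← pow_add, hni]
        _ ≤ Real.exp (((i + j : ℕ) : ℝ) * L) * Real.exp (-((((i + j : ℕ) : ℝ) + 1) * L)) :=
            mul_le_mul_of_nonneg_left h11 (Real.exp_pos _).le
        _ = Real.exp (-L) := by
            rw [← Real.exp_add]
            congr 1
            ring
        _ ≤ Real.exp (-(L / 4)) := Real.exp_le_exp.2 (by linarith)
        _ ≤ L ^ 2 * Real.exp (-(L / 4)) := le_mul_of_one_le_left (Real.exp_pos _).le hL2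

end Pool.Agent.PFW
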