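import Pool.Agent.PFW.StmtsC
import Pool.Agent.EXW.GV2

/-!
# Project PFW (MP_f6626d_co), module TRN: the exit estimate by symmetry
-/

set_option autoImplicit false

namespace Pool.Agent.PFW

open Finset Pool.Agent.Gap Pool.Agent.FL Pool.Agent.EXW

namespace TRNx

open Pool.Agent.FL.GV

lemma Kc_symm (G : GapKernel) (g g' : ℤ) : G.Kc g g' = G.Kc g' g := by
  unfold GapKernel.Kc
  exact Finset.sum_congr rfl fun i _ => by rw [G.K_symm]

/-- the difference of the critical solution and the truncated one -/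
lemma diff {G : GapKernel} {C : ℝ} {s V : ℤ → ℝ} (hV : CritN C G s V) {N : ℕ} {u : ℤ → ℝ}
    (hu : VX.RS G N u s) :
    VX.RS G N (fun g => if g ∈ Icc (1 : ℤ) N then V g - u g else 0)
      (fun g => ∑ g' ∈ Icc ((N : ℤ) + 1) (N + G.R), G.Kc g g' * V g') := by
  refine ⟨fun g hg => ?_, fun g hg => ?_⟩
  · simp only
    rw [if_neg]
    rw [Finset.mem_Icc]
    omega
  · simp only
    rw [if_pos hg]
    have h1 := hV.eq g (Finset.mem_Icc.1 hg).1
    have h2 := hu.2 g hg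
    have h3 := sum_split G N g hg V
    have h4 : ∑ g' ∈ Icc (1 : ℤ) N, G.Kc g g' * (if g' ∈ Icc (1 : ℤ) N then V g' - u g' else 0)
        = ∑ g' ∈ Icc (1 : ℤ) N, G.Kc g g' * V g' - ∑ g' ∈ Icc (1 : ℤ) N, G.Kc g g' * u g' := by
      rw [← Finset.sum_sub_distrib]
      refine Finset.sum_congr rfl fun g' hg' => ?_
      rw [if_pos hg']
      ring
    rw [h4]
    linarith

/-- Green's formula -/
lemma green {G : GapKernel} {N : ℕ} {x y e f : ℤ → ℝ} (hx : VX.RS G N x e)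
    (hy : VX.RS G N y f) :
    ∑ g ∈ Icc (1 : ℤ) N, e g * y g = ∑ g ∈ Icc (1 : ℤ) N, x g * f g := by
  have h1 : ∑ g ∈ Icc (1 : ℤ) N, e g * y g = ∑ g ∈ Icc (1 : ℤ) N, x g * y g -
      ∑ g ∈ Icc (1 : ℤ) N, ∑ g' ∈ Icc (1 : ℤ) N, G.Kc g g' * x g' * y g := by
    rw [← Finset.sum_sub_distrib]
    refine Finset.sum_congr rfl fun g hg => ?_
    rw [← Finset.sum_mul]
    have h2 := hx.2 g hg
    have h3 : e g = x g - ∑ g' ∈ Icc (1 : ℤ) N, G.Kc g g' * x g' := by linarith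
    rw [h3]
    ring
  have h2 : ∑ g ∈ Icc (1 : ℤ) N, x g * f g = ∑ g ∈ Icc (1 : ℤ) N, x g * y g -
      ∑ g ∈ Icc (1 : ℤ) N, ∑ g' ∈ Icc (1 : ℤ) N, G.Kc g g' * y g' * x g := by
    rw [← Finset.sum_sub_distrib]
    refine Finset.sum_congr rfl fun g hg => ?_
    rw [← Finset.sum_mul]
    have h2 := hy.2 g hg
    have h3 : f g = y g - ∑ g' ∈ Icc (1 : ℤ) N, G.Kc g g' * y g' := by linarith
    rw [h3]
    ring
  rw [h1, h2, Finset.sum_comm]
  congr 1
  refine Finset.sum_congr rfl fun g _ => Finset.sum_congr rfl fun g' _ => ?_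
  rw [Kc_symm G g' g]
  ring

/-- the mass of one type of pieces which crosses the level `N` -/
lemma cross {G : GapKernel} (hL : Loc G) (N : ℕ) (i : ℕ × ℕ) :
    ∑ g ∈ Icc (1 : ℤ) N, ∑ g' ∈ Icc ((N : ℤ) + 1) (N + G.R), G.T i (g' - g)
      ≤ 2 * (i.1 : ℝ) * G.tot i := by
  have h1 : ∀ g ∈ Icc (1 : ℤ) N, ∑ g' ∈ Icc ((N : ℤ) + 1) (N + G.R), G.T i (g' - g) ≤
      if (N : ℤ) + 1 - 2 * (i.1 : ℤ) ≤ g then G.tot i else 0 := by
    intro g hg
    split_ifs with h
    · exact G.sum_T_shift i g _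
    · refine le_of_eq (Finset.sum_eq_zero fun g' hg' => ?_)
      rw [Finset.mem_Icc] at hg hg'
      refine hL.T_loc i _ ?_
      rw [lt_abs]
      omega
  refine (Finset.sum_le_sum h1).trans ?_
  rw [← Finset.sum_filter, Finset.sum_const, nsmul_eq_mul]
  have h2 : ((Icc (1 : ℤ) N).filter (fun g => (N : ℤ) + 1 - 2 * (i.1 : ℤ) ≤ g)).card ≤ 2 * i.1 := by
    have h3 : (Icc (1 : ℤ) N).filter (fun g => (N : ℤ) + 1 - 2 * (i.1 : ℤ) ≤ g) ⊆
        Icc ((N : ℤ) + 1 - 2 * (i.1 : ℤ)) N := by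
      intro g hg
      rw [Finset.mem_filter, Finset.mem_Icc] at hg
      rw [Finset.mem_Icc]
      omega
    refine (Finset.card_le_card h3).trans ?_
    rw [Int.card_Icc]
    omega
  have h4 : (((Icc (1 : ℤ) N).filter (fun g => (N : ℤ) + 1 - 2 * (i.1 : ℤ) ≤ g)).card : ℝ) ≤
      2 * (i.1 : ℝ) := by exact_mod_cast h2
  exact mul_le_mul_of_nonneg_right h4 (G.tot_nonneg i)

end TRNx

open TRNx Pool.Agent.FL.GV in
/-- `TRN`: comparison of the critical solution with the truncated solution. -/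
theorem t_TRN : TRN_Stmt := by
  obtain ⟨K1, hK1⟩ := sum_pow 1
  obtain ⟨K2, hK2⟩ := sum_tail 1
  refine ⟨K1 + K2 + 5, fun D hD G hG R' s V hs hV N W u X hN hW hu hX => ?_⟩
  have hD1 : (1 : ℝ) ≤ D := by linarith
  have hD0 : (0 : ℝ) < D := by linarith
  set y : ℤ → ℝ := fun g => if g ∈ Icc (1 : ℤ) N then V g - u g else 0 with hy
  have hRS := diff hV hu
  have hr : ∀ g, 0 ≤ ∑ g' ∈ Icc ((N : ℤ) + 1) (N + G.R), G.Kc g g' * V g' := fun g =>
    Finset.sum_nonneg fun g' _ => mul_nonneg (VL.Kc_nonneg G _ _) (hV.nonneg g')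
  have hy0 : ∀ g, 0 ≤ y g := VX.RS_nonneg G hRS fun g _ => hr g
  have hu0 : ∀ g, 0 ≤ u g := VX.RS_nonneg G hu fun g _ => hs.nonneg g
  have huV : ∀ g ∈ Icc (1 : ℤ) N, u g ≤ V g := by
    intro g hg
    have h1 := hy0 g
    simp only [hy] at h1
    rw [if_pos hg] at h1
    linarith
  have h1mem : (1 : ℤ) ∈ Icc (1 : ℤ) N := by
    rw [Finset.mem_Icc]
    omega
  have hy1 : y 1 = V 1 - u 1 := by
    simp only [hy]
    rw [if_pos h1mem]
  -- the symmetry
  have hsym : s 1 * y 1 ≤ ∑ g ∈ Icc (1 : ℤ) N,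
      u g * ∑ g' ∈ Icc ((N : ℤ) + 1) (N + G.R), G.Kc g g' * V g' := by
    rw [← green hu hRS]
    exact Finset.single_le_sum (f := fun g => s g * y g)
      (fun g _ => mul_nonneg (hs.nonneg g) (hy0 g)) h1mem
  -- the bound of the terms
  have hterm : ∀ i ∈ G.S, ∀ g ∈ Icc (1 : ℤ) N, ∀ g' ∈ Icc ((N : ℤ) + 1) (N + G.R),
      V g * V g' * G.T i (g' - g) ≤
        (X ^ 2 + if W < 2 * i.1 then D ^ 2 else 0) * G.T i (g' - g) := by
    intro i _ g hg g' hg'
    rw [Finset.mem_Icc] at hg hg'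
    have hX' : V g' ≤ X := hX g' (by omega)
    have h1 := hV.nonneg g
    have h2 := hV.nonneg g'
    have hT := G.T_nonneg i (g' - g)
    rcases le_or_gt (W : ℤ) g with h3 | h3
    · have h4 := hX g h3
      have h5 : V g * V g' ≤ X ^ 2 := by
        rw [sq]
        exact mul_le_mul h4 hX' h2 (h1.trans h4)
      refine mul_le_mul_of_nonneg_right ?_ hT
      have h6 : 0 ≤ if W < 2 * i.1 then D ^ 2 else 0 := by split_ifs <;> positivity
      linarith
    · rcases lt_or_ge W (2 * i.1) with h4 | h4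
      · rw [if_pos h4]
        have h5 : V g * V g' ≤ D ^ 2 := by
          rw [sq]
          exact mul_le_mul (hV.up g) (hV.up g') h2 hD0.le
        refine mul_le_mul_of_nonneg_right ?_ hT
        have := sq_nonneg X
        linarith
      · have h5 : G.T i (g' - g) = 0 := by
          refine hG.loc.T_loc i _ ?_
          rw [lt_abs]
          omega
        rw [h5, mul_zero, mul_zero]
  have hsum : ∑ g ∈ Icc (1 : ℤ) N,
      u g * ∑ g' ∈ Icc ((N : ℤ) + 1) (N + G.R), G.Kc g g' * V g' ≤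
      ∑ i ∈ G.S, G.rho ^ i.1 * ((X ^ 2 + if W < 2 * i.1 then D ^ 2 else 0) *
        (2 * (i.1 : ℝ) * G.tot i)) := by
    calc ∑ g ∈ Icc (1 : ℤ) N, u g * ∑ g' ∈ Icc ((N : ℤ) + 1) (N + G.R), G.Kc g g' * V g'
        ≤ ∑ g ∈ Icc (1 : ℤ) N, ∑ g' ∈ Icc ((N : ℤ) + 1) (N + G.R),
            ∑ i ∈ G.S, G.rho ^ i.1 * (V g * V g' * G.T i (g' - g)) := by
          refine Finset.sum_le_sum fun g hg => ?_
          rw [Finset.mul_sum]
          refine Finset.sum_le_sum fun g' hg' => ?_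
          have h1 := VX.Kc_le_kk G g g'
          have h2 := hV.nonneg g'
          have h3 : u g * (G.Kc g g' * V g') ≤ V g * (VL.kk G (g' - g) * V g') :=
            mul_le_mul (huV g hg) (mul_le_mul_of_nonneg_right h1 h2)
              (mul_nonneg (VL.Kc_nonneg G _ _) h2) (hV.nonneg g)
          refine h3.trans (le_of_eq ?_)
          unfold VL.kk
          rw [Finset.sum_mul, Finset.mul_sum]
          refine Finset.sum_congr rfl fun i _ => ?_
          ring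
      _ = ∑ i ∈ G.S, G.rho ^ i.1 * ∑ g ∈ Icc (1 : ℤ) N, ∑ g' ∈ Icc ((N : ℤ) + 1) (N + G.R),
            V g * V g' * G.T i (g' - g) := by
          have h1 : ∀ g ∈ Icc (1 : ℤ) N, ∑ g' ∈ Icc ((N : ℤ) + 1) (N + G.R),
              ∑ i ∈ G.S, G.rho ^ i.1 * (V g * V g' * G.T i (g' - g)) =
              ∑ i ∈ G.S, ∑ g' ∈ Icc ((N : ℤ) + 1) (N + G.R),
                G.rho ^ i.1 * (V g * V g' * G.T i (g' - g)) := fun g _ => Finset.sum_comm
          rw [Finset.sum_congr rfl h1, Finset.sum_comm]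
          refine Finset.sum_congr rfl fun i _ => ?_
          rw [Finset.mul_sum]
          refine Finset.sum_congr rfl fun g _ => ?_
          rw [Finset.mul_sum]
      _ ≤ _ := by
          refine Finset.sum_le_sum fun i hi => ?_
          refine mul_le_mul_of_nonneg_left ?_ (pow_nonneg G.rho_pos.le _)
          have h6 : 0 ≤ X ^ 2 + if W < 2 * i.1 then D ^ 2 else 0 := by
            have := sq_nonneg X
            split_ifs <;> positivity
          refine le_trans ?_ (mul_le_mul_of_nonneg_left (cross hG.loc N i) h6)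
          rw [Finset.mul_sum]
          refine Finset.sum_le_sum fun g hg => ?_
          rw [Finset.mul_sum]
          exact Finset.sum_le_sum fun g' hg' => hterm i hi g hg g' hg'
  -- the two sums
  set a : ℕ := W / 2 + 1 with ha
  have htail := hK2 D hD G hG a
  have hpow := hK1 D hD G hG
  have hsplit : ∑ i ∈ G.S, G.rho ^ i.1 * ((X ^ 2 + if W < 2 * i.1 then D ^ 2 else 0) *
        (2 * (i.1 : ℝ) * G.tot i)) ≤ 2 * X ^ 2 * D ^ K1 +
        2 * D ^ 2 * (D ^ K2 * (1 - (2 * D)⁻¹) ^ a) := by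
    have h1 : ∑ i ∈ G.S, G.rho ^ i.1 * ((X ^ 2 + if W < 2 * i.1 then D ^ 2 else 0) *
        (2 * (i.1 : ℝ) * G.tot i)) = 2 * X ^ 2 * ∑ i ∈ G.S, (i.1 : ℝ) ^ 1 *
          (G.rho ^ i.1 * G.tot i) + 2 * D ^ 2 * ∑ i ∈ G.S.filter (fun i => a ≤ i.1),
          (i.1 : ℝ) ^ 1 * (G.rho ^ i.1 * G.tot i) := by
      rw [Finset.mul_sum, Finset.mul_sum, Finset.sum_filter, ← Finset.sum_add_distrib]
      refine Finset.sum_congr rfl fun i _ => ?_
      by_cases h : W < 2 * i.1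
      · rw [if_pos h, if_pos (by omega)]
        ring
      · rw [if_neg h, if_neg (by omega)]
        ring
    rw [h1]
    refine add_le_add (mul_le_mul_of_nonneg_left hpow (by positivity))
      (mul_le_mul_of_nonneg_left htail (by positivity))
  -- the exponential
  have hexp : (1 - (2 * D)⁻¹) ^ a ≤ Real.exp (-((W : ℝ) / D ^ (K1 + K2 + 5))) := by
    have h1 : 1 - (2 * D)⁻¹ ≤ Real.exp (-(2 * D)⁻¹) := by
      have := Real.add_one_le_exp (-(2 * D)⁻¹)
      linarith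
    have h2 : 0 ≤ 1 - (2 * D)⁻¹ := (th_pos (show 2 ≤ 2 * D by linarith)).le
    refine (pow_le_pow_left₀ h2 h1 a).trans ?_
    rw [← Real.exp_nat_mul]
    refine Real.exp_le_exp.2 ?_
    have h3 : (W : ℝ) / 2 ≤ a := by
      have h4 : W ≤ 2 * a := by omega
      have h5 : (W : ℝ) ≤ 2 * (a : ℝ) := by exact_mod_cast h4
      linarith
    have h4 : 4 * D ≤ D ^ (K1 + K2 + 5) := by
      calc 4 * D ≤ D ^ 3 := by nlinarith
        _ ≤ _ := pow_le_pow_right₀ hD1 (by omega)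
    have h5 : (W : ℝ) / D ^ (K1 + K2 + 5) ≤ (W : ℝ) / (4 * D) :=
      div_le_div_of_nonneg_left (Nat.cast_nonneg _) (by positivity) h4
    have h6 : (W : ℝ) / (4 * D) = (W : ℝ) / 2 * (2 * D)⁻¹ := by
      field_simp
      norm_num
    have h7 : (W : ℝ) / 2 * (2 * D)⁻¹ ≤ (a : ℝ) * (2 * D)⁻¹ :=
      mul_le_mul_of_nonneg_right h3 (by positivity)
    linarith
  have hfin : s 1 * y 1 ≤ 2 * X ^ 2 * D ^ K1 +
      2 * D ^ 2 * (D ^ K2 * Real.exp (-((W : ℝ) / D ^ (K1 + K2 + 5)))) := by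
    refine (hsym.trans (hsum.trans hsplit)).trans ?_
    have h1 : 2 * D ^ 2 * (D ^ K2 * (1 - (2 * D)⁻¹) ^ a) ≤
        2 * D ^ 2 * (D ^ K2 * Real.exp (-((W : ℝ) / D ^ (K1 + K2 + 5)))) :=
      mul_le_mul_of_nonneg_left (mul_le_mul_of_nonneg_left hexp (by positivity)) (by positivity)
    linarith
  rw [← hy1]
  have h1 : D⁻¹ * y 1 ≤ s 1 * y 1 := mul_le_mul_of_nonneg_right hs.one (hy0 1)
  have h2 : y 1 ≤ D * (2 * X ^ 2 * D ^ K1 +
      2 * D ^ 2 * (D ^ K2 * Real.exp (-((W : ℝ) / D ^ (K1 + K2 + 5))))) := by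
    have h3 := mul_le_mul_of_nonneg_left (h1.trans hfin) hD0.le
    rw [← mul_assoc, mul_inv_cancel₀ hD0.ne', one_mul] at h3
    exact h3
  refine h2.trans ?_
  set Ex := Real.exp (-((W : ℝ) / D ^ (K1 + K2 + 5))) with hEx
  have hEx0 : 0 < Ex := Real.exp_pos _
  have p1 : 2 * D * D ^ K1 ≤ D ^ (K1 + K2 + 5) := by
    calc 2 * D * D ^ K1 ≤ D * D * D ^ K1 := by
          refine mul_le_mul_of_nonneg_right ?_ (by positivity)
          nlinarith
      _ = D ^ (K1 + 2) := by ring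
      _ ≤ _ := pow_le_pow_right₀ hD1 (by omega)
  have p2 : 2 * D ^ 3 * D ^ K2 ≤ D ^ (K1 + K2 + 5) := by
    calc 2 * D ^ 3 * D ^ K2 ≤ D * D ^ 3 * D ^ K2 := by
          refine mul_le_mul_of_nonneg_right ?_ (by positivity)
          exact mul_le_mul_of_nonneg_right hD (by positivity)
      _ = D ^ (K2 + 4) := by ring
      _ ≤ _ := pow_le_pow_right₀ hD1 (by omega)
  calc D * (2 * X ^ 2 * D ^ K1 + 2 * D ^ 2 * (D ^ K2 * Ex))
      = 2 * D * D ^ K1 * X ^ 2 + 2 * D ^ 3 * D ^ K2 * Ex := by ring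
    _ ≤ D ^ (K1 + K2 + 5) * X ^ 2 + D ^ (K1 + K2 + 5) * Ex :=
        add_le_add (mul_le_mul_of_nonneg_right p1 (sq_nonneg X))
          (mul_le_mul_of_nonneg_right p2 hEx0.le)
    _ = _ := by ring

end Pool.Agent.PFW
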