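import Pool.Agent.PFW.StmtsC
import Pool.Agent.EXW.QCS

/-!
# Project PFW, module WCS: critical solutions with a limit which is bounded below
-/

set_option autoImplicit false

namespace Pool.Agent.PFW

open Finset Pool.Agent.Lib27 Pool.Agent.SapR Pool.Agent.Gap Pool.Agent.FL Pool.Agent.EXW Filter
  Topology Pool.Agent.AreaLaw MeasureTheory

namespace WCSaux

/-- the exponential factor wins against powers -/
lemma exp_wins (p : ℕ) (c : ℝ) : ∃ x0 : ℕ, ∀ x : ℝ, (x0 : ℝ) ≤ x →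
    c * (x ^ p * Real.exp (-(x / 4))) ≤ 1 := by
  have h1 : Tendsto (fun x : ℝ => (x / 4) ^ p * Real.exp (-(x / 4))) atTop (𝓝 0) :=
    (Real.tendsto_pow_mul_exp_neg_atTop_nhds_zero p).comp
      (tendsto_id.atTop_div_const (by norm_num : (0 : ℝ) < 4))
  have h2 : Tendsto (fun x : ℝ => (c * 4 ^ p) * ((x / 4) ^ p * Real.exp (-(x / 4)))) atTop
      (𝓝 ((c * 4 ^ p) * 0)) := h1.const_mul _
  rw [mul_zero] at h2
  have h3 := h2.eventually_le_const (show (0 : ℝ) < 1 by norm_num)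
  obtain ⟨a, ha⟩ := eventually_atTop.1 h3
  refine ⟨⌈a⌉₊, fun x hx => ?_⟩
  have h4 := ha x ((Nat.le_ceil a).trans hx)
  refine le_trans (le_of_eq ?_) h4
  rw [div_pow]
  field_simp

lemma ceil_le {x : ℝ} (hx : 1 ≤ x) : (⌈x⌉₊ : ℝ) ≤ 2 * x := by
  have h1 := (Nat.ceil_lt_add_one (show 0 ≤ x by linarith)).le
  linarith

/-- values far away from the wall -/
lemma far_of_lim {K : ℕ} {D : ℝ} {V : ℤ → ℝ} {A : ℝ} (hL : LimN K D V A) (hA : 0 < A)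
    (g0 : ℤ) : ∃ g : ℤ, g0 ≤ g ∧ A / 2 ≤ V g := by
  obtain ⟨N, hN⟩ := exists_nat_ge (4 * D ^ K / A ^ 2 + 1)
  set g : ℕ := max (max g0.toNat N) 1 with hg
  have hg1 : 1 ≤ g := le_max_right _ _
  have hgN : N ≤ g := (le_max_right _ _).trans (le_max_left _ _)
  have hg0 : g0 ≤ g := (Int.self_le_toNat g0).trans (by
    exact_mod_cast (le_max_left g0.toNat N).trans (le_max_left _ _))
  refine ⟨g, hg0, ?_⟩
  have hs := hL.sum g
  have h1 : ((g : ℤ) : ℝ) ^ 2 * (V g - A) ^ 2 ≤ D ^ K := by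
    refine le_trans ?_ hs
    refine single_le_sum (f := fun g : ℤ => (g : ℝ) ^ 2 * (V g - A) ^ 2)
      (fun i _ => by positivity) ?_
    rw [mem_Icc]
    exact ⟨by exact_mod_cast hg1, le_refl _⟩
  have hgr : (1 : ℝ) ≤ g := by exact_mod_cast hg1
  have h2 : 4 * D ^ K / A ^ 2 < (g : ℝ) := by
    have : (N : ℝ) ≤ g := by exact_mod_cast hgN
    linarith
  have h3 : (g : ℝ) ≤ (g : ℝ) ^ 2 := by nlinarith
  have h4 : 4 * D ^ K < (g : ℝ) ^ 2 * A ^ 2 := by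
    have h5 : 4 * D ^ K / A ^ 2 < (g : ℝ) ^ 2 := h2.trans_le h3
    rwa [div_lt_iff₀ (by positivity)] at h5
  by_contra hcon
  push Not at hcon
  have h5 : A ^ 2 / 4 < (V g - A) ^ 2 := by nlinarith
  have h6 : (g : ℝ) ^ 2 * (A ^ 2 / 4) < (g : ℝ) ^ 2 * (V g - A) ^ 2 :=
    mul_lt_mul_of_pos_left h5 (by positivity)
  have h7 : ((g : ℤ) : ℝ) = (g : ℝ) := by norm_cast
  rw [h7] at h1
  linarith

/-- the arithmetic of the lower bound -/
lemma arith {D A E : ℝ} {k : ℕ} {W m N : ℝ} (hD : 2 ≤ D) (hA : 0 ≤ A)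
    (hW1 : D ^ (k + 1) ≤ W) (hW2 : W ≤ 2 * D ^ (k + 1)) (hN1 : D ^ (3 * k + 4) ≤ N)
    (hN2 : N ≤ 2 * D ^ (3 * k + 4)) (hm : N ≤ m)
    (hE : E ≤ D) (hE0 : 0 < E)
    (hexp : 8192 * (D ^ (30 * k + 39) * Real.exp (-(D / 4))) ≤ 1)
    (hlow : E⁻¹ / N ^ 9 ≤ D ^ k * (A ^ 2 + W ^ 2 * Real.exp (-(W / D ^ k)) +
      W ^ 2 * Real.exp (-(m / (D ^ k * W ^ 2))))) : (D ^ (28 * k + 47))⁻¹ ≤ A := by
  have hD0 : 0 < D := by linarith
  have hD1 : 1 ≤ D := by linarith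
  have hp : ∀ j : ℕ, 0 < D ^ j := fun j => pow_pos hD0 j
  have hW0 : 0 < W := (hp _).trans_le hW1
  have hN0 : 0 < N := (hp _).trans_le hN1
  have hW3 : W ^ 2 ≤ 4 * D ^ (2 * k + 2) := by
    calc W ^ 2 ≤ (2 * D ^ (k + 1)) ^ 2 := pow_le_pow_left₀ hW0.le hW2 2
      _ = 4 * D ^ (2 * k + 2) := by ring
  have e1 : Real.exp (-(W / D ^ k)) ≤ Real.exp (-(D / 4)) := by
    refine Real.exp_le_exp.2 (neg_le_neg ?_)
    rw [le_div_iff₀ (hp k)]
    calc D / 4 * D ^ k = D ^ (k + 1) / 4 := by ring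
      _ ≤ D ^ (k + 1) := by linarith [hp (k + 1)]
      _ ≤ W := hW1
  have e2 : Real.exp (-(m / (D ^ k * W ^ 2))) ≤ Real.exp (-(D / 4)) := by
    refine Real.exp_le_exp.2 (neg_le_neg ?_)
    rw [le_div_iff₀ (mul_pos (hp k) (by positivity))]
    calc D / 4 * (D ^ k * W ^ 2) ≤ D / 4 * (D ^ k * (4 * D ^ (2 * k + 2))) := by
          refine mul_le_mul_of_nonneg_left ?_ (by positivity)
          exact mul_le_mul_of_nonneg_left hW3 (hp k).le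
      _ = D ^ (3 * k + 3) := by ring
      _ ≤ D ^ (3 * k + 4) := pow_le_pow_right₀ hD1 (by omega)
      _ ≤ m := hN1.trans hm
  have hx : 0 < Real.exp (-(D / 4)) := Real.exp_pos _
  generalize Real.exp (-(D / 4)) = x at *
  have hup : D ^ k * (A ^ 2 + W ^ 2 * Real.exp (-(W / D ^ k)) +
      W ^ 2 * Real.exp (-(m / (D ^ k * W ^ 2)))) ≤ D ^ k * (A ^ 2 + 8 * D ^ (2 * k + 2) * x) := by
    refine mul_le_mul_of_nonneg_left ?_ (hp k).le
    have t1 : W ^ 2 * Real.exp (-(W / D ^ k)) ≤ 4 * D ^ (2 * k + 2) * x :=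
      mul_le_mul hW3 e1 (Real.exp_pos _).le (by positivity)
    have t2 : W ^ 2 * Real.exp (-(m / (D ^ k * W ^ 2))) ≤ 4 * D ^ (2 * k + 2) * x :=
      mul_le_mul hW3 e2 (Real.exp_pos _).le (by positivity)
    linarith
  have hlo : (512 * D ^ (27 * k + 37))⁻¹ ≤ E⁻¹ / N ^ 9 := by
    have t1 : N ^ 9 ≤ 512 * D ^ (27 * k + 36) := by
      calc N ^ 9 ≤ (2 * D ^ (3 * k + 4)) ^ 9 := pow_le_pow_left₀ hN0.le hN2 9
        _ = 512 * D ^ (27 * k + 36) := by ring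
    have t2 : E * N ^ 9 ≤ 512 * D ^ (27 * k + 37) := by
      calc E * N ^ 9 ≤ D * (512 * D ^ (27 * k + 36)) :=
            mul_le_mul hE t1 (by positivity) hD0.le
        _ = 512 * D ^ (27 * k + 37) := by ring
    calc (512 * D ^ (27 * k + 37))⁻¹ ≤ (E * N ^ 9)⁻¹ := inv_anti₀ (by positivity) t2
      _ = E⁻¹ / N ^ 9 := by rw [mul_inv, div_eq_mul_inv]
  have hmain := (hlo.trans hlow).trans hup
  -- multiply by `1024 D ^ (27 k + 37)`
  have h1 : 2 ≤ 1024 * D ^ (28 * k + 37) * A ^ 2 + 8192 * (D ^ (30 * k + 39) * x) := by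
    have h2 : 1 ≤ D ^ k * (A ^ 2 + 8 * D ^ (2 * k + 2) * x) * (512 * D ^ (27 * k + 37)) := by
      rw [← inv_le_iff_one_le_mul₀ (by positivity)]
      exact hmain
    have h3 : D ^ k * (A ^ 2 + 8 * D ^ (2 * k + 2) * x) * (512 * D ^ (27 * k + 37)) =
        512 * D ^ (28 * k + 37) * A ^ 2 + 4096 * (D ^ (30 * k + 39) * x) := by ring
    rw [h3] at h2
    linarith
  have h4 : 1 ≤ 1024 * D ^ (28 * k + 37) * A ^ 2 := by linarith
  have h5 : (1024 : ℝ) ≤ D ^ 10 := by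
    calc (1024 : ℝ) = 2 ^ 10 := by norm_num
      _ ≤ D ^ 10 := pow_le_pow_left₀ (by norm_num) hD 10
  have h6 : 1 ≤ D ^ (28 * k + 47) * A ^ 2 := by
    refine h4.trans ?_
    refine mul_le_mul_of_nonneg_right ?_ (sq_nonneg A)
    calc 1024 * D ^ (28 * k + 37) ≤ D ^ 10 * D ^ (28 * k + 37) :=
          mul_le_mul_of_nonneg_right h5 (hp _).le
      _ = D ^ (28 * k + 47) := by ring
  have h7 : 1 ≤ D ^ (28 * k + 47) := one_le_pow₀ hD1
  rw [inv_le_iff_one_le_mul₀ (hp _)]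
  by_contra hcon
  push Not at hcon
  have h8 : D ^ (28 * k + 47) * A ^ 2 ≤ (A * D ^ (28 * k + 47)) ^ 2 := by
    have : D ^ (28 * k + 47) ≤ (D ^ (28 * k + 47)) ^ 2 := by nlinarith
    calc D ^ (28 * k + 47) * A ^ 2 ≤ (D ^ (28 * k + 47)) ^ 2 * A ^ 2 :=
          mul_le_mul_of_nonneg_right this (sq_nonneg A)
      _ = (A * D ^ (28 * k + 47)) ^ 2 := by ring
  have h9 : 0 ≤ A * D ^ (28 * k + 47) := mul_nonneg hA (hp _).le
  nlinarith

end WCSaux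

open WCSaux in
theorem t_WCS (h1 : GVN_Stmt) (h2 : WVL_Stmt) (h3 : CUT_Stmt) (h4 : LOW_Stmt)
    (h5 : Pool.Agent.EXW.QGV_Stmt) : WCS_Stmt := by
  obtain ⟨Kg, hGVN⟩ := h1
  obtain ⟨K1, hWVL⟩ := h2
  obtain ⟨K2, hCUT⟩ := h3 K1
  obtain ⟨A1, hA1, hLOW⟩ := h4
  obtain ⟨Kq, hQ⟩ := h5
  obtain ⟨x0, hx0⟩ := exp_wins (30 * K2 + 39) 8192
  refine ⟨max 2 (max A1 x0), le_max_left _ _, fun A hA => ?_⟩
  have hA2 : 2 ≤ A := (le_max_left _ _).trans hA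
  have hAA1 : A1 ≤ A := ((le_max_left _ _).trans (le_max_right _ _)).trans hA
  have hAx : x0 ≤ A := ((le_max_right _ _).trans (le_max_right _ _)).trans hA
  set K3 := ⌈Real.exp ((((A : ℝ) ^ A) ^ 3) ^ Kq)⌉₊ with hK3
  set e := 3 * Kg + 3 with he
  set P := 28 * K2 + 47 with hPdef
  set K := K3 + e * (3 * K2 + 4) + e * (P + 1) + e + 3 with hKdef
  refine ⟨K, fun n f hf => ?_⟩
  suffices H : ∀ M : ℝ, M = Mp A f → M ^ K ≤ n →
      ∀ d : Dat2 M (1 - M⁻¹) n (Real.exp (-f)), ∃ V : ℤ → ℝ,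
        CritW (M ^ K) d.G (GE.sr d.G.rho (2 * n) (capW n (Real.exp (-f)))) V from H _ rfl
  intro M hMdef hn d
  have hM2 : 2 ≤ M := hMdef ▸ two_le_Mp hA2 hf
  have hM0 : 0 < M := by linarith
  have hM1 : 1 ≤ M := by linarith
  have hM3 : M ≤ M ^ 3 := le_self_pow₀ hM1 (by norm_num)
  have hpm : ∀ {x y : ℕ}, x ≤ y → M ^ x ≤ M ^ y := fun h => pow_le_pow_right₀ hM1 h
  have hcls := cls_mono hM2 hM3 d.cls
  have hsrc := QMODaux.crit_sr hM2 d.cls d.cap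
  rcases lt_or_ge 1 f with h1f | hf1
  · -- large force
    obtain ⟨v, hv⟩ := hQ (M ^ 3) (hM2.trans hM3) d.G hcls _ _ hsrc
    refine ⟨v, (critW_of_critSol (Real.exp_pos _) hv).mono (Real.exp_pos _) ?_⟩
    have eM : M = (A : ℝ) ^ A := by
      rw [hMdef]
      unfold Mp
      rw [min_eq_right h1f.le, div_one]
    have h6 : Real.exp ((M ^ 3) ^ Kq) ≤ (K3 : ℝ) := by
      rw [eM]
      exact Nat.le_ceil _
    calc Real.exp ((M ^ 3) ^ Kq) ≤ (K3 : ℝ) := h6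
      _ ≤ M ^ K3 := QCSaux.pow_bound hM2 K3
      _ ≤ M ^ K := hpm (by omega)
  · -- small force
    obtain ⟨V, hV0⟩ := hGVN (M ^ 3) (hM2.trans hM3) d.G hcls _ _ hsrc
    set D := M ^ e with hDdef
    have hMD : M ≤ D := le_self_pow₀ hM1 (by omega)
    have hD2 : 2 ≤ D := hM2.trans hMD
    have hD1 : 1 ≤ D := by linarith
    have hD0 : 0 < D := by linarith
    have hM3D : M ^ 3 ≤ D := hpm (by omega)
    have hV : CritN D d.G (GE.sr d.G.rho (2 * n) (capW n (Real.exp (-f)))) V := by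
      refine hV0.mono ?_
      rw [← pow_mul]
      exact hpm (by omega)
    have hcD := cls_mono hM2 hMD d.cls
    have hcapD := clsCap_mono hM2 hMD d.cap
    have hsD := critSrc_mono (hM2.trans hM3) hM3D hsrc
    obtain ⟨A', hL⟩ := hWVL D hD2 d.G hcD _ _ V hsD hV
    have hcut := hCUT D hD2 d.G hcD _ _ d.B V A' hcapD d.sol hV hL
    set W := ⌈D ^ (K2 + 1)⌉₊ with hWdef
    set N1 := ⌈D ^ (3 * K2 + 4)⌉₊ with hN1def
    have hW1 : D ^ (K2 + 1) ≤ (W : ℝ) := Nat.le_ceil _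
    have hW2 : (W : ℝ) ≤ 2 * D ^ (K2 + 1) := ceil_le (one_le_pow₀ hD1)
    have hN1 : D ^ (3 * K2 + 4) ≤ (N1 : ℝ) := Nat.le_ceil _
    have hN2 : (N1 : ℝ) ≤ 2 * D ^ (3 * K2 + 4) := ceil_le (one_le_pow₀ hD1)
    have hE : Mp A1 f ≤ D := by
      refine le_trans ?_ hMD
      rw [hMdef]
      exact Mp_mono hA1 hAA1 hf
    have hEN : Mp A1 f ≤ (N1 : ℝ) := (hE.trans (le_self_pow₀ hD1 (by omega))).trans hN1
    have hNn : 2 * N1 + 3 ≤ n := by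
      have t1 : 2 * (N1 : ℝ) + 3 ≤ n := by
        have t2 : 1 ≤ D ^ (3 * K2 + 4) := one_le_pow₀ hD1
        have t3 : (8 : ℝ) ≤ M ^ 3 := by
          calc (8 : ℝ) = 2 ^ 3 := by norm_num
            _ ≤ M ^ 3 := pow_le_pow_left₀ (by norm_num) hM2 3
        calc 2 * (N1 : ℝ) + 3 ≤ 8 * D ^ (3 * K2 + 4) := by linarith
          _ ≤ M ^ 3 * D ^ (3 * K2 + 4) := mul_le_mul_of_nonneg_right t3 (by linarith)
          _ = M ^ (3 + e * (3 * K2 + 4)) := by rw [hDdef, ← pow_mul, ← pow_add]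
          _ ≤ M ^ K := hpm (by omega)
          _ ≤ n := hn
      exact_mod_cast t1
    obtain ⟨m, hm1, -, hm3⟩ := hLOW f hf hf1 n N1 d.G.rho hEN hNn d.G.rho_pos d.crit
    rw [← d.arEq m 1 le_rfl] at hm3
    have hWD : D ^ K2 ≤ (W : ℝ) := (pow_le_pow_right₀ hD1 (by omega)).trans hW1
    have hmain := hm3.trans (hcut W m hWD)
    have hAD : (x0 : ℝ) ≤ D := by
      have t1 : (x0 : ℝ) ≤ A := by exact_mod_cast hAx
      have t2 : (A : ℝ) ≤ M := hMdef ▸ A_le_Mp hA2 hf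
      exact (t1.trans t2).trans hMD
    have hlow : (D ^ P)⁻¹ ≤ A' := by
      refine arith hD2 hL.nonneg hW1 hW2 hN1 hN2 ?_ hE (Mp_pos hA1 hf) (hx0 D hAD) hmain
      exact_mod_cast hm1
    have hA'0 : 0 < A' := (inv_pos.2 (pow_pos hD0 P)).trans_le hlow
    refine ⟨V, ?_⟩
    have hDK : D ^ (P + 1) ≤ M ^ K := by
      rw [hDdef, ← pow_mul]
      exact hpm (by omega)
    refine { toCritN := hV.mono (hpm (by omega)), far := fun g0 => ?_ }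
    obtain ⟨g, hg0, hg⟩ := far_of_lim hL hA'0 g0
    refine ⟨g, hg0, ?_⟩
    calc (M ^ K)⁻¹ ≤ (D ^ (P + 1))⁻¹ := inv_anti₀ (pow_pos hD0 _) hDK
      _ = (D ^ P)⁻¹ * D⁻¹ := by rw [pow_succ, mul_inv]
      _ ≤ A' * 2⁻¹ := mul_le_mul hlow (inv_anti₀ (by norm_num) hD2) (inv_pos.2 hD0).le hA'0.le
      _ = A' / 2 := by rw [div_eq_mul_inv]
      _ ≤ V g := hg

end Pool.Agent.PFW
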