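import Pool.Agent.PFW.StmtsW
import Pool.Agent.EXW.QE

/-!
# Project PFW, module WE (port of `EXW/QE.lean`)
-/

set_option autoImplicit false

namespace Pool.Agent.PFW

open Finset Filter Topology
open Pool.Agent.Gap Pool.Agent.FL Pool.Agent.EXW
open Pool.Agent.EXW.QE

theorem t_WE (hRE : QGRE_Stmt) (hW : QGW_Stmt) (hEB : QGEB_Stmt) (hPAR : QPAR_Stmt)
    (_hS0 : QS0_Stmt) (hETA : QETA_Stmt) (hRB : QRB_Stmt) : WE_Stmt := by
  obtain ⟨Kr, hr⟩ := hRE
  obtain ⟨Kw, hw'⟩ := hW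
  obtain ⟨Ke, hE⟩ := hEB
  obtain ⟨P0, P1, hP⟩ := hPAR
  obtain ⟨Ce, hCe, hη⟩ := hETA
  obtain ⟨R0, R1, hR⟩ := hRB
  obtain ⟨Ks, hBsum⟩ := sum_pow 2
  have hT : PB fun D => D * (D * ∑' m : ℕ, (m : ℝ) ^ 5 * (1 - D⁻¹) ^ m) :=
    PB.id.mul (PB.id.mul (PB.geo' 5 (fun D hD => (th_pos hD).le) LB.inv_self fun D _ => le_rfl))
  obtain ⟨Kt, hKt⟩ := hT.le
  intro K
  obtain ⟨K1, hK1⟩ := (pb_fF Kt P1 K Ke Kw Kr R1 Ks Ce).le
  refine ⟨max P0 R0, K1, ?_⟩
  intro D W G n n0 eps eps' hS C0 s V A hs hV hL w N v v0 hw1 hwW hN hv hv0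
  have hD := hS.D2
  have hW2 := hS.W2
  have hcls := hS.cls
  have he0' := hS.eps_nonneg
  have heW := hS.eps_le
  obtain ⟨⟨hn, hn0, hWn, hWn0, hnn0, hn0n⟩, ⟨he0, he1, he1', hen, hen'⟩, hPw⟩ :=
    hP D W G n n0 eps eps' (sc_mono (le_max_left _ _) hS)
  obtain ⟨hz1, hz2, hz3, hδ'n, hδn, hδn', _⟩ := hPw w hw1 hwW
  have hRBb := hR D W G n n0 eps eps' (sc_mono (le_max_right _ _) hS) w N v0 hw1 hwW hN hv0
  have hX : 4 ≤ D * W := by nlinarith
  have hDX : D ≤ D * W := by nlinarith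
  have hWX : W ≤ D * W := by nlinarith
  generalize D * W = X at *
  refine le_trans ?_ (hK1 X (by linarith))
  have hX0 : 0 < X := by linarith
  have hX1 : 1 ≤ X := by linarith
  have hDp : ∀ k : ℕ, D ^ k ≤ X ^ k := fun k => pow_le_pow_left₀ (by linarith) hDX k
  have hwre : 0 < w.re := by rw [hw1]; exact one_pos
  have hn1 : (1 : ℝ) ≤ n := by exact_mod_cast hn
  have hn' : (0 : ℝ) < n := by linarith
  have hzle : ‖zn G.rho w n‖ ≤ G.rho := zn_norm_le _ G.rho_pos w hwre n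
  have hz'le : ‖zn (1 / 4) w n0‖ ≤ 1 / 4 := zn_norm_le (1 / 4) (by norm_num) w hwre _
  have hne : zn G.rho w n ≠ (G.rho : ℂ) := zn_ne _ G.rho_pos w hwre n hn
  have hθ0 := th_pos hD
  have hθ1 := th_lt hD
  have hD0 : 0 < D := by linarith
  -- the staircase solution near the wall
  have hη0 : 0 ≤ Ce * W * (qn n0)⁻¹ := by
    have := qn_nonneg n0
    positivity
  have hηb := hη W n0 N eps' w v0 (by linarith) hWn0 (by nlinarith) hw1 hwW he0' heW hv0
  obtain ⟨rb, rl, hres, hrb, hrl⟩ := hE D hD G hcls N eps eps' (Ce * W * (qn n0)⁻¹)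
    (zn G.rho w n) (zn (1 / 4) w n0) v0 he0 he1 he0' he1' hzle hz'le hz3 hη0 hv0 hηb
  obtain ⟨hSb, hδu, hεn⟩ := QE.scale (n0 := n0) (N := N) hCe hX hD hDX hWX hn hn0 hnn0 hN hδn
    hδ'n hen hen'
  generalize hzz : zn G.rho w n = z at *
  generalize hzz' : zn (1 / 4) w n0 = z' at *
  set δ : ℝ := ‖(G.rho : ℂ) - z‖ with hδdef
  have hδpos : 0 < δ := norm_pos_iff.mpr (sub_ne_zero.mpr hne.symm)
  have hq := qn_pos n hn
  set u := (qn n)⁻¹ with hu
  have hu0 : 0 < u := inv_pos.mpr hq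
  have hu4 : (n : ℝ)⁻¹ = u ^ 4 := by rw [hu, inv_pow, qn_four]
  have hA0 : 0 ≤ A := le_trans (by positivity) hL.low
  have hAX : A ≤ X ^ K := hL.up.trans (hDp K)
  -- the bulk residual
  have hrbX : Real.sqrt (nsq N rb) ≤ X ^ Ke * X ^ R1 / n := by
    have hDe : 1 ≤ D ^ Ke := one_le_pow₀ (by linarith)
    have ha : 0 ≤ ‖2 * (G.sig2 : ℂ) * (1 - 4 * z') - (G.mbar : ℂ) * (1 - z / (G.rho : ℂ))‖
        * Real.sqrt (nsq N v0) := by positivity
    have hb : 0 ≤ 2 * |2 * G.sig2 * eps' - G.hbar * eps| * Real.sqrt (nsq N (mulg 1 v0)) := by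
      positivity
    generalize ‖2 * (G.sig2 : ℂ) * (1 - 4 * z') - (G.mbar : ℂ) * (1 - z / (G.rho : ℂ))‖
        * Real.sqrt (nsq N v0) = a at *
    generalize 2 * |2 * G.sig2 * eps' - G.hbar * eps| * Real.sqrt (nsq N (mulg 1 v0)) = b at *
    have h1 := mul_le_mul_of_nonneg_left hRBb (by positivity : (0 : ℝ) ≤ D ^ Ke)
    have h2 : D ^ Ke * (X ^ R1 / n) ≤ X ^ Ke * (X ^ R1 / n) :=
      mul_le_mul_of_nonneg_right (hDp Ke) (by positivity)
    have h3 : X ^ Ke * (X ^ R1 / n) = X ^ Ke * X ^ R1 / n := by ring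
    nlinarith
  -- the two parts of the source
  set cd : ℤ → ℂ := fun g => capz C0 s 0 z g - (GE.sr G.rho C0 s g : ℂ) with hcd
  set e1 : ℤ → ℂ := fun g => cd g - (A : ℂ) * rl g with he1d
  set edge : ℤ → ℂ := fun g =>
    ((∑ g' ∈ (Icc (g - G.R) (g + G.R)).filter (fun g' => ((N : ℕ) : ℤ) < g'),
      G.Kc g g' * (V g' - A) : ℝ) : ℂ) with hedge
  set Dd : ℤ → ℂ := Df G eps z N (Yf N V A) with hDdef
  set e2 : ℤ → ℂ := fun g => (-((A : ℂ) * rb g)) + (-edge g) + (-Dd g) with he2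
  set Wd : ℤ → ℂ := fun g => v g - (A : ℂ) * v0 g - Yf N V A g with hWdef
  obtain ⟨W1, hW1⟩ := (hr D hD G hcls N eps z he0 hzle).1 e1
  have hWeq : ∀ g ∈ Icc (1 : ℤ) N, G.Lop eps z N Wd g = e1 g + e2 g := by
    intro g hg
    have hL' : G.Lop eps z N Wd g
        = capz C0 s 0 z g - (A : ℂ) * G.Lop eps z N v0 g - G.Lop eps z N (Yf N V A) g := by
      have e3 : Wd = fun x => (fun y => v y - (fun t => (A : ℂ) * v0 t) y) x
          - Yf N V A x := rfl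
      rw [e3, QE.Lop_sub, QE.Lop_sub, QE.Lop_smul, hv.2 g hg]
    rw [hL', Lop_eq_crit G eps z N (Yf N V A) g,
      Lop_Yf G N (GE.sr G.rho C0 s) V A hV.eq g hg, hres g hg]
    simp only [he1d, he2, hedge, hDdef, hcd]
    push_cast
    ring
  have hW2' : G.Solves eps z N (fun g => Wd g - W1 g) e2 := by
    refine ⟨fun g hg => ?_, fun g hg => ?_⟩
    · have h1 := hv.1 g hg
      have h2 := hv0.1 g hg
      have h3 := hW1.1 g hg
      have h4 : Yf N V A g = 0 := by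
        unfold Yf
        rw [if_neg]
        omega
      simp only [hWdef, h1, h2, h3, h4]
      ring
    · rw [QE.Lop_sub, hWeq g hg, hW1.2 g hg]
      ring
  -- weighted norm of `e1`
  have hfa0 : 0 ≤ QE.fa Kt P1 K Ke Ce X := by
    unfold QE.fa
    positivity
  have hlw : lw 4 N e1 ≤ QE.fa Kt P1 K Ke Ce X * u := by
    have h1 := GE.lw_sub_smul 4 N cd rl (A : ℂ)
    have h2 := GE.lw_capdiff hD0 hθ0 hθ1 hcls hs N z hzle
    have h4 : ‖(A : ℂ)‖ ≤ X ^ K := by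
      rw [Complex.norm_real, Real.norm_of_nonneg hA0]
      exact hAX
    have h5 : lw 4 N rl ≤ X ^ Ke * ((Ce * X * X ^ P1 + 4 * X ^ P1 + 1) * u) :=
      hrl.trans (mul_le_mul (hDp Ke) hSb (by positivity) (by positivity))
    have h6 : ‖(A : ℂ)‖ * lw 4 N rl ≤
        X ^ K * (X ^ Ke * ((Ce * X * X ^ P1 + 4 * X ^ P1 + 1) * u)) :=
      mul_le_mul h4 h5 (GE.lw_nonneg _ _ _) (by positivity)
    have h7 : lw 4 N cd ≤ X ^ Kt * (X ^ P1 * u) := by
      refine h2.trans (mul_le_mul ((hKt D hD).trans (hDp Kt)) hδu (norm_nonneg _)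
        (by positivity))
    unfold QE.fa
    calc lw 4 N e1 ≤ lw 4 N cd + ‖(A : ℂ)‖ * lw 4 N rl := h1
      _ ≤ X ^ Kt * (X ^ P1 * u) +
          X ^ K * (X ^ Ke * ((Ce * X * X ^ P1 + 4 * X ^ P1 + 1) * u)) := add_le_add h7 h6
      _ = _ := by ring
  -- W1
  have hδlow : (X ^ P1)⁻¹ ≤ δ * n := (inv_anti₀ (by positivity) (hDp P1)).trans hδn'
  have hT1 : nsq N W1 ≤ X ^ Kw * QE.fa Kt P1 K Ke Ce X ^ 2 * X ^ P1 := by
    have h1 := (hw' D hD G hcls N eps z W1 e1 he0 hzle hne hW1).1 0 (by norm_num)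
    rw [nsq_mulg_zero, pow_zero, mul_one] at h1
    have hsδ : (X ^ P1)⁻¹ * u ^ 2 ≤ Real.sqrt δ := by
      refine Real.le_sqrt_of_sq_le ?_
      have h2 : δ = δ * n * u ^ 4 := by
        rw [← hu4]
        field_simp
      rw [h2, mul_pow]
      have h3 : ((X ^ P1)⁻¹) ^ 2 ≤ δ * n := by
        refine le_trans ?_ hδlow
        have h4 : (X ^ P1)⁻¹ ≤ 1 := inv_le_one_of_one_le₀ (one_le_pow₀ hX1)
        have h5 : 0 ≤ (X ^ P1)⁻¹ := by positivity
        nlinarith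
      have h4 : (u ^ 2) ^ 2 = u ^ 4 := by ring
      rw [h4]
      exact mul_le_mul_of_nonneg_right h3 (by positivity)
    have hsδ0 : 0 < Real.sqrt δ := Real.sqrt_pos.mpr hδpos
    have hus : u ^ 2 / Real.sqrt δ ≤ X ^ P1 := by
      rw [div_le_iff₀ hsδ0]
      have h2 := mul_le_mul_of_nonneg_left hsδ (by positivity : (0 : ℝ) ≤ X ^ P1)
      have h3 : X ^ P1 * ((X ^ P1)⁻¹ * u ^ 2) = u ^ 2 := by
        rw [← mul_assoc, mul_inv_cancel₀ (by positivity), one_mul]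
      linarith
    calc nsq N W1 ≤ D ^ Kw * (lw 4 N e1) ^ 2 / Real.sqrt δ := h1
      _ ≤ X ^ Kw * (QE.fa Kt P1 K Ke Ce X * u) ^ 2 / Real.sqrt δ := by
          refine div_le_div_of_nonneg_right ?_ hsδ0.le
          refine mul_le_mul (hDp Kw) ?_ (sq_nonneg _) (by positivity)
          exact pow_le_pow_left₀ (GE.lw_nonneg _ _ _) hlw 2
      _ = X ^ Kw * QE.fa Kt P1 K Ke Ce X ^ 2 * (u ^ 2 / Real.sqrt δ) := by ring
      _ ≤ _ := mul_le_mul_of_nonneg_left hus (by positivity)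
  -- e2
  have hVsum := hL.sum
  have hE2 : nsq N e2 ≤ 3 * QE.fM P1 K Ke R1 Ks X / (n : ℝ) ^ 2 := by
    have hNn : 1 ≤ N := by nlinarith
    have hN' : (0 : ℝ) < N := by exact_mod_cast hNn
    have hNn2 : (n : ℝ) ^ 2 ≤ N := by
      have h1 : n ^ 2 ≤ N := by nlinarith
      exact_mod_cast h1
    have h3 := nsq_add3 N (fun g => -((A : ℂ) * rb g)) (fun g => -edge g) (fun g => -Dd g)
    have h4 : nsq N (fun g => -((A : ℂ) * rb g)) ≤
        X ^ (2 * K) * (X ^ Ke * X ^ R1) ^ 2 / (n : ℝ) ^ 2 := by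
      have h5 : nsq N (fun g => -((A : ℂ) * rb g)) = A ^ 2 * nsq N rb := by
        unfold nsq
        rw [Finset.mul_sum]
        refine Finset.sum_congr rfl fun g _ => ?_
        rw [norm_neg, norm_mul, mul_pow, Complex.norm_real, Real.norm_eq_abs, sq_abs]
      rw [h5]
      have h6 : nsq N rb ≤ (X ^ Ke * X ^ R1 / n) ^ 2 := by
        rw [← Real.sq_sqrt (nsq_nonneg N rb)]
        exact pow_le_pow_left₀ (Real.sqrt_nonneg _) hrbX 2
      have h7 : A ^ 2 ≤ X ^ (2 * K) := by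
        rw [mul_comm 2 K, pow_mul]
        exact pow_le_pow_left₀ hA0 hAX 2
      calc A ^ 2 * nsq N rb ≤ X ^ (2 * K) * (X ^ Ke * X ^ R1 / n) ^ 2 :=
            mul_le_mul h7 h6 (nsq_nonneg _ _) (by positivity)
        _ = _ := by ring
    have h5 : nsq N (fun g => -edge g) ≤ X ^ K / (n : ℝ) ^ 2 := by
      have h8 := GE.nsq_edge' G V A (D ^ K) hVsum N hNn
      have h9 : nsq N (fun g => -edge g) ≤ D ^ K / N := by
        refine le_trans (le_of_eq ?_) h8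
        unfold nsq
        refine Finset.sum_congr rfl fun g _ => ?_
        rw [norm_neg]
      refine h9.trans ?_
      exact div_le_div₀ (by positivity) (hDp K) (by positivity) hNn2
    have h6 : nsq N (fun g => -Dd g) ≤
        ((X + 1) * (4 * X ^ Ks)) ^ 2 * (2 * X ^ P1) ^ 2 * X ^ K / (n : ℝ) ^ 2 := by
      have h8 := GE.nsq_Df' hD0 (by positivity : (0 : ℝ) ≤ D ^ Ks) hcls (hBsum D hD G hcls)
        eps z N V A (D ^ K) he0 hzle (hVsum N)
      have h9 : nsq N (fun g => -Dd g) ≤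
          ((D + 1) * (4 * D ^ Ks)) ^ 2 * (δ + eps) ^ 2 * D ^ K := by
        refine le_trans (le_of_eq ?_) h8
        unfold nsq
        refine Finset.sum_congr rfl fun g _ => ?_
        rw [norm_neg]
      refine h9.trans ?_
      have h10 : δ + eps ≤ 2 * X ^ P1 / n := by
        rw [le_div_iff₀ hn']
        linarith
      have h11 : (D + 1) * (4 * D ^ Ks) ≤ (X + 1) * (4 * X ^ Ks) := by
        have := hDp Ks
        refine mul_le_mul (by linarith) (by linarith) (by positivity) (by positivity)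
      calc ((D + 1) * (4 * D ^ Ks)) ^ 2 * (δ + eps) ^ 2 * D ^ K
          ≤ ((X + 1) * (4 * X ^ Ks)) ^ 2 * (2 * X ^ P1 / n) ^ 2 * X ^ K := by
            refine mul_le_mul (mul_le_mul ?_ ?_ (sq_nonneg _) (sq_nonneg _)) (hDp K)
              (by positivity) (by positivity)
            · exact pow_le_pow_left₀ (by positivity) h11 2
            · exact pow_le_pow_left₀ (by positivity) h10 2
        _ = _ := by ring
    unfold QE.fM
    calc nsq N e2 ≤ _ := h3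
      _ ≤ 3 * (X ^ (2 * K) * (X ^ Ke * X ^ R1) ^ 2 / (n : ℝ) ^ 2 + X ^ K / (n : ℝ) ^ 2
          + ((X + 1) * (4 * X ^ Ks)) ^ 2 * (2 * X ^ P1) ^ 2 * X ^ K / (n : ℝ) ^ 2) := by
          linarith
      _ = _ := by ring
  -- W2
  have hT2 : nsq N (fun g => Wd g - W1 g) ≤
      X ^ (2 * Kr) * (3 * QE.fM P1 K Ke R1 Ks X) * X ^ (2 * P1) := by
    have h1 := ((hr D hD G hcls N eps z he0 hzle).2.2 _ _ hW2').1
    set Y := nsq N (fun g => Wd g - W1 g) with hY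
    have hY0 : 0 ≤ Y := nsq_nonneg _ _
    have hE0 := nsq_nonneg N e2
    have h2 : δ ^ 2 * Y ≤ X ^ (2 * Kr) * nsq N e2 := by
      have h3 : (δ * Real.sqrt Y) ^ 2 ≤ (D ^ Kr * Real.sqrt (nsq N e2)) ^ 2 :=
        pow_le_pow_left₀ (by positivity) h1 2
      rw [mul_pow, mul_pow, Real.sq_sqrt hY0, Real.sq_sqrt hE0] at h3
      refine h3.trans (mul_le_mul_of_nonneg_right ?_ hE0)
      rw [mul_comm 2 Kr, pow_mul]
      exact pow_le_pow_left₀ (by positivity) (hDp Kr) 2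
    have h4 : (δ * n) ^ 2 * Y ≤ X ^ (2 * Kr) * (3 * QE.fM P1 K Ke R1 Ks X) := by
      have h5 := h2.trans (mul_le_mul_of_nonneg_left hE2 (by positivity))
      have h6 := mul_le_mul_of_nonneg_right h5 (by positivity : (0 : ℝ) ≤ (n : ℝ) ^ 2)
      calc (δ * n) ^ 2 * Y = δ ^ 2 * Y * (n : ℝ) ^ 2 := by ring
        _ ≤ _ := h6
        _ = _ := by field_simp
    have h5 : ((X ^ P1)⁻¹) ^ 2 ≤ (δ * n) ^ 2 := pow_le_pow_left₀ (by positivity) hδlow 2
    have h6 : ((X ^ P1)⁻¹) ^ 2 * Y ≤ X ^ (2 * Kr) * (3 * QE.fM P1 K Ke R1 Ks X) :=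
      (mul_le_mul_of_nonneg_right h5 hY0).trans h4
    have h7 := mul_le_mul_of_nonneg_right h6 (by positivity : (0 : ℝ) ≤ X ^ (2 * P1))
    have h8 : ((X ^ P1)⁻¹) ^ 2 * Y * X ^ (2 * P1) = Y := by
      rw [mul_comm 2 P1, pow_mul]
      field_simp
    linarith
  -- Y
  have hT3 : nsq N (Yf N V A) ≤ X ^ K := (nsq_Yf N V A (D ^ K) (hVsum N)).trans (hDp K)
  -- conclusion
  have h1 := nsq_add3 N W1 (fun g => Wd g - W1 g) (Yf N V A)
  have h2 : nsq N (fun g => W1 g + (Wd g - W1 g) + Yf N V A g)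
      = nsq N (fun g => v g - (A : ℂ) * v0 g) := by
    refine nsq_congr _ _ _ fun g _ => ?_
    simp only [hWdef]
    ring
  rw [h2] at h1
  unfold QE.fF
  linarith

end Pool.Agent.PFW
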