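import Pool.Agent.PFW.StmtsW

/-!
# Project PFW, module WFIN (port of `EXW/QFIN.lean`): the universal law
-/

set_option autoImplicit false

open Finset Filter Topology MeasureTheory
open scoped NNReal ENNReal

namespace Pool.Agent.PFW

open Pool.Agent.Gap Pool.Agent.FL Pool.Agent.EXW

/-- the universal law -/
theorem t_WFIN (hSIDE : WSIDE_Stmt) (hKEY : WKEY_Stmt) (oLT : Gap.LT_Stmt)
    (oLT1 : Gap.LT1_Stmt) (oM2 : Gap.M2_Stmt) (oBAL : Gap.BAL_Stmt) : WFIN_Stmt := by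
  obtain ⟨L, m0, C', hL0, hm0, hC', hL, hexp⟩ := stair_side oLT1 oM2 oBAL
  -- laws of a slowly varying sequence of models
  obtain ⟨Kw, K, hS⟩ := hSIDE L m0 C' hL0 hm0 hL hexp
  obtain ⟨K', hK'⟩ : ∃ K' : ℕ, K' = max Kw (2 * K) := ⟨_, rfl⟩
  have key : ∀ D : ℕ → ℝ, SlowK K' D → ∀ M : WModel D, M.Kap K' →
      ∃ ν : ℕ → ProbabilityMeasure ℝ≥0,
      (∀ k, ∀ K : ℝ≥0, 0 < K → (ν k : Measure ℝ≥0) {x | K < x} ≤ 1 / (K : ℝ≥0∞)) ∧
      (∀ j : ℕ, Tendsto (fun k => ∫ x, Real.exp (-((j : ℝ) * (x : ℝ))) ∂(ν k : Measure ℝ≥0))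
        atTop (𝓝 (L (j / m0) / L 0))) ∧
      ∀ᶠ k in atTop, ∀ x : ℝ,
        M.cdf k x = ((ν k : Measure ℝ≥0) {z | (z : ℝ) ≤ x}).toReal := by
    intro D hD M hκ
    obtain ⟨h1, h2, h3⟩ := hS D (hD.mono (by omega)) M
    have hκ2 : M.Kap (2 * K) := by
      have hκ' : Tendsto (fun n => M.κ n * D n ^ K') atTop (𝓝 0) := hκ
      have h4 := hκ'.abs
      rw [abs_zero] at h4
      refine squeeze_zero_norm (fun n => ?_) h4
      have h5 := hD.two_le n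
      have h6 : 0 < D n := by linarith
      rw [Real.norm_eq_abs, abs_mul, abs_mul, abs_of_pos (pow_pos h6 _), abs_of_pos (pow_pos h6 _)]
      exact mul_le_mul_of_nonneg_left (pow_le_pow_right₀ (by linarith) (by omega)) (abs_nonneg _)
    exact hKEY D hD.two_le M K hκ2 h1 h2 (fun j => L (j / m0) / L 0)
      (fun j => h3 j (Nat.cast_nonneg j))
  by_cases h : ∃ ν : ℕ → ProbabilityMeasure ℝ≥0,
      (∀ k, ∀ K : ℝ≥0, 0 < K → (ν k : Measure ℝ≥0) {x | K < x} ≤ 1 / (K : ℝ≥0∞)) ∧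
      (∀ j : ℕ, Tendsto (fun k => ∫ x, Real.exp (-((j : ℝ) * (x : ℝ))) ∂(ν k : Measure ℝ≥0))
        atTop (𝓝 (L (j / m0) / L 0)))
  · obtain ⟨ν1, ht1, hl1⟩ := h
    obtain ⟨μ, hμ⟩ := exists_limit ht1 hl1
    have hlaw : ∀ ν : ℕ → ProbabilityMeasure ℝ≥0,
        (∀ k, ∀ K : ℝ≥0, 0 < K → (ν k : Measure ℝ≥0) {x | K < x} ≤ 1 / (K : ℝ≥0∞)) →
        (∀ j : ℕ, Tendsto (fun k => ∫ x, Real.exp (-((j : ℝ) * (x : ℝ)))
          ∂(ν k : Measure ℝ≥0)) atTop (𝓝 (L (j / m0) / L 0))) → Tendsto ν atTop (𝓝 μ) := by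
      intro ν h1 h2
      refine tendsto_of_laplace h1 fun j => ?_
      rw [hμ j]
      exact h2 j
    refine ⟨(μ : Measure ℝ≥0).map (fun z : ℝ≥0 => (z : ℝ)),
      Measure.isProbabilityMeasure_map measurable_coe_nnreal_real.aemeasurable,
      fun M x hx => ?_, K', fun D hD M hκ x hx => ?_⟩
    · obtain ⟨ν, ht, hl, hc⟩ := M.key oLT oM2 hL0 hm0 hL hexp
      refine GFIN.conv_of_laws (hlaw ν ht hl) hx ?_
      filter_upwards [hc] with n hn using hn x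
    · obtain ⟨ν, ht, hl, hc⟩ := key D hD M hκ
      refine GFIN.conv_of_laws (hlaw ν ht hl) hx ?_
      filter_upwards [hc] with n hn using hn x
  · refine ⟨Measure.dirac 0, inferInstance, fun M => ?_, K', fun D hD M hκ => ?_⟩
    · obtain ⟨ν, ht, hl, hc⟩ := M.key oLT oM2 hL0 hm0 hL hexp
      exact (h ⟨ν, ht, hl⟩).elim
    · obtain ⟨ν, ht, hl, hc⟩ := key D hD M hκ
      exact (h ⟨ν, ht, hl⟩).elim

end Pool.Agent.PFW
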