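import Pool.Agent.PFW.StmtsC

/-!
# PFW, module WGVL: the limit of a critical solution is bounded below
-/

set_option autoImplicit false

open Finset Filter Topology

namespace Pool.Agent.PFW

open Pool.Agent.Gap Pool.Agent.FL Pool.Agent.EXW

namespace WGVLx

/-- one term of the sum -/
theorem oneg {V : ℤ → ℝ} {A X : ℝ}
    (h : ∀ N : ℕ, ∑ g ∈ Icc (1 : ℤ) N, (g : ℝ) ^ 2 * (V g - A) ^ 2 ≤ X) (g : ℤ) (hg : 1 ≤ g) :
    (g : ℝ) ^ 2 * (V g - A) ^ 2 ≤ X := by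
  refine le_trans ?_ (h g.toNat)
  refine Finset.single_le_sum (f := fun g : ℤ => (g : ℝ) ^ 2 * (V g - A) ^ 2)
    (fun i _ => mul_nonneg (sq_nonneg _) (sq_nonneg _)) ?_
  rw [mem_Icc]
  exact ⟨hg, by rw [Int.toNat_of_nonneg (by omega)]⟩

/-- the lower bound of the limit -/
theorem low {V : ℤ → ℝ} {A X c : ℝ}
    (h : ∀ N : ℕ, ∑ g ∈ Icc (1 : ℤ) N, (g : ℝ) ^ 2 * (V g - A) ^ 2 ≤ X)
    (hf : ∀ g0 : ℤ, ∃ g : ℤ, g0 ≤ g ∧ c ≤ V g) : c ≤ A := by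
  by_contra hc
  push Not at hc
  have hd : 0 < c - A := sub_pos.2 hc
  obtain ⟨m, hm⟩ := exists_nat_gt (X / (c - A) ^ 2)
  obtain ⟨g, hg1, hg2⟩ := hf ((m : ℤ) + 1)
  have hg : 1 ≤ g := by omega
  have h1 := oneg h g hg
  have h2 : (c - A) ^ 2 ≤ (V g - A) ^ 2 := pow_le_pow_left₀ hd.le (by linarith) 2
  have h3 : (m : ℝ) ≤ (g : ℝ) ^ 2 := by
    have h4 : ((m : ℤ) : ℝ) + 1 ≤ (g : ℝ) := by exact_mod_cast hg1
    have h5 : (0 : ℝ) ≤ m := Nat.cast_nonneg m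
    have h6 : (m : ℝ) + 1 ≤ (g : ℝ) := by simpa using h4
    nlinarith
  have h7 : X < m * (c - A) ^ 2 := (div_lt_iff₀ (by positivity)).1 hm
  have h8 : (m : ℝ) * (c - A) ^ 2 ≤ (g : ℝ) ^ 2 * (V g - A) ^ 2 :=
    mul_le_mul h3 h2 (sq_nonneg _) (sq_nonneg _)
  linarith

end WGVLx

/-- MODULE WGVL. -/
theorem t_WGVL (h : WVL_Stmt) : WGVL_Stmt := by
  obtain ⟨K, hK⟩ := h
  refine ⟨K + 1, fun D hD G hG R' s V hs hV => ?_⟩
  have hD0 : 0 < D := by linarith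
  have hD1 : 1 ≤ D := by linarith
  obtain ⟨A, hA⟩ := hK D hD G hG R' s V hs hV.toCritN
  have e1 : D ≤ D ^ (K + 1) := le_self_pow₀ hD1 (by omega)
  have e2 : D ^ K ≤ D ^ (K + 1) := pow_le_pow_right₀ hD1 (by omega)
  refine ⟨A, ⟨?_, hA.up.trans e2, fun N => (hA.sum N).trans e2⟩⟩
  exact (inv_anti₀ hD0 e1).trans (WGVLx.low hA.sum hV.far)

end Pool.Agent.PFW
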