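import Pool.Agent.EXW.Base

/-!
# Project PFW (MP_f6626d_co, polynomial force window): the class parameter

`Mp A f = (A / min f 1) ^ A` for a natural number `A ≥ 2`: every constant of the project is at
most `Mp A f` for an absolute `A`.
-/

set_option autoImplicit false

namespace Pool.Agent.PFW

/-- the class parameter of the force `f` -/
noncomputable def Mp (A : ℕ) (f : ℝ) : ℝ := ((A : ℝ) / min f 1) ^ A

theorem base_ge {A : ℕ} {f : ℝ} (_hA : 2 ≤ A) (hf : 0 < f) : (A : ℝ) ≤ (A : ℝ) / min f 1 := by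
  have h1 : 0 < min f 1 := lt_min hf one_pos
  have h2 : min f 1 ≤ 1 := min_le_right _ _
  have h3 : (0 : ℝ) ≤ A := Nat.cast_nonneg A
  rw [le_div_iff₀ h1]
  nlinarith

theorem two_le_Mp {A : ℕ} {f : ℝ} (hA : 2 ≤ A) (hf : 0 < f) : 2 ≤ Mp A f := by
  have h1 := base_ge hA hf
  have h2 : (2 : ℝ) ≤ A := by exact_mod_cast hA
  unfold Mp
  calc (2 : ℝ) ≤ (A : ℝ) / min f 1 := h2.trans h1
    _ ≤ _ := le_self_pow₀ (by linarith) (by omega)

theorem Mp_pos {A : ℕ} {f : ℝ} (hA : 2 ≤ A) (hf : 0 < f) : 0 < Mp A f := by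
  have := two_le_Mp hA hf
  linarith

theorem A_le_Mp {A : ℕ} {f : ℝ} (hA : 2 ≤ A) (hf : 0 < f) : (A : ℝ) ≤ Mp A f := by
  have h1 := base_ge hA hf
  have h2 : (2 : ℝ) ≤ A := by exact_mod_cast hA
  unfold Mp
  exact h1.trans (le_self_pow₀ (by linarith) (by omega))

theorem Mp_mono {A A' : ℕ} {f : ℝ} (hA : 2 ≤ A) (h : A ≤ A') (hf : 0 < f) : Mp A f ≤ Mp A' f := by
  have h1 := base_ge hA hf
  have h2 : (2 : ℝ) ≤ A := by exact_mod_cast hA
  have h3 : 0 < min f 1 := lt_min hf one_pos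
  have h4 : (A : ℝ) / min f 1 ≤ (A' : ℝ) / min f 1 :=
    div_le_div_of_nonneg_right (by exact_mod_cast h) h3.le
  unfold Mp
  calc ((A : ℝ) / min f 1) ^ A ≤ ((A : ℝ) / min f 1) ^ A' :=
        pow_le_pow_right₀ (by linarith) h
    _ ≤ _ := pow_le_pow_left₀ (by linarith) h4 _

theorem Mp_pow {A K : ℕ} {f : ℝ} (hA : 2 ≤ A) (hK : 1 ≤ K) (hf : 0 < f) :
    Mp A f ^ K ≤ Mp (A * K) f := by
  have h1 := base_ge hA hf
  have h2 : (2 : ℝ) ≤ A := by exact_mod_cast hA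
  have h3 : 0 < min f 1 := lt_min hf one_pos
  unfold Mp
  rw [← pow_mul]
  refine pow_le_pow_left₀ (by linarith) ?_ _
  refine div_le_div_of_nonneg_right ?_ h3.le
  push_cast
  have h4 : (1 : ℝ) ≤ K := by exact_mod_cast hK
  nlinarith

/-- `f⁻¹` is at most `Mp A f` -/
theorem inv_le_Mp {A : ℕ} {f : ℝ} (hA : 2 ≤ A) (hf : 0 < f) (hf1 : f ≤ 1) : f⁻¹ ≤ Mp A f := by
  have h2 : (2 : ℝ) ≤ A := by exact_mod_cast hA
  have h5 := base_ge hA hf
  have h3 : f⁻¹ ≤ (A : ℝ) / min f 1 := by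
    rw [min_eq_left hf1, div_eq_mul_inv]
    have : 0 < f⁻¹ := inv_pos.2 hf
    nlinarith
  unfold Mp
  exact h3.trans (le_self_pow₀ (by linarith) (by omega))

/-- every polynomial in `f⁻¹` is at most `Mp A f` for a suitable `A` -/
theorem poly_le_Mp (c : ℝ) (k : ℕ) : ∃ A : ℕ, 2 ≤ A ∧ ∀ A' : ℕ, A ≤ A' → ∀ f : ℝ, 0 < f →
    c * (1 / min f 1) ^ k ≤ Mp A' f := by
  obtain ⟨a, ha⟩ := exists_nat_ge c
  refine ⟨max (max a k) 2, le_max_right _ _, fun A' hA' f hf => ?_⟩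
  have h3 : 0 < min f 1 := lt_min hf one_pos
  have ha' : a ≤ A' := le_trans (le_trans (le_max_left _ _) (le_max_left _ _)) hA'
  have hk' : k ≤ A' := le_trans (le_trans (le_max_right _ _) (le_max_left _ _)) hA'
  have h2' : 2 ≤ A' := le_trans (le_max_right _ _) hA'
  have hA0 : (2 : ℝ) ≤ A' := by exact_mod_cast h2'
  have hone : 1 ≤ 1 / min f 1 := by
    rw [le_div_iff₀ h3, one_mul]
    exact min_le_right _ _
  have e : Mp A' f = (A' : ℝ) ^ A' * (1 / min f 1) ^ A' := by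
    unfold Mp
    rw [div_eq_mul_one_div, mul_pow]
  rw [e]
  have h4 : c ≤ (A' : ℝ) ^ A' := by
    calc c ≤ (a : ℝ) := ha
      _ ≤ A' := by exact_mod_cast ha'
      _ ≤ _ := le_self_pow₀ (by linarith) (by omega)
  have h5 : (1 / min f 1) ^ k ≤ (1 / min f 1) ^ A' := pow_le_pow_right₀ hone hk'
  calc c * (1 / min f 1) ^ k ≤ (A' : ℝ) ^ A' * (1 / min f 1) ^ k :=
        mul_le_mul_of_nonneg_right h4 (by positivity)
    _ ≤ _ := mul_le_mul_of_nonneg_left h5 (by positivity)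

end Pool.Agent.PFW
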