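import Pool.Agent.EXW.Stmts3
import Pool.Agent.PFW.Par
import Pool.Agent.Lib_helper94.Gap.VEX

/-!
# Project PFW (MP_f6626d_co, polynomial force window): statements of the analysis modules

The critical solution `V` of a kernel of the class `Cls D (1 - D⁻¹)` is no longer bounded below by
a power of `D` at every gap, only far away from the wall (`CritW.far`). The modules `QGVL`, `QCA`,
`QE`, `QP`, `QLT`, `QRAT`, `MOMA`, `MOMD` of project EXW use the lower bound only through the limit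
of `V`; they are repeated here with `CritW` instead of `CritSol` (statements `WGVL` ... `WMD`).
The sequences of models have parameters `D n` with `D n ^ Kw / n → 0` for one fixed `Kw`.
-/

set_option autoImplicit false

open Finset Filter Topology

namespace Pool.Agent.PFW

open Pool.Agent.Gap Pool.Agent.FL Pool.Agent.EXW
open Pool.Agent.KCG (mr)
open Pool.Agent.KCS (airyMoment kap)

/-! ### Critical solutions -/

/-- a nonnegative critical solution with its upper bounds -/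
structure CritN (C : ℝ) (G : GapKernel) (s v : ℤ → ℝ) : Prop where
  zero : ∀ g ≤ 0, v g = 0
  nonneg : ∀ g, 0 ≤ v g
  up : ∀ g, v g ≤ C
  energy : ∀ N : ℕ, ∑ g ∈ Icc (0 : ℤ) N, (v (g + 1) - v g) ^ 2 ≤ C
  eq : ∀ g : ℤ, 1 ≤ g → v g = s g + ∑ g' ∈ Icc (g - G.R) (g + G.R), G.Kc g g' * v g'

/-- a critical solution which is at least `C⁻¹` at arbitrarily large gaps -/
structure CritW (C : ℝ) (G : GapKernel) (s v : ℤ → ℝ) : Prop extends CritN C G s v where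
  far : ∀ g0 : ℤ, ∃ g : ℤ, g0 ≤ g ∧ C⁻¹ ≤ v g

/-- the limit of a nonnegative critical solution -/
structure LimN (K : ℕ) (D : ℝ) (V : ℤ → ℝ) (A : ℝ) : Prop where
  nonneg : 0 ≤ A
  up : A ≤ D ^ K
  sum : ∀ N : ℕ, ∑ g ∈ Icc (1 : ℤ) N, (g : ℝ) ^ 2 * (V g - A) ^ 2 ≤ D ^ K
  ptw : ∀ g : ℕ, V g ≤ D ^ K * (A + Real.exp (-((g : ℝ) / D ^ K)))

theorem CritN.mono {D D' : ℝ} (h : D ≤ D') {G : GapKernel} {s v : ℤ → ℝ} (hs : CritN D G s v) :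
    CritN D' G s v where
  zero := hs.zero
  nonneg := hs.nonneg
  up g := (hs.up g).trans h
  energy N := (hs.energy N).trans h
  eq := hs.eq

theorem CritW.mono {D D' : ℝ} (hD : 0 < D) (h : D ≤ D') {G : GapKernel} {s v : ℤ → ℝ}
    (hs : CritW D G s v) : CritW D' G s v where
  toCritN := hs.toCritN.mono h
  far g0 := by
    obtain ⟨g, h1, h2⟩ := hs.far g0
    exact ⟨g, h1, (inv_anti₀ hD h).trans h2⟩

theorem critW_of_critSol {D : ℝ} (hD : 0 < D) {G : GapKernel} {s v : ℤ → ℝ}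
    (hs : CritSol D G s v) : CritW D G s v where
  zero := hs.zero
  nonneg g := by
    rcases le_or_gt g 0 with h | h
    · rw [hs.zero g h]
    · exact (inv_pos.2 hD).le.trans (hs.low g h)
  up := hs.up
  energy := hs.energy
  eq := hs.eq
  far g0 := ⟨max g0 1, le_max_left _ _, hs.low _ (le_max_right _ _)⟩

/-- GVN (from QGRE, QGSUP): existence. PROOF. `EXW.GV2.core` is exactly this, with the bounds
`C1 (D * ∑' n θ^n)` and `C1 (D * ∑' n θ^n)^2`, `C1 = D^K1`; see the first half of `EXW.t_GV2` for the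
polynomial bounds. -/
def GVN_Stmt : Prop := ∃ K : ℕ, ∀ D : ℝ, 2 ≤ D → ∀ G : GapKernel, Cls D (1 - D⁻¹) G →
  ∀ (R' : ℕ) (s : ℤ → ℝ), CritSrc D (1 - D⁻¹) R' s → ∃ v : ℤ → ℝ, CritN (D ^ K) G s v

/-- WVL: the limit of a nonnegative critical solution and the pointwise upper bound. PROOF. The text
of `EXW.QGVL.core` (and of `FL.GVL.defect`, which is used there) with `CritN D G s v`: `|v g| ≤ D` from
`nonneg`, `up` (and `0 ≤ D`). It gives `A = L / c0 G` with `|Phi G v n - c0 G * A| ≤ Q1 φ^n`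
(`φ = √√(1 - D⁻¹)`) and the bound of the sum. `0 ≤ A`: `Phi G v n ≥ 0` (`S_nonneg`, `kk_nonneg`) and
`Phi G v n → L`. `A ≤ D` as there. Pointwise: the term `d = 1` of `Phi`, `S 1 v g = v g`, `kk_one`:
`ρ v n ≤ kk G 1 * v n ≤ Phi G v n ≤ c0 G A + Q1 φ^n`, `ρ ≥ D⁻¹`, `c0 G ≤ D^K` (`GVL.moment` with `p = 2`, as
in `pb`), `φ ≤ 1 - (4 D)⁻¹ ≤ exp(-1/(4 D))` (`sqrt_sqrt_th`), and `exp(-n/(4D)) ≤ exp(-n/D^K)` for
`K ≥ 3`. -/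
def WVL_Stmt : Prop := ∃ K : ℕ, ∀ D : ℝ, 2 ≤ D → ∀ G : GapKernel, Cls D (1 - D⁻¹) G →
  ∀ (R' : ℕ) (s V : ℤ → ℝ), CritSrc D (1 - D⁻¹) R' s → CritN D G s V → ∃ A : ℝ, LimN K D V A

/-- WGVL (from WVL): old QGVL. PROOF. `A` of WVL. `low`: if `A < D⁻¹` let `δ = D⁻¹ - A > 0`; each term of
the sum is at most `D^K`, so `|V g - A| ≤ √(D^K) / g < δ` for large `g`; take such a `g` from `far`. -/
def WGVL_Stmt : Prop := ∃ K : ℕ, ∀ D : ℝ, 2 ≤ D → ∀ G : GapKernel, Cls D (1 - D⁻¹) G →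
  ∀ (R' : ℕ) (s V : ℤ → ℝ), CritSrc D (1 - D⁻¹) R' s → CritW D G s V → ∃ A : ℝ, Lim K D V A

/-- WCA : old QCA with `CritW` (from WGVL). -/
def WCA_Stmt : Prop := ∃ K : ℕ, ∀ D : ℝ, 2 ≤ D → ∀ G : GapKernel, Cls D (1 - D⁻¹) G →
  ∀ (C0 : ℕ) (s : ℕ → ℤ → ℝ) (V : ℤ → ℝ), ClsCap D (1 - D⁻¹) G C0 s →
    CritW D G (GE.sr G.rho C0 s) V → ∃ A : ℝ, Lim K D V A

/-- WE : old QE with `CritW`. -/
def WE_Stmt : Prop := ∀ K : ℕ, ∃ K0 K1 : ℕ, ∀ (D W : ℝ) (G : GapKernel) (n n0 : ℕ)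
  (eps eps' : ℝ), Sc K0 D W G n n0 eps eps' →
  ∀ (C0 : ℕ) (s : ℕ → ℤ → ℝ) (V : ℤ → ℝ) (A : ℝ), ClsCap D (1 - D⁻¹) G C0 s →
    CritW D G (GE.sr G.rho C0 s) V → Lim K D V A →
  ∀ (w : ℂ) (N : ℕ) (v v0 : ℤ → ℂ), w.re = 1 → ‖w‖ ≤ W → 4 * n ^ 2 + 4 * n0 ^ 2 ≤ N →
    G.Solves eps (zn G.rho w n) N v (capz C0 s 0 (zn G.rho w n)) →
    stair.Solves eps' (zn (1 / 4) w n0) N v0 (src1 (zn (1 / 4) w n0)) →
      nsq N (fun g => v g - (A : ℂ) * v0 g) ≤ (D * W) ^ K1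

/-- WP : old QP with `CritW`. -/
def WP_Stmt : Prop := ∃ K0 K1 : ℕ, ∀ D : ℝ, 2 ≤ D → ∀ G : GapKernel, Cls D (1 - D⁻¹) G →
  ∀ (C0 : ℕ) (s t : ℕ → ℤ → ℝ) (Vs Vt : ℤ → ℝ), ClsCap D (1 - D⁻¹) G C0 s →
    ClsCap D (1 - D⁻¹) G C0 t → CritW D G (GE.sr G.rho C0 s) Vs →
    CritW D G (GE.sr G.rho C0 t) Vt →
  ∃ c : ℝ, (D ^ K1)⁻¹ ≤ c ∧ c ≤ D ^ K1 ∧ ∀ (W : ℝ) (n n0 : ℕ) (eps eps' : ℝ),
    Sc K0 D W G n n0 eps eps' → ∀ N : ℕ, 4 * n ^ 2 + 4 * n0 ^ 2 ≤ N → C0 ≤ N →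
    ∀ b b0, IsArr G s eps N b → IsArr stair cap1 eps' N b0 → ∀ w : ℂ, w.re = 1 → ‖w‖ ≤ W →
      ‖sgf 1 (close C0 t b) (zn G.rho w n)
        - (c : ℂ) * sgf 1 (close 1 cap1 b0) (zn (1 / 4) w n0)‖ ≤ (D * W) ^ K1 * qn n

/-- WLT : old QLT with `CritW`. -/
def WLT_Stmt : Prop := ∃ K0 K1 : ℕ, ∀ D : ℝ, 2 ≤ D → ∀ G : GapKernel, Cls D (1 - D⁻¹) G →
  ∀ (C0 : ℕ) (s t : ℕ → ℤ → ℝ) (Vs Vt : ℤ → ℝ) (B B0 : ℕ → ℤ → Polynomial ℝ),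
    ClsCap D (1 - D⁻¹) G C0 s → ClsCap D (1 - D⁻¹) G C0 t →
    CritW D G (GE.sr G.rho C0 s) Vs → CritW D G (GE.sr G.rho C0 t) Vt →
    IsSol G s B → IsSol stair cap1 B0 →
  ∃ c : ℝ, (D ^ K1)⁻¹ ≤ c ∧ c ≤ D ^ K1 ∧ ∀ (W : ℝ) (n n0 : ℕ) (eps eps' : ℝ),
    Sc K0 D W G n n0 eps eps' →
    |((n : ℝ) * Real.sqrt n) * G.rho ^ n * (closeP C0 t B n).eval (Real.exp (-eps))
      - c * Real.sqrt ((n0 : ℝ) / n) * (((n0 : ℝ) * Real.sqrt n0) * (1 / 4 : ℝ) ^ n0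
        * (closeP 1 cap1 B0 n0).eval (Real.exp (-eps')))|
      ≤ (D * W) ^ K1 / qn n + D ^ K1 / Real.sqrt W

/-- WRAT : old QRAT with `CritW`. -/
def WRAT_Stmt : Prop := ∃ K0 K1 : ℕ, ∀ D : ℝ, 2 ≤ D → ∀ G : GapKernel, Cls D (1 - D⁻¹) G →
  ∀ (C0 : ℕ) (s t : ℕ → ℤ → ℝ) (Vs Vt : ℤ → ℝ) (B : ℕ → ℤ → Polynomial ℝ),
    ClsCap D (1 - D⁻¹) G C0 s → ClsCap D (1 - D⁻¹) G C0 t →
    CritW D G (GE.sr G.rho C0 s) Vs → CritW D G (GE.sr G.rho C0 t) Vt → IsSol G s B →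
  ∀ (W : ℝ) (n n0 : ℕ), Sc0 K0 D W G n n0 → D ^ K0 ≤ W →
    (D ^ K1)⁻¹ ≤ ((n : ℝ) * Real.sqrt n) * G.rho ^ n * (closeP C0 t B n).eval 1 ∧
    (∀ eps eps' : ℝ, 0 ≤ eps' → eps' * ((n0 : ℝ) * Real.sqrt n0) ≤ W →
      G.hbar * eps = 2 * G.sig2 * eps' →
      |(closeP C0 t B n).eval (Real.exp (-eps)) / (closeP C0 t B n).eval 1
        - (closeP 1 cap1 B0 n0).eval (Real.exp (-eps')) / (closeP 1 cap1 B0 n0).eval 1|
        ≤ (D * W) ^ K1 / qn n + D ^ K1 / Real.sqrt W) ∧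
    ∀ lam : ℝ, 0 < lam → lam ≤ 1 →
      |2 * G.sig2 / (G.hbar * ((n0 : ℝ) * Real.sqrt n0)) *
          ((closeP C0 t B n).derivative.eval 1 / (closeP C0 t B n).eval 1)
        - (closeP 1 cap1 B0 n0).derivative.eval 1 /
          (((n0 : ℝ) * Real.sqrt n0) * (closeP 1 cap1 B0 n0).eval 1)|
        ≤ ((D * W) ^ K1 / qn n + D ^ K1 / Real.sqrt W) / lam + D ^ K1 * lam

/-- WMA : old MOMA with `CritW`. -/
def WMA_Stmt : Prop := ∀ r : ℕ, ∃ K0 K1 : ℕ, ∀ D : ℝ, 2 ≤ D → ∀ G : GapKernel,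
  Cls D (1 - D⁻¹) G → ∀ (C0 : ℕ) (s t : ℕ → ℤ → ℝ) (Vs Vt : ℤ → ℝ) (B : ℕ → ℤ → Polynomial ℝ),
    ClsCap D (1 - D⁻¹) G C0 s → ClsCap D (1 - D⁻¹) G C0 t →
    CritW D G (GE.sr G.rho C0 s) Vs → CritW D G (GE.sr G.rho C0 t) Vt → IsSol G s B →
  ∀ (W : ℝ) (n n0 : ℕ), Sc0 K0 D W G n n0 → D ^ K0 ≤ W →
    mr r (closeP C0 t B n) ≤
      D ^ K1 * ((n : ℝ) * Real.sqrt n * Real.log n) ^ r * (closeP C0 t B n).eval 1

/-- WMD : old MOMD with `CritW`. -/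
def WMD_Stmt : Prop := ∀ r : ℕ, ∃ K0 K1 : ℕ, ∀ D : ℝ, 2 ≤ D → ∀ G : GapKernel,
  Cls D (1 - D⁻¹) G → ∀ (C0 : ℕ) (s t : ℕ → ℤ → ℝ) (Vs Vt : ℤ → ℝ) (B : ℕ → ℤ → Polynomial ℝ),
    ClsCap D (1 - D⁻¹) G C0 s → ClsCap D (1 - D⁻¹) G C0 t →
    CritW D G (GE.sr G.rho C0 s) Vs → CritW D G (GE.sr G.rho C0 t) Vt → IsSol G s B →
  ∀ (W : ℝ) (n n0 : ℕ) (lam : ℝ), Sc0 K0 D W G n n0 → D ^ K0 ≤ W → 0 < lam → lam ≤ 1 →
    |(2 * G.sig2 / (G.hbar * ((n0 : ℝ) * Real.sqrt n0))) ^ r *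
        (mr r (closeP C0 t B n) / (closeP C0 t B n).eval 1)
      - mr r (closeP 1 cap1 B0 n0) /
        (((n0 : ℝ) * Real.sqrt n0) ^ r * (closeP 1 cap1 B0 n0).eval 1)|
      ≤ ((D * W) ^ K1 / qn n + D ^ K1 / Real.sqrt W) / lam ^ r +
        D ^ K1 * (Real.log n) ^ (r + 1) * lam

/-! ### Sequences of models -/

/-- parameters whose power `Kw` grows more slowly than `n` -/
structure SlowK (Kw : ℕ) (D : ℕ → ℝ) : Prop where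
  two_le : ∀ n, 2 ≤ D n
  lim : Tendsto (fun n : ℕ => D n ^ Kw / (n : ℝ)) atTop (𝓝 0)

theorem SlowK.mono {K K' : ℕ} (h : K ≤ K') {D : ℕ → ℝ} (hD : SlowK K' D) : SlowK K D where
  two_le := hD.two_le
  lim := by
    refine squeeze_zero (fun n => ?_) (fun n => ?_) hD.lim
    · have := hD.two_le n
      have h1 : 0 ≤ D n := by linarith
      positivity
    · have := hD.two_le n
      exact div_le_div_of_nonneg_right (pow_le_pow_right₀ (by linarith) h) (Nat.cast_nonneg n)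

/-- A sequence of weighted models (`EXW.QModel` with `CritW` and without `κ_lim`). -/
structure WModel (D : ℕ → ℝ) where
  G : ℕ → GapKernel
  C0 : ℕ → ℕ
  s : ℕ → ℕ → ℤ → ℝ
  t : ℕ → ℕ → ℤ → ℝ
  Vs : ℕ → ℤ → ℝ
  Vt : ℕ → ℤ → ℝ
  cls : ∀ n, Cls (D n) (1 - (D n)⁻¹) (G n)
  cap_s : ∀ n, ClsCap (D n) (1 - (D n)⁻¹) (G n) (C0 n) (s n)
  cap_t : ∀ n, ClsCap (D n) (1 - (D n)⁻¹) (G n) (C0 n) (t n)
  crit_s : ∀ n, CritW (D n) (G n) (GE.sr (G n).rho (C0 n) (s n)) (Vs n)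
  crit_t : ∀ n, CritW (D n) (G n) (GE.sr (G n).rho (C0 n) (t n)) (Vt n)
  B : ℕ → ℕ → ℤ → Polynomial ℝ
  sol : ∀ n, IsSol (G n) (s n) (B n)
  Omega : ℕ → Type
  fin : ∀ n, Fintype (Omega n)
  good : ∀ n, Finset (Omega n)
  wt : ∀ n, Omega n → ℝ
  T : ∀ n, Omega n → ℝ
  A : ∀ n, Omega n → ℕ
  wt_nonneg : ∀ n x, 0 ≤ wt n x
  T_nonneg : ∀ n x, 0 ≤ T n x
  c : ℕ → ℝ
  c_pos : ∀ n, 0 < c n
  κ : ℕ → ℝ
  n1 : ℕ
  count : ∀ n, n1 ≤ n → (∑ x ∈ good n, Polynomial.C (wt n x) *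
    (Polynomial.X : Polynomial ℝ) ^ (A n x)) = Polynomial.C (c n) * closeP (C0 n) (t n) (B n) n
  near : ∀ n, n1 ≤ n → ∑ x ∈ good n, wt n x * |T n x - A n x| ≤
    κ n * ((n : ℝ) * Real.sqrt n) *
      (∑ x ∈ good n, wt n x + c n / ((n : ℝ) * Real.sqrt n * (G n).rho ^ n))
  bad : ∀ n, n1 ≤ n → ∑ x : Omega n, wt n x * (1 + T n x) - ∑ x ∈ good n, wt n x * (1 + T n x) ≤
    κ n * (c n / ((n : ℝ) * Real.sqrt n * (G n).rho ^ n))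

attribute [instance] WModel.fin

/-- the errors are small compared to the power `Kw` of the parameter -/
def WModel.Kap {D : ℕ → ℝ} (M : WModel D) (Kw : ℕ) : Prop :=
  Tendsto (fun n => M.κ n * D n ^ Kw) atTop (𝓝 0)

/-- total weight -/
noncomputable def WModel.W {D : ℕ → ℝ} (M : WModel D) (n : ℕ) : ℝ := ∑ y : M.Omega n, M.wt n y

open Classical in
/-- distribution function of `T / E[T]` under the weights -/
noncomputable def WModel.cdf {D : ℕ → ℝ} (M : WModel D) (n : ℕ) (x : ℝ) : ℝ :=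
  (∑ y ∈ univ.filter fun y : M.Omega n =>
      M.T n y * M.W n ≤ x * ∑ y' : M.Omega n, M.wt n y' * M.T n y', M.wt n y) / M.W n

/-- the area polynomials of a sequence of models -/
noncomputable def WModel.P {D : ℕ → ℝ} (M : WModel D) (n : ℕ) : Polynomial ℝ :=
  closeP (M.C0 n) (M.t n) (M.B n) n

/-- the moment of order `r` of `T / E[T]` under the weights -/
noncomputable def WModel.mom {D : ℕ → ℝ} (M : WModel D) (n r : ℕ) : ℝ :=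
  ((∑ y : M.Omega n, M.wt n y * M.T n y ^ r) / M.W n) /
    ((∑ y : M.Omega n, M.wt n y * M.T n y) / M.W n) ^ r

/-- WSIDE (from WRAT, QPAR, BAL, M2): limits of the normalised Laplace transforms. PROOF. The text of
`EXW.t_QSIDE`. There `u n = n^(1/(4m))` with `m = 4 (J + K1) + 2` fixed, and `D n ^ K / u n → 0` is used
only for `K ≤ J + K0 + K1`; with `Kw = 4 m (J + K0 + K1 + 1)` this follows from `D n ^ Kw / n → 0` as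
in `QSIDE.slow_U` (power `1/(4m)`). The exponent `K` of the conclusion depends on `m0` only. -/
def WSIDE_Stmt : Prop := ∀ (L : ℝ → ℝ) (m0 C' : ℝ), 0 < L 0 → 0 < m0 →
  (∀ lam : ℝ, 0 ≤ lam → Tendsto (fun n : ℕ => ((n : ℝ) * Real.sqrt n) * (1 / 4 : ℝ) ^ n
    * (closeP 1 cap1 B0 n).eval (Real.exp (-(epsn lam n)))) atTop (𝓝 (L lam))) →
  (∀ lam : ℝ, 0 ≤ lam → |L lam / L 0 - 1 + lam * m0| ≤ C' * lam ^ 2) →
  ∃ Kw K : ℕ, ∀ D : ℕ → ℝ, SlowK Kw D → ∀ M : WModel D,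
    (∀ᶠ n : ℕ in atTop, (D n ^ K)⁻¹ ≤ ((n : ℝ) * Real.sqrt n) * (M.G n).rho ^ n *
      (M.P n).eval 1) ∧
    (∀ᶠ n : ℕ in atTop, (D n ^ K)⁻¹ ≤ mn M.P n) ∧
    ∀ lam : ℝ, 0 ≤ lam →
      Tendsto (fun n : ℕ => lap M.P n (lam / mn M.P n)) atTop (𝓝 (L (lam / m0) / L 0))

open scoped NNReal ENNReal in
/-- WKEY : the laws of `T / E[T]`. PROOF. The text of `EXW/QKEY.lean`, where `κ_lim` is used for the
exponents `0`, `K`, `2 K` only. -/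
def WKEY_Stmt : Prop := ∀ D : ℕ → ℝ, (∀ n, 2 ≤ D n) → ∀ (M : WModel D) (K : ℕ),
  M.Kap (2 * K) →
  (∀ᶠ n : ℕ in atTop, (D n ^ K)⁻¹ ≤ ((n : ℝ) * Real.sqrt n) * (M.G n).rho ^ n *
    (M.P n).eval 1) →
  (∀ᶠ n : ℕ in atTop, (D n ^ K)⁻¹ ≤ mn M.P n) → ∀ Psi : ℕ → ℝ,
  (∀ j : ℕ, Tendsto (fun n : ℕ => lap M.P n (j / mn M.P n)) atTop (𝓝 (Psi j))) →
  ∃ ν : ℕ → MeasureTheory.ProbabilityMeasure ℝ≥0,
    (∀ k, ∀ K : ℝ≥0, 0 < K →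
      (ν k : MeasureTheory.Measure ℝ≥0) {x | K < x} ≤ 1 / (K : ℝ≥0∞)) ∧
    (∀ j : ℕ, Tendsto (fun k => ∫ x, Real.exp (-((j : ℝ) * (x : ℝ)))
      ∂(ν k : MeasureTheory.Measure ℝ≥0)) atTop (𝓝 (Psi j))) ∧
    ∀ᶠ k in atTop, ∀ x : ℝ,
      M.cdf k x = ((ν k : MeasureTheory.Measure ℝ≥0) {z | (z : ℝ) ≤ x}).toReal

/-- WFIN : the universal law (from WSIDE, WKEY and the old LT, LT1, M2, BAL). -/
def WFIN_Stmt : Prop := ∃ μ : MeasureTheory.Measure ℝ, MeasureTheory.IsProbabilityMeasure μ ∧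
  (∀ M : AreaModel, M.Conv μ) ∧ ∃ Kw : ℕ, ∀ D : ℕ → ℝ, SlowK Kw D → ∀ M : WModel D, M.Kap Kw →
    ∀ x : ℝ, μ {x} = 0 → Tendsto (fun n : ℕ => M.cdf n x) atTop (𝓝 (μ (Set.Iic x)).toReal)

/-- WMC (from WMD, WMA, WRAT, SMM, QPAR): limits for the area polynomials of a sequence of models.
PROOF. The text of `EXW.t_MOMC` for the orders `r ≤ R`. There `Slow` is used through
`D^j (log n + 2)^j / n → 0` for finitely many `j` (which depend on `R`), true for `j < Kw` if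
`D n ^ Kw / n → 0`: `D^j ℓ^j / n ≤ (D^Kw / n)^(j/Kw) * ℓ^j / n^(1 - j/Kw)`; or: `D n ≤ n^(1/Kw)`
eventually, and `n^(j/Kw) ℓ^j / n → 0`. The exponents `K` of the conclusions are absolute. -/
def WMC_Stmt : Prop := ∀ R : ℕ, ∃ Kw K : ℕ, ∀ D : ℕ → ℝ, SlowK Kw D → ∀ M : WModel D,
  (∀ r ≤ R, Tendsto (fun n : ℕ => (mr r (M.P n) / (M.P n).eval 1) /
    (mr 1 (M.P n) / (M.P n).eval 1) ^ r) atTop (𝓝 (airyMoment r))) ∧
  (∀ᶠ n : ℕ in atTop, (D n ^ K)⁻¹ * ((n : ℝ) * Real.sqrt n) ≤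
    mr 1 (M.P n) / (M.P n).eval 1) ∧
  (∀ r ≤ R, ∀ᶠ n : ℕ in atTop, mr r (M.P n) / (M.P n).eval 1 ≤
    D n ^ K * ((n : ℝ) * Real.sqrt n * Real.log n) ^ r) ∧
  ∀ᶠ n : ℕ in atTop, (D n ^ K)⁻¹ ≤ ((n : ℝ) * Real.sqrt n) * (M.G n).rho ^ n *
    (M.P n).eval 1

/-- moments of the error of the area functional -/
def WModel.Near {D : ℕ → ℝ} (M : WModel D) (K p : ℕ) : Prop := ∀ᶠ n : ℕ in atTop,
  ∑ x ∈ M.good n, M.wt n x * |M.T n x - M.A n x| ^ p ≤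
    (D n ^ K * n * Real.log n) ^ p * ∑ x ∈ M.good n, M.wt n x +
      D n ^ K * (M.c n / ((n : ℝ) ^ 2 * (M.G n).rho ^ n))

/-- moments over the bad part -/
def WModel.Bad {D : ℕ → ℝ} (M : WModel D) (p : ℕ) : Prop := ∀ᶠ n : ℕ in atTop,
  ∑ x : M.Omega n, M.wt n x * M.T n x ^ p - ∑ x ∈ M.good n, M.wt n x * M.T n x ^ p ≤
    M.c n / ((n : ℝ) ^ 2 * (M.G n).rho ^ n)

/-- WMK (from WMC): moments of `T`. PROOF. The text of `EXW.t_MOMK` (proof in the doc string of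
`EXW.MOMK_Stmt`) for one order `r`: WMC with `R = 2 r + 2`; Near and Bad are used for `p ≤ r + 2` only;
`D^j (log n)^j / √n → 0` for finitely many `j` (depending on `r`, `K`): `D n ≤ n^(1/Kw)` eventually
with `Kw` large. -/
def WMK_Stmt : Prop := ∀ r K : ℕ, ∃ Kw : ℕ, ∀ D : ℕ → ℝ, SlowK Kw D → ∀ M : WModel D,
  (∀ p ≤ r + 2, M.Near K p) → (∀ p ≤ r + 2, M.Bad p) →
  Tendsto (fun n : ℕ => M.mom n r) atTop (𝓝 (airyMoment r))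

end Pool.Agent.PFW
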