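import Pool.Agent.PFW.StmtsW
import Pool.Agent.EXW.QLT

/-!
# Project PFW, module WLT (port of `EXW/QLT.lean`)
-/

set_option autoImplicit false

namespace Pool.Agent.PFW

open Finset Filter Topology
open Pool.Agent.Gap Pool.Agent.FL Pool.Agent.EXW
open Pool.Agent.EXW.QLT

theorem t_WLT (hP : WP_Stmt) (hX : QX_Stmt) (hJ : QGJ2_Stmt) (hpar : QPAR_Stmt)
    (hJ1 : J1_Stmt) (hJ2s : J2_Stmt) (hB1 : B1_Stmt) : WLT_Stmt := by
  obtain ⟨KP0, KP, hP'⟩ := hP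
  obtain ⟨CX, hCX, hX'⟩ := hX
  obtain ⟨KJ, hJ'⟩ := hJ
  obtain ⟨KA0, KA, hpar'⟩ := hpar
  obtain ⟨C2, hC2, hJ0⟩ := hJ2s stair 1 cap1 cap1 isCap_cap1 isCap_cap1
  obtain ⟨K1, hK1P, hK1⟩ := fin_bound hCX hC2 KP KA KJ
  refine ⟨max KP0 KA0, K1, ?_⟩
  intro D hD G hG C0 s t Vs Vt B B0 hs ht hVs hVt hB hB0
  obtain ⟨c, hc1, hc2, hP2⟩ := hP' D hD G hG C0 s t Vs Vt hs ht hVs hVt
  have hD1 : (1 : ℝ) ≤ D := by linarith
  have hDK : D ^ KP ≤ D ^ K1 := pow_le_pow_right₀ hD1 hK1P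
  have hDKP : 0 < D ^ KP := by positivity
  refine ⟨c, (inv_anti₀ hDKP hDK).trans hc1, hc2.trans hDK, ?_⟩
  have hc0 : 0 ≤ c := (inv_pos.2 hDKP).le.trans hc1
  intro W n n0 eps eps' hSc
  have hScP : Sc KP0 D W G n n0 eps eps' := sc_mono (le_max_left _ _) hSc
  have hScA : Sc KA0 D W G n n0 eps eps' := sc_mono (le_max_right _ _) hSc
  obtain ⟨⟨hn1, hn01, hWn, hWn0, hnn0, hn0n⟩, ⟨heps0, heps1, heps'1, -, -⟩, -⟩ :=
    hpar' D W G n n0 eps eps' hScA
  have hW2 := hSc.W2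
  have heps'0 := hSc.eps_nonneg
  set N : ℕ := 4 * n ^ 2 + 4 * n0 ^ 2 + C0 + (G.R + 1) * (n + 1) + 2 * (n0 + 1) + 1 with hN
  have hNbig : 4 * n ^ 2 + 4 * n0 ^ 2 ≤ N := by simp only [hN]; omega
  have hC0N : C0 ≤ N := by simp only [hN]; omega
  have h1N : 1 ≤ N := by simp only [hN]; omega
  -- arrays
  obtain ⟨b, hbA⟩ := (hJ1 G C0 s hs.cap N eps heps0).1
  obtain ⟨b', hbA'⟩ := (hJ1 G C0 t ht.cap N eps heps0).1
  obtain ⟨b0, hbA0⟩ := (hJ1 stair 1 cap1 isCap_cap1 N eps' heps'0).1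
  have hq := qn_pos n hn1
  have hqs : qn n * qn n = Real.sqrt n := by rw [← qn_sq n]; ring
  have key := hX' G.rho (1 / 4) c (D ^ (KJ + 2)) (8 * C2) ((D * W) ^ KP / qn n) (W / 2) n n0
    (close C0 t b) (close 1 cap1 b0) G.rho_pos (by norm_num) hc0 (by positivity) (by positivity)
    (by
      have : 0 < D * W := by nlinarith
      positivity) (by linarith) (by linarith) (by linarith)
    (by
      intro z hz
      obtain ⟨a1, -, a3⟩ := hJ' D hD G hG C0 s t hs ht N eps heps0 hC0N b b' hbA hbA' z hz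
      refine ⟨a1, a3.trans ?_⟩
      have h1 := rho_low hD hG.rho_ge
      calc D ^ KJ = D ^ (KJ + 2) * (D ^ 2)⁻¹ := by
            rw [pow_add]
            field_simp
        _ ≤ _ := by gcongr)
    (by
      intro z hz
      obtain ⟨a1, -, a3, -⟩ := hJ0 N eps' heps'0 h1N b0 b0 hbA0 hbA0 z hz
      have e4 : ((stair.rho : ℝ) : ℂ) = (((1 / 4 : ℝ) : ℝ) : ℂ) := rfl
      rw [e4] at a3
      refine ⟨a1, a3.trans (le_of_eq ?_)⟩
      have h1 : Real.sqrt (1 / 4) = 1 / 2 := by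
        rw [show (1 / 4 : ℝ) = (1 / 2) ^ 2 by norm_num]
        exact Real.sqrt_sq (by norm_num)
      rw [h1]
      ring)
    (by
      intro w hw hwY
      have hwW : ‖w‖ ≤ W := by
        refine (Complex.norm_le_abs_re_add_abs_im w).trans ?_
        rw [hw, abs_one]
        linarith
      refine (hP2 W n n0 eps eps' hScP N hNbig hC0N b b0 hbA hbA0 w hw hwW).trans (le_of_eq ?_)
      rw [← hqs]
      field_simp)
  have ev1 : close C0 t b n = (closeP C0 t B n).eval (Real.exp (-eps)) := by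
    refine eval_closeP C0 t B b _ n fun m hmn g => ?_
    refine hB1 G C0 s hs.cap B hB N eps b heps0 hbA m ?_ g
    have : (G.R + 1) * (m + 1) ≤ (G.R + 1) * (n + 1) := Nat.mul_le_mul_left _ (by omega)
    simp only [hN]
    omega
  have ev0 : close 1 cap1 b0 n0 = (closeP 1 cap1 B0 n0).eval (Real.exp (-eps')) := by
    refine eval_closeP 1 cap1 B0 b0 _ n0 fun m hmn g => ?_
    refine hB1 stair 1 cap1 isCap_cap1 B0 hB0 N eps' b0 heps'0 hbA0 m ?_ g
    have hR : stair.R = 1 := rfl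
    rw [hR]
    simp only [hN]
    have h1 : n0 ≤ n0 ^ 2 := by nlinarith [Nat.zero_le n0]
    omega
  rw [ev1, ev0] at key
  refine key.trans ?_
  have hn' : (0 : ℝ) < n := by exact_mod_cast hn1
  exact hK1 D W c ((n0 : ℝ) / n) (qn n) hD hW2 hq hc0 hc2 (by positivity)
    ((div_le_iff₀ hn').2 hn0n)

end Pool.Agent.PFW
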