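import Pool.Agent.PFW.StmtsC
import Pool.Agent.EXW.MOMK

/-!
# Project PFW, module WMK: limits of the moments of `T`
(after `EXW/MOMK.lean`, with a fixed power of the parameter)
-/

set_option autoImplicit false

open Finset Filter Topology

namespace Pool.Agent.PFW

open Pool.Agent.Gap Pool.Agent.EXW
open Pool.Agent.KCG (mr)
open Pool.Agent.KCS (airyMoment)

namespace WMKx

/-- powers of `log n` and a power of the parameter against `√n` -/
theorem slow (D : ℕ → ℝ) (h0 : ∀ n, 0 ≤ D n) (K : ℕ)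
    (hD : Tendsto (fun n : ℕ => D n ^ (4 * K) / (n : ℝ)) atTop (𝓝 0)) (p : ℕ) :
    Tendsto (fun n : ℕ => D n ^ K * Real.log n ^ p / Real.sqrt n) atTop (𝓝 0) := by
  have h1 := hD.sqrt
  have h2 : Tendsto (fun n : ℕ => Real.log n ^ (4 * p) / (n : ℝ)) atTop (𝓝 0) :=
    (Real.isLittleO_pow_log_id_atTop (n := 4 * p)).tendsto_div_nhds_zero.comp tendsto_natCast_atTop_atTop
  have h3 := (h1.mul h2.sqrt).sqrt
  rw [Real.sqrt_zero, mul_zero, Real.sqrt_zero] at h3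
  refine h3.congr' ?_
  filter_upwards [eventually_ge_atTop 1] with n hn
  have hn0 : (0 : ℝ) < n := by exact_mod_cast hn
  have hs : 0 < Real.sqrt n := Real.sqrt_pos.2 hn0
  have hL : 0 ≤ Real.log n := Real.log_natCast_nonneg n
  have hss : Real.sqrt n ^ 2 = n := Real.sq_sqrt hn0.le
  have e1 : D n ^ (4 * K) / (n : ℝ) = (D n ^ (2 * K) / Real.sqrt n) ^ 2 := by
    rw [div_pow, hss, ← pow_mul]
    congr 2
    ring
  have e2 : Real.log n ^ (4 * p) / (n : ℝ) = (Real.log n ^ (2 * p) / Real.sqrt n) ^ 2 := by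
    rw [div_pow, hss, ← pow_mul]
    congr 2
    ring
  have hDn := h0 n
  rw [e1, e2, Real.sqrt_sq (by positivity), Real.sqrt_sq (by positivity)]
  have e3 : D n ^ (2 * K) / Real.sqrt n * (Real.log n ^ (2 * p) / Real.sqrt n) =
      (D n ^ K * Real.log n ^ p / Real.sqrt n) ^ 2 := by
    rw [div_pow, mul_pow, ← pow_mul, ← pow_mul, mul_comm K 2, mul_comm p 2]
    field_simp
  rw [e3, Real.sqrt_sq (by positivity)]

variable {D : ℕ → ℝ}

theorem sum_A (M : WModel D) (n : ℕ) (hn : M.n1 ≤ n) (r : ℕ) :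
    ∑ x ∈ M.good n, M.wt n x * (M.A n x : ℝ) ^ r = M.c n * mr r (M.P n) := by
  have h := congrArg (mr r) (M.count n hn)
  rw [momk_mr_sum, momk_mr_C_mul] at h
  refine Eq.trans (Finset.sum_congr rfl fun x _ => ?_) h
  rw [momk_mr_CX]

theorem sum_good (M : WModel D) (n : ℕ) (hn : M.n1 ≤ n) :
    ∑ x ∈ M.good n, M.wt n x = M.c n * (M.P n).eval 1 := by
  have h := sum_A M n hn 0
  rw [momk_mr_zero] at h
  rw [← h]
  refine Finset.sum_congr rfl fun x _ => ?_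
  rw [pow_zero, mul_one]

/-- the scaled moments of `T` over the whole space -/
theorem lim (hD2 : ∀ n, 2 ≤ D n) (M : WModel D) (Ka K2 p K' : ℕ)
    (hKK : (2 * Ka + 2 * K2) * (p + 2) + K2 * p + K2 ≤ K')
    (hD : Tendsto (fun n : ℕ => D n ^ (4 * K') / (n : ℝ)) atTop (𝓝 0))
    (ha : M.Near Ka 2) (hp : M.Near Ka p) (hb : M.Bad p)
    (m1 : Tendsto (fun n : ℕ => (mr p (M.P n) / (M.P n).eval 1) /
      (mr 1 (M.P n) / (M.P n).eval 1) ^ p) atTop (𝓝 (airyMoment p)))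
    (m2 : ∀ᶠ n : ℕ in atTop, (D n ^ K2)⁻¹ * ((n : ℝ) * Real.sqrt n) ≤
      mr 1 (M.P n) / (M.P n).eval 1)
    (h3 : ∀ᶠ n : ℕ in atTop, mr (2 * (p - 1)) (M.P n) / (M.P n).eval 1 ≤
      D n ^ K2 * ((n : ℝ) * Real.sqrt n * Real.log n) ^ (2 * (p - 1)))
    (m4 : ∀ᶠ n : ℕ in atTop, (D n ^ K2)⁻¹ ≤ ((n : ℝ) * Real.sqrt n) * (M.G n).rho ^ n *
      (M.P n).eval 1) :
    Tendsto (fun n : ℕ => (∑ x : M.Omega n, M.wt n x * M.T n x ^ p) /
      ((M.c n * (M.P n).eval 1) * (mr 1 (M.P n) / (M.P n).eval 1) ^ p)) atTop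
      (𝓝 (airyMoment p)) := by
  classical
  obtain ⟨K, hK⟩ : ∃ K, K = 2 * Ka + 2 * K2 := ⟨_, rfl⟩
  rw [← hK] at hKK
  have hD1 : ∀ n, 1 ≤ D n := fun n => by have := hD2 n; linarith
  have hlim := (slow D (fun n => by have := hD1 n; linarith) K' hD p).const_mul
    (1 + 5 * (p : ℝ) * 2 ^ p)
  rw [mul_zero] at hlim
  have key : Tendsto (fun n : ℕ => (∑ x : M.Omega n, M.wt n x * M.T n x ^ p) /
      ((M.c n * (M.P n).eval 1) * (mr 1 (M.P n) / (M.P n).eval 1) ^ p) -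
      (mr p (M.P n) / (M.P n).eval 1) / (mr 1 (M.P n) / (M.P n).eval 1) ^ p) atTop (𝓝 0) := by
    refine squeeze_zero_norm' ?_ hlim
    filter_upwards [ha, hp, h3, hb, m2, m4, eventually_ge_atTop M.n1, eventually_ge_atTop 3]
      with n ha hp h3 hb m2 m4 hn1 hn3
    have hn0 : (3 : ℝ) ≤ n := by exact_mod_cast hn3
    have hnp : (0 : ℝ) < n := by linarith
    have hL : 1 ≤ Real.log n := by
      rw [Real.le_log_iff_exp_le hnp]
      have := Real.exp_one_lt_d9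
      linarith
    obtain ⟨L, hLd⟩ : ∃ L, L = Real.log n := ⟨_, rfl⟩
    obtain ⟨σ, hσd⟩ : ∃ σ, σ = Real.sqrt n := ⟨_, rfl⟩
    have hσ2 : σ ^ 2 = n := by rw [hσd]; exact Real.sq_sqrt hnp.le
    have hσ1 : 1 ≤ σ := by
      rw [hσd, ← Real.sqrt_one]
      exact Real.sqrt_le_sqrt (by linarith)
    have hσ0 : 0 < σ := by linarith
    obtain ⟨ρ, hρ⟩ : ∃ ρ, ρ = (M.G n).rho ^ n := ⟨_, rfl⟩
    have hρ0 : 0 < ρ := by rw [hρ]; exact pow_pos (M.G n).rho_pos n
    obtain ⟨P1, hP1⟩ : ∃ P1, P1 = (M.P n).eval 1 := ⟨_, rfl⟩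
    obtain ⟨μ, hμ⟩ : ∃ μ, μ = mr 1 (M.P n) / P1 := ⟨_, rfl⟩
    obtain ⟨c, hc⟩ : ∃ c, c = M.c n := ⟨_, rfl⟩
    have hc0 : 0 < c := by rw [hc]; exact M.c_pos n
    rw [← hLd] at hL
    have hDn := hD1 n
    have hD0 : 0 < D n := by linarith
    have hA := fun r => sum_A M n hn1 r
    have hg := sum_good M n hn1
    rw [← hP1, ← hc] at hg
    rw [← hc, ← hP1, ← hμ]
    rw [← hLd, ← hρ, ← hc] at ha hp
    rw [← hρ, ← hc] at hb
    rw [← hσd, ← hρ, ← hP1] at m4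
    rw [← hσd, ← hP1, ← hμ] at m2
    rw [← hσd, ← hP1, ← hLd] at h3
    have hP0 : 0 < P1 := by
      by_contra hcon
      have h1 : (n : ℝ) * σ * ρ * P1 ≤ 0 :=
        mul_nonpos_of_nonneg_of_nonpos (by positivity) (not_lt.1 hcon)
      have h2 : 0 < (D n ^ K2)⁻¹ := by positivity
      linarith
    have hμ0 : 0 < μ := lt_of_lt_of_le (by positivity) m2
    obtain ⟨W, hW⟩ : ∃ W, W = c * P1 := ⟨_, rfl⟩
    have hW0 : 0 < W := by rw [hW]; positivity
    have hrem : c / ((n : ℝ) ^ 2 * ρ) ≤ D n ^ K2 * W / σ := by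
      rw [hW]
      exact momk_rem c P1 ρ n σ (D n ^ K2) hc0 hρ0 hnp hσ0 hσ2 (by positivity) m4
    obtain ⟨b, hbd⟩ : ∃ b, b = (n : ℝ) * σ * L := ⟨_, rfl⟩
    have hb1 : σ ≤ b := by
      rw [hbd]
      calc σ = 1 * σ * 1 := by ring
        _ ≤ n * σ * L := by gcongr; linarith
    have hb0 : 0 < b := by linarith
    obtain ⟨d, hdd⟩ : ∃ d, d = D n ^ K := ⟨_, rfl⟩
    have hd1 : 1 ≤ d := by rw [hdd]; exact one_le_pow₀ hDn
    have hmono : ∀ i j : ℕ, i ≤ j → D n ^ i ≤ D n ^ j := fun i j h => pow_le_pow_right₀ hDn h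
    rw [hg] at ha hp
    rw [← hW] at ha hp ⊢
    have hnear : ∀ (q Kq : ℕ), Kq + K2 ≤ K →
        ∑ x ∈ M.good n, M.wt n x * |M.T n x - M.A n x| ^ q ≤ (D n ^ Kq * n * L) ^ q * W +
          D n ^ Kq * (c / ((n : ℝ) ^ 2 * ρ)) →
        ∑ x ∈ M.good n, M.wt n x * |M.T n x - M.A n x| ^ q ≤ (d * b / σ) ^ q * W + d * W / σ := by
      intro q Kq hKq h
      refine h.trans (add_le_add ?_ ?_)
      · have e1 : d * b / σ = d * n * L := by
          rw [hbd]
          field_simp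
        rw [e1]
        have e2 : D n ^ Kq ≤ d := by rw [hdd]; exact hmono _ _ (by omega)
        gcongr
      · calc D n ^ Kq * (c / ((n : ℝ) ^ 2 * ρ)) ≤ D n ^ Kq * (D n ^ K2 * W / σ) := by gcongr
          _ = D n ^ (Kq + K2) * W / σ := by rw [pow_add]; ring
          _ ≤ d * W / σ := by
              rw [hdd]
              have := hmono _ _ hKq
              gcongr
    have hcore := momk_core (M.good n) (M.wt n) (M.T n) (fun x => (M.A n x : ℝ))
      (fun x _ => M.wt_nonneg n x) (fun x _ => M.T_nonneg n x) (fun x _ => Nat.cast_nonneg _)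
      W hW0.le p b σ d hd1 hσ1 hb1 (hnear 2 Ka (by omega) ha) (hnear p Ka (by omega) hp) (by
        rw [hA, ← hc]
        have e1 : c * mr (2 * (p - 1)) (M.P n) = W * (mr (2 * (p - 1)) (M.P n) / P1) := by
          rw [hW]
          field_simp
        rw [e1]
        have e2 : D n ^ K2 ≤ d := by rw [hdd]; exact hmono _ _ (by omega)
        calc W * (mr (2 * (p - 1)) (M.P n) / P1) ≤ W * (D n ^ K2 * b ^ (2 * (p - 1))) := by
              rw [hbd]
              exact mul_le_mul_of_nonneg_left h3 hW0.le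
          _ ≤ W * (d * b ^ (2 * (p - 1))) := by gcongr
          _ = _ := by ring)
    have hAp : ∑ x ∈ M.good n, M.wt n x * (M.A n x : ℝ) ^ p = W * (mr p (M.P n) / P1) := by
      rw [hA, ← hc, hW]
      field_simp
    rw [Real.norm_eq_abs]
    have e0 : (∑ x : M.Omega n, M.wt n x * M.T n x ^ p) / (W * μ ^ p) -
        mr p (M.P n) / P1 / μ ^ p =
        ((∑ x : M.Omega n, M.wt n x * M.T n x ^ p - ∑ x ∈ M.good n, M.wt n x * M.T n x ^ p) +
        (∑ x ∈ M.good n, M.wt n x * M.T n x ^ p - ∑ x ∈ M.good n, M.wt n x * (M.A n x : ℝ) ^ p)) /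
          (W * μ ^ p) := by
      rw [hAp]
      field_simp
      ring
    have hbad0 : 0 ≤ ∑ x : M.Omega n, M.wt n x * M.T n x ^ p -
        ∑ x ∈ M.good n, M.wt n x * M.T n x ^ p := by
      rw [sub_nonneg]
      exact Finset.sum_le_sum_of_subset_of_nonneg (Finset.subset_univ _) fun x _ _ =>
        mul_nonneg (M.wt_nonneg n x) (pow_nonneg (M.T_nonneg n x) p)
    have hnum : |(∑ x : M.Omega n, M.wt n x * M.T n x ^ p - ∑ x ∈ M.good n, M.wt n x * M.T n x ^ p) +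
        (∑ x ∈ M.good n, M.wt n x * M.T n x ^ p - ∑ x ∈ M.good n, M.wt n x * (M.A n x : ℝ) ^ p)| ≤
        D n ^ K2 * W / σ + 5 * p * 2 ^ p * (d ^ (p + 2) / σ) * b ^ p * W := by
      refine (abs_add_le _ _).trans (add_le_add ?_ hcore)
      rw [abs_of_nonneg hbad0]
      exact hb.trans hrem
    have hR : D n ^ K2 * μ ≥ n * σ := by
      calc (n : ℝ) * σ = D n ^ K2 * ((D n ^ K2)⁻¹ * (n * σ)) := by
            rw [← mul_assoc, mul_inv_cancel₀ (by positivity), one_mul]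
        _ ≤ D n ^ K2 * μ := by gcongr
    have hμ1 : 1 ≤ D n ^ K2 * μ := by
      refine le_trans ?_ hR
      calc (1 : ℝ) = 1 * 1 := by ring
        _ ≤ n * σ := by gcongr; linarith
    have hbμ : b ^ p ≤ (D n ^ (K2 * p) * L ^ p) * μ ^ p := by
      calc b ^ p = (n * σ * L) ^ p := by rw [hbd]
        _ ≤ (D n ^ K2 * μ * L) ^ p := by gcongr
        _ = _ := by rw [mul_pow, mul_pow, ← pow_mul]; ring
    have h1μ : 1 ≤ D n ^ (K2 * p) * μ ^ p := by
      rw [pow_mul, ← mul_pow]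
      exact one_le_pow₀ hμ1
    rw [e0, abs_div, abs_of_pos (by positivity : 0 < W * μ ^ p), div_le_iff₀ (by positivity)]
    refine hnum.trans ?_
    have hLp : 1 ≤ L ^ p := one_le_pow₀ hL
    have f1 : D n ^ K2 * W / σ ≤ D n ^ K' * L ^ p / σ * (W * μ ^ p) := by
      calc D n ^ K2 * W / σ = D n ^ K2 * 1 * 1 / σ * (W * 1) := by ring
        _ ≤ D n ^ K2 * D n ^ (K * (p + 2)) * L ^ p / σ * (W * (D n ^ (K2 * p) * μ ^ p)) := by
            have : 1 ≤ D n ^ (K * (p + 2)) := one_le_pow₀ hDn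
            gcongr
        _ = D n ^ (K * (p + 2) + K2 * p + K2) * L ^ p / σ * (W * μ ^ p) := by
            rw [pow_add, pow_add]
            ring
        _ ≤ _ := by
            have := hmono (K * (p + 2) + K2 * p + K2) K' hKK
            gcongr
    have f2 : 5 * p * 2 ^ p * (d ^ (p + 2) / σ) * b ^ p * W ≤
        5 * p * 2 ^ p * (D n ^ K' * L ^ p / σ * (W * μ ^ p)) := by
      calc 5 * p * 2 ^ p * (d ^ (p + 2) / σ) * b ^ p * W
          ≤ 5 * p * 2 ^ p * (d ^ (p + 2) / σ) * (D n ^ (K2 * p) * L ^ p * μ ^ p) * W := by gcongr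
        _ = 5 * p * 2 ^ p * (D n ^ (K * (p + 2) + K2 * p) * L ^ p / σ * (W * μ ^ p)) := by
            rw [hdd, ← pow_mul, pow_add]
            ring
        _ ≤ _ := by
            have := hmono (K * (p + 2) + K2 * p) K' (by omega)
            gcongr
    rw [← hLd, ← hσd]
    calc D n ^ K2 * W / σ + 5 * p * 2 ^ p * (d ^ (p + 2) / σ) * b ^ p * W
        ≤ D n ^ K' * L ^ p / σ * (W * μ ^ p) +
          5 * p * 2 ^ p * (D n ^ K' * L ^ p / σ * (W * μ ^ p)) := add_le_add f1 f2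
      _ = _ := by ring
  have hsum := key.add m1
  rw [zero_add] at hsum
  refine hsum.congr fun n => ?_
  ring


end WMKx

open WMKx

/-- **WMK**: the moments of `T / E[T]` converge. -/
theorem t_WMK (h : WMC_Stmt) : WMK_Stmt := by
  intro r K
  obtain ⟨Kc, K2, hC⟩ := h (2 * r + 2)
  obtain ⟨K', hK'⟩ : ∃ K', K' = (2 * K + 2 * K2) * (r + 3) + K2 * (r + 1) + K2 := ⟨_, rfl⟩
  refine ⟨Kc + 4 * K', fun D hD M hN hB => ?_⟩
  obtain ⟨m1, m2, m3, m4⟩ := hC D (hD.mono (Nat.le_add_right _ _)) M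
  have hD1 : ∀ n, 1 ≤ D n := fun n => by have := hD.two_le n; linarith
  have hDK : Tendsto (fun n : ℕ => D n ^ (4 * K') / (n : ℝ)) atTop (𝓝 0) :=
    (hD.mono (Nat.le_add_left _ _)).lim
  have hlim : ∀ p ≤ r + 1, Tendsto (fun n : ℕ => (∑ x : M.Omega n, M.wt n x * M.T n x ^ p) /
      ((M.c n * (M.P n).eval 1) * (mr 1 (M.P n) / (M.P n).eval 1) ^ p)) atTop
      (𝓝 (airyMoment p)) := by
    intro p hp
    refine lim hD.two_le M K K2 p K' ?_ hDK (hN 2 (by omega)) (hN p (by omega)) (hB p (by omega))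
      (m1 p (by omega)) m2 (m3 _ (by omega)) m4
    rw [hK']
    exact Nat.add_le_add (Nat.add_le_add (Nat.mul_le_mul_left _ (by omega))
      (Nat.mul_le_mul_left _ hp)) le_rfl
  have hpos : ∀ᶠ n : ℕ in atTop, 0 < (M.P n).eval 1 ∧ 0 < mr 1 (M.P n) / (M.P n).eval 1 := by
    filter_upwards [m2, m4, eventually_ge_atTop 1] with n m2 m4 hn
    have hnp : (0 : ℝ) < n := by exact_mod_cast hn
    have hσ : 0 < Real.sqrt n := Real.sqrt_pos.2 hnp
    have hD0 : 0 < D n := by have := hD1 n; linarith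
    have hρ : 0 < (M.G n).rho ^ n := pow_pos (M.G n).rho_pos n
    refine ⟨?_, lt_of_lt_of_le (by positivity) m2⟩
    by_contra hcon
    have h1 : (n : ℝ) * Real.sqrt n * (M.G n).rho ^ n * (M.P n).eval 1 ≤ 0 :=
      mul_nonpos_of_nonneg_of_nonpos (by positivity) (not_lt.1 hcon)
    have h2 : 0 < (D n ^ K2)⁻¹ := by positivity
    linarith
  have a0 : airyMoment 0 = 1 := by
    refine tendsto_nhds_unique (m1 0 (by omega)) (tendsto_const_nhds.congr' ?_)
    filter_upwards [hpos] with n hn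
    rw [pow_zero, div_one, momk_mr_zero, div_self hn.1.ne']
  have a1 : airyMoment 1 = 1 := by
    refine tendsto_nhds_unique (m1 1 (by omega)) (tendsto_const_nhds.congr' ?_)
    filter_upwards [hpos] with n hn
    rw [pow_one, div_self hn.2.ne']
  have l0 := hlim 0 (by omega)
  have l1 := hlim 1 (by omega)
  have lr := hlim r (by omega)
  rw [a0] at l0
  rw [a1] at l1
  have hfin := (lr.div l0 one_ne_zero).div ((l1.div l0 one_ne_zero).pow r)
    (by rw [div_one, one_pow]; exact one_ne_zero)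
  rw [div_one, div_one, one_pow, div_one] at hfin
  refine hfin.congr' ?_
  filter_upwards [hpos, l0.eventually_ne one_ne_zero] with n hn hn0
  have hW : (M.c n * (M.P n).eval 1) ≠ 0 := (mul_pos (M.c_pos n) hn.1).ne'
  have hμ : mr 1 (M.P n) / (M.P n).eval 1 ≠ 0 := hn.2.ne'
  simp only [Pi.div_apply] at hn0 ⊢
  unfold WModel.mom
  have e0 : ∑ x : M.Omega n, M.wt n x * M.T n x ^ 0 = M.W n := by
    unfold WModel.W
    refine Finset.sum_congr rfl fun x _ => ?_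
    rw [pow_zero, mul_one]
  have e1 : ∑ x : M.Omega n, M.wt n x * M.T n x ^ 1 = ∑ x : M.Omega n, M.wt n x * M.T n x := by
    simp only [pow_one]
  rw [e0, pow_zero, mul_one] at hn0
  have hWn : M.W n ≠ 0 := fun h => hn0 (by rw [h, zero_div])
  rw [e0, e1, pow_zero, mul_one, pow_one]
  obtain ⟨w, hw⟩ : ∃ w, w = M.c n * (M.P n).eval 1 := ⟨_, rfl⟩
  obtain ⟨μ, hμd⟩ : ∃ μ, μ = mr 1 (M.P n) / (M.P n).eval 1 := ⟨_, rfl⟩
  obtain ⟨S, hS⟩ : ∃ S, S = ∑ x : M.Omega n, M.wt n x * M.T n x ^ r := ⟨_, rfl⟩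
  obtain ⟨S1, hS1⟩ : ∃ S1, S1 = ∑ x : M.Omega n, M.wt n x * M.T n x := ⟨_, rfl⟩
  rw [← hw, ← hμd, ← hS, ← hS1]
  rw [← hw] at hW
  rw [← hμd] at hμ
  rw [show S1 / (w * μ) / (M.W n / w) = S1 / M.W n / μ by field_simp,
    show S / (w * μ ^ r) / (M.W n / w) = S / M.W n / μ ^ r by field_simp, div_pow, div_div_div_cancel_right₀ (pow_ne_zero r hμ)]

end Pool.Agent.PFW
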