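import Pool.Agent.PFW.StmtsC
import Pool.Agent.EXW.MOD3

/-!
# Project PFW, module WMOD (port of `EXW/MOD3.lean`): the sequence of models
-/

set_option autoImplicit false

namespace Pool.Agent.PFW

open Finset Pool.Agent.Lib27 Pool.Agent.SapR Pool.Agent.Gap Pool.Agent.FL Filter Topology
  Pool.Agent.AreaLaw MeasureTheory Pool.Agent.EXW
open scoped NNReal ENNReal

theorem t_WMOD (hNEAR : QNEAR_Stmt) (hPDIF : PDIF_Stmt) : WMOD_Stmt := by
  obtain ⟨Kn, hN⟩ := hNEAR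
  choose Kp hKp using hPDIF
  refine ⟨Kn, Kp, fun M D f N0 hN0 hM hMD1 hf d V hV' => ?_⟩
  have hM0 : ∀ n, 0 < M n := fun n => by linarith [hM n]
  have hθ0 : ∀ n, 0 < 1 - (M n)⁻¹ := fun n => by
    have : (M n)⁻¹ ≤ 1 / 2 := by
      rw [← one_div]
      exact one_div_le_one_div_of_le (by norm_num) (hM n)
    linarith
  have hs : ∀ n, 0 < Real.exp (-f n) := fun n => Real.exp_pos _
  have hs1 : ∀ n, Real.exp (-f n) ≤ 1 := fun n => by
    rw [Real.exp_le_one_iff]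
    linarith [hf n]
  have key : ∃ Q : WModel D, (∀ n x, Q.cdf n x = cdfO (mx N0 n) (Real.exp (-f n)) x) ∧
      (∀ n r, Q.mom n r = momO (mx N0 n) (Real.exp (-f n)) r) ∧
      (∀ n, Q.κ n = kap0 (M n ^ Kn) (M n) (1 - (M n)⁻¹) n) ∧
      (∀ n, Q.G n = (d n).G) ∧ (∀ n, Q.c n = 1) ∧
      (∀ n, ∑ x ∈ Q.good n, Q.wt n x =
        ∑ q ∈ M41.Om (2 * mx N0 n - 1) (mx N0 n), wtq (mx N0 n) (Real.exp (-f n)) q) ∧
      (∀ n p, ∑ x ∈ Q.good n, Q.wt n x * |Q.T n x - Q.A n x| ^ p =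
        ∑ q ∈ M41.Om (2 * mx N0 n - 1) (mx N0 n), wtq (mx N0 n) (Real.exp (-f n)) q *
          |(|((dbl 0 q.2.2.2 + dbl 0 q.2.2.1 : ℤ) : ℝ)| -
            (M41.Ar (2 * mx N0 n - 1) q.2.2.2 : ℝ))| ^ p) ∧
      (∀ n p, ∑ x : Q.Omega n, Q.wt n x * Q.T n x ^ p - ∑ x ∈ Q.good n, Q.wt n x * Q.T n x ^ p =
        ∑ w ∈ NoCut (mx N0 n), 1 / (4 * ((mx N0 n : ℕ) : ℝ)) *
          (Real.exp (-f n)) ^ (mx N0 n - spn w) * |((dbl 0 w : ℤ) : ℝ)| ^ p) := by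
   refine ⟨{
    G := fun n => (d n).G
    C0 := fun n => 2 * mx N0 n
    s := fun n => capW (mx N0 n) (Real.exp (-f n))
    t := fun n => capW (mx N0 n) (Real.exp (-f n))
    Vs := V
    Vt := V
    cls := fun n => cls_mono (hM n) (hMD1 n) (d n).cls
    cap_s := fun n => clsCap_mono (hM n) (hMD1 n) (d n).cap
    cap_t := fun n => clsCap_mono (hM n) (hMD1 n) (d n).cap
    crit_s := hV'
    crit_t := hV'
    B := fun n => (d n).B
    sol := fun n => (d n).sol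
    Omega := fun n => Omg (mx N0 n)
    fin := fun n => inferInstance
    good := fun n => goodO (mx N0 n)
    wt := fun n => wtO (mx N0 n) (Real.exp (-f n))
    T := fun n x => (TZ (mx N0 n) x : ℝ)
    A := fun n => AO (mx N0 n)
    wt_nonneg := fun n x => wtO_nonneg _ _ (hs _) x
    T_nonneg := fun n x => TZ_nonneg _ x
    c := fun _ => 1
    c_pos := fun _ => one_pos
    κ := fun n => kap0 (M n ^ Kn) (M n) (1 - (M n)⁻¹) n
    n1 := N0
    count := ?_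
    near := ?_
    bad := ?_ }, ?_, ?_, ?_, ?_, ?_, ?_, ?_, ?_⟩
   · intro n hn
     have h1 := (d n).count
     rw [Polynomial.C_1, one_mul]
     have h2 : closeP (2 * mx N0 n) (capW (mx N0 n) (Real.exp (-f n))) (d n).B (mx N0 n) =
         closeP (2 * mx N0 n) (capW (mx N0 n) (Real.exp (-f n))) (d n).B n :=
       congrArg (closeP (2 * mx N0 n) (capW (mx N0 n) (Real.exp (-f n))) (d n).B) (mx_eq N0 n hn)
     rw [← h2, ← h1]
     exact sum_goodO (mx N0 n) (fun q => Polynomial.C (wtq (mx N0 n) (Real.exp (-f n)) q) *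
       (Polynomial.X : Polynomial ℝ) ^ (M41.Ar (2 * mx N0 n - 1) q.2.2.2)) _ (fun q => rfl)
   · intro n hn
     have h1 := near_bound (hM0 n) (hθ0 n) (show 0 < M n ^ Kn from pow_pos (hM0 n) _)
       (hN (M n) (hM n)) (mx N0 n) n (mx_eq N0 n hn) (hN0.trans hn) _ (hs _) (hs1 _)
       (d n)
     have e1 : ∑ x ∈ goodO (mx N0 n), wtO (mx N0 n) (Real.exp (-f n)) x *
         |(TZ (mx N0 n) x : ℝ) - AO (mx N0 n) x| =
         ∑ q ∈ M41.Om (2 * mx N0 n - 1) (mx N0 n), wtq (mx N0 n) (Real.exp (-f n)) q *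
         |(|((dbl 0 q.2.2.2 + dbl 0 q.2.2.1 : ℤ) : ℝ)| -
           (M41.Ar (2 * mx N0 n - 1) q.2.2.2 : ℝ))| := by
       refine sum_goodO (mx N0 n) (fun q => wtq (mx N0 n) (Real.exp (-f n)) q *
         |(|((dbl 0 q.2.2.2 + dbl 0 q.2.2.1 : ℤ) : ℝ)| -
           (M41.Ar (2 * mx N0 n - 1) q.2.2.2 : ℝ))|) _ (fun q => ?_)
       simp only [wtO, TZ, AO, Sum.elim_inl, Int.cast_abs]
     have e2 : ∑ x ∈ goodO (mx N0 n), wtO (mx N0 n) (Real.exp (-f n)) x =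
         ∑ q ∈ M41.Om (2 * mx N0 n - 1) (mx N0 n), wtq (mx N0 n) (Real.exp (-f n)) q :=
       sum_goodO (mx N0 n) (fun q => wtq (mx N0 n) (Real.exp (-f n)) q) _ (fun q => rfl)
     rw [e1, e2]
     exact h1
   · intro n hn
     have h1 := bad_bound (hM0 n) (hθ0 n) (show 0 < M n ^ Kn from pow_pos (hM0 n) _)
       (mx N0 n) n (mx_eq N0 n hn) (hN0.trans hn) _ (hs _) (d n)
     refine le_trans (le_of_eq ?_) h1
     have e1 : ∑ x : Omg (mx N0 n), wtO (mx N0 n) (Real.exp (-f n)) x *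
           (1 + (TZ (mx N0 n) x : ℝ)) =
         ∑ q ∈ M41.Om (2 * mx N0 n - 1) (mx N0 n), wtq (mx N0 n) (Real.exp (-f n)) q *
           (1 + |((dbl 0 q.2.2.2 + dbl 0 q.2.2.1 : ℤ) : ℝ)|) +
         ∑ w ∈ NoCut (mx N0 n), 1 / (4 * ((mx N0 n : ℕ) : ℝ)) *
           (Real.exp (-f n)) ^ (mx N0 n - spn w) * (1 + |((dbl 0 w : ℤ) : ℝ)|) := by
       refine sum_Omg (mx N0 n) _ _ _ (fun q => ?_) (fun w => ?_)
       · simp only [wtO, TZ, Sum.elim_inl, Int.cast_abs]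
       · simp only [wtO, TZ, Sum.elim_inr, Int.cast_abs]
     have e2 : ∑ x ∈ goodO (mx N0 n), wtO (mx N0 n) (Real.exp (-f n)) x *
           (1 + (TZ (mx N0 n) x : ℝ)) =
         ∑ q ∈ M41.Om (2 * mx N0 n - 1) (mx N0 n), wtq (mx N0 n) (Real.exp (-f n)) q *
           (1 + |((dbl 0 q.2.2.2 + dbl 0 q.2.2.1 : ℤ) : ℝ)|) := by
       refine sum_goodO (mx N0 n) (fun q => wtq (mx N0 n) (Real.exp (-f n)) q *
           (1 + |((dbl 0 q.2.2.2 + dbl 0 q.2.2.1 : ℤ) : ℝ)|)) _ (fun q => ?_)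
       simp only [wtO, TZ, Sum.elim_inl, Int.cast_abs]
     rw [e1, e2]
     ring
   · intro n x
     rfl
   · intro n r
     rfl
   · intro n
     rfl
   · intro n
     rfl
   · intro n
     rfl
   · intro n
     exact sum_goodO (mx N0 n) (fun q => wtq (mx N0 n) (Real.exp (-f n)) q) _ (fun q => rfl)
   · intro n p
     refine sum_goodO (mx N0 n) (fun q => wtq (mx N0 n) (Real.exp (-f n)) q *
        |(|((dbl 0 q.2.2.2 + dbl 0 q.2.2.1 : ℤ) : ℝ)| -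
          (M41.Ar (2 * mx N0 n - 1) q.2.2.2 : ℝ))| ^ p) _ (fun q => ?_)
     simp only [wtO, TZ, AO, Sum.elim_inl, Int.cast_abs]
   · intro n p
     have e1 : ∑ x : Omg (mx N0 n), wtO (mx N0 n) (Real.exp (-f n)) x *
          (TZ (mx N0 n) x : ℝ) ^ p =
        ∑ q ∈ M41.Om (2 * mx N0 n - 1) (mx N0 n), wtq (mx N0 n) (Real.exp (-f n)) q *
          |((dbl 0 q.2.2.2 + dbl 0 q.2.2.1 : ℤ) : ℝ)| ^ p +
        ∑ w ∈ NoCut (mx N0 n), 1 / (4 * ((mx N0 n : ℕ) : ℝ)) *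
          (Real.exp (-f n)) ^ (mx N0 n - spn w) * |((dbl 0 w : ℤ) : ℝ)| ^ p := by
       refine sum_Omg (mx N0 n) _ _ _ (fun q => ?_) (fun w => ?_)
       · simp only [wtO, TZ, Sum.elim_inl, Int.cast_abs]
       · simp only [wtO, TZ, Sum.elim_inr, Int.cast_abs]
     have e2 : ∑ x ∈ goodO (mx N0 n), wtO (mx N0 n) (Real.exp (-f n)) x *
          (TZ (mx N0 n) x : ℝ) ^ p =
        ∑ q ∈ M41.Om (2 * mx N0 n - 1) (mx N0 n), wtq (mx N0 n) (Real.exp (-f n)) q *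
          |((dbl 0 q.2.2.2 + dbl 0 q.2.2.1 : ℤ) : ℝ)| ^ p := by
       refine sum_goodO (mx N0 n) (fun q => wtq (mx N0 n) (Real.exp (-f n)) q *
          |((dbl 0 q.2.2.2 + dbl 0 q.2.2.1 : ℤ) : ℝ)| ^ p) _ (fun q => ?_)
       simp only [wtO, TZ, Sum.elim_inl, Int.cast_abs]
     change ∑ x : Omg (mx N0 n), wtO (mx N0 n) (Real.exp (-f n)) x * (TZ (mx N0 n) x : ℝ) ^ p -
       ∑ x ∈ goodO (mx N0 n), wtO (mx N0 n) (Real.exp (-f n)) x * (TZ (mx N0 n) x : ℝ) ^ p = _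
     rw [e1, e2]
     ring
  obtain ⟨Q, hcdf, hmom, hkap, hG, hc, hgood, hnear, hbad⟩ := key
  refine ⟨Q, hcdf, hmom, ?_, ?_, ?_⟩
  · intro j hj
    unfold WModel.Kap
    refine hj.congr fun n => ?_
    rw [hkap]
  · intro p
    unfold WModel.Near
    filter_upwards [eventually_ge_atTop N0] with n hn
    rw [hnear n p, hgood n, hG n, hc n]
    exact MOD3.near_p p (Kp p) (hKp p) (M n) (D n) (hM n) (hMD1 n) (mx N0 n) n (mx_eq N0 n hn)
      (hN0.trans hn) _ (hs _) (hs1 _) (d n)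
  · intro hexp p
    have h1 : ∀ᶠ n : ℕ in atTop,
        (n : ℝ) ^ (2 * p + 2) * D n ^ 1 * (1 - (M n)⁻¹) ^ n < 1 / 4 ^ p :=
      (hexp (2 * p + 2) 1).eventually_lt_const (by positivity)
    unfold WModel.Bad
    filter_upwards [eventually_ge_atTop N0, h1] with n hn h2
    rw [hbad n p, hG n, hc n]
    exact MOD3.bad_p p (M n) (D n) _ (hMD1 n) (hθ0 n) (mx N0 n) n (mx_eq N0 n hn)
      (hN0.trans hn) _ (hs _) (d n) h2.le

end Pool.Agent.PFW
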