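import Pool.Agent.PFW.StmtsW
import Pool.Agent.EXW.QP

/-!
# Project PFW, module WP (port of `EXW/QP.lean`)
-/

set_option autoImplicit false

namespace Pool.Agent.PFW

open Finset Filter Topology
open Pool.Agent.Gap Pool.Agent.FL Pool.Agent.EXW
open Pool.Agent.EXW.QP

theorem t_WP (hE : WE_Stmt) (hCA : WCA_Stmt) (hJ2 : QGJ2_Stmt) (hPAR : QPAR_Stmt)
    (hS0 : QS0_Stmt) (hJ1 : J1_Stmt) (hJ2s : J2_Stmt) : WP_Stmt := by
  obtain ⟨KA, hKA⟩ := hCA
  obtain ⟨KE, KE1, hE'⟩ := hE KA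
  obtain ⟨KP, KP1, hP⟩ := hPAR
  obtain ⟨KJ, hJ⟩ := hJ2
  obtain ⟨Km, hm⟩ := par_bounds
  obtain ⟨Cs, hCs, hS⟩ := hS0
  obtain ⟨C2, hC2, hJ0⟩ := hJ2s stair 1 cap1 cap1 isCap_cap1 isCap_cap1
  have hPB : PB fun E => E ^ KJ
      + E ^ Km * (E ^ KE1 * E ^ KE1 + E ^ KA * (E ^ KE1 * (Cs * E ^ KP1))
        + E ^ KA * (Cs * E ^ KP1 * E ^ KE1))
      + E ^ Km * (E ^ KA * E ^ KA) * C2 :=
    ((PB.pow_self KJ).add ((PB.pow_self Km).mul ((((PB.pow_self KE1).mul (PB.pow_self KE1)).add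
      ((PB.pow_self KA).mul ((PB.pow_self KE1).mul ((PB.const Cs).mul (PB.pow_self KP1))))).add
      ((PB.pow_self KA).mul (((PB.const Cs).mul (PB.pow_self KP1)).mul
        (PB.pow_self KE1)))))).add
      (((PB.pow_self Km).mul ((PB.pow_self KA).mul (PB.pow_self KA))).mul (PB.const C2))
  obtain ⟨K1, hK1⟩ := hPB.le
  refine ⟨max KE KP, max K1 (Km + (KA + KA)), ?_⟩
  intro D hD G hG C0 s t Vs Vt hs ht hVs hVt
  obtain ⟨As, hAs⟩ := hKA D hD G hG C0 s Vs hs hVs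
  obtain ⟨At, hAt⟩ := hKA D hD G hG C0 t Vt ht hVt
  obtain ⟨hm1, hm2, -, -, -, -⟩ := hm D hD G hG
  have hD1 : (1 : ℝ) ≤ D := by linarith
  have hD0 : (0 : ℝ) < D := by linarith
  have hAs0 : 0 < As := lt_of_lt_of_le (by positivity) hAs.low
  have hAt0 : 0 < At := lt_of_lt_of_le (by positivity) hAt.low
  have hm0 : 0 < G.mbar := by linarith
  have hKle : D ^ (Km + (KA + KA)) ≤ D ^ max K1 (Km + (KA + KA)) :=
    pow_le_pow_right₀ hD1 (le_max_right _ _)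
  refine ⟨G.mbar * (As * At), ?_, ?_, ?_⟩
  · have h1 : (D ^ KA)⁻¹ * (D ^ KA)⁻¹ ≤ As * At :=
      mul_le_mul hAs.low hAt.low (by positivity) hAs0.le
    have h2 : As * At ≤ G.mbar * (As * At) := by
      have : 0 < As * At := mul_pos hAs0 hAt0
      nlinarith
    have h3 : (D ^ max K1 (Km + (KA + KA)))⁻¹ ≤ (D ^ KA)⁻¹ * (D ^ KA)⁻¹ := by
      rw [← mul_inv, ← pow_add]
      refine inv_anti₀ (by positivity) (pow_le_pow_right₀ hD1 ?_)
      exact (Nat.le_add_left _ _).trans (le_max_right _ _)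
    exact h3.trans (h1.trans h2)
  · refine le_trans ?_ hKle
    rw [pow_add, pow_add]
    have h1 : As * At ≤ D ^ KA * D ^ KA := mul_le_mul hAs.up hAt.up hAt0.le (by positivity)
    exact mul_le_mul hm2 h1 (mul_pos hAs0 hAt0).le (by positivity)
  intro W n n0 eps eps' hsc N hN hC0N b b0 hb hb0 w hw hwW
  have hscE : Sc KE D W G n n0 eps eps' := sc_mono (le_max_left _ _) hsc
  have hscP : Sc KP D W G n n0 eps eps' := sc_mono (le_max_right _ _) hsc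
  have hW2 := hsc.W2
  obtain ⟨⟨hn1, hn01, -, -, -, hn0n⟩, ⟨heps, -, -, -, -⟩, hz⟩ := hP D W G n n0 eps eps' hscP
  obtain ⟨hz1, hz2, -⟩ := hz w hw hwW
  have heps' := hsc.eps_nonneg
  have hw0 : 0 < w.re := by rw [hw]; norm_num
  -- the array for the second cap
  obtain ⟨b', hb'⟩ := (hJ1 G C0 t ht.cap N eps heps).1
  -- the solutions
  have hsol : G.Solves eps (zn G.rho w n) N (gf 0 b (zn G.rho w n))
      (capz C0 s 0 (zn G.rho w n)) := by
    have := ((hJ1 G C0 s hs.cap N eps heps).2 b hb).2.2.2 (zn G.rho w n) hz1 0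
    simpa using this
  have hsol' : G.Solves eps (zn G.rho w n) N (gf 0 b' (zn G.rho w n))
      (capz C0 t 0 (zn G.rho w n)) := by
    have := ((hJ1 G C0 t ht.cap N eps heps).2 b' hb').2.2.2 (zn G.rho w n) hz1 0
    simpa using this
  have hsol0 : stair.Solves eps' (zn (1 / 4) w n0) N (gf 0 b0 (zn (1 / 4) w n0))
      (src1 (zn (1 / 4) w n0)) := by
    have := ((hJ1 stair 1 cap1 isCap_cap1 N eps' heps').2 b0 hb0).2.2.2
      (zn (1 / 4) w n0) (zn_norm_lt _ (by norm_num) w hw0 _ hn01) 0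
    rw [← capz_cap1]
    simpa using this
  have c1 := hE' D W G n n0 eps eps' hscE C0 s Vs As hs hVs hAs w N _ _ hw hwW hN hsol hsol0
  have c2 := hE' D W G n n0 eps eps' hscE C0 t Vt At ht hVt hAt w N _ _ hw hwW hN hsol' hsol0
  obtain ⟨hq, -⟩ := hS n0 N eps' w _ hn01 hw heps' hsol0
  -- the parameter `E = D W`
  set E : ℝ := D * W with hEdef
  have hDE : D ≤ E := by nlinarith
  have hE2 : 2 ≤ E := by linarith
  have hE1 : 1 ≤ E := by linarith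
  have hE0 : 0 < E := by linarith
  have hpow : ∀ k : ℕ, D ^ k ≤ E ^ k := fun k => pow_le_pow_left₀ hD0.le hDE k
  have hone : ∀ k : ℕ, 1 ≤ E ^ k := fun k => one_le_pow₀ hE1
  have hqn1 := one_le_qn hn1
  have hqn0 : 0 < qn n := by linarith
  have hqq : qn n0 ≤ D ^ KP1 * qn n := qn_le (one_le_pow₀ hD1) hn0n
  have hx := sqrt_le_of c1 (hone KE1)
  have hy := sqrt_le_of c2 (hone KE1)
  have hq' : Real.sqrt (nsq N (gf 0 b0 (zn (1 / 4) w n0))) ≤ Cs * E ^ KP1 * qn n := by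
    refine hq.trans ?_
    calc Cs * qn n0 ≤ Cs * (D ^ KP1 * qn n) := by gcongr
      _ ≤ Cs * (E ^ KP1 * qn n) := by
        have := hpow KP1
        gcongr
      _ = _ := by ring
  have hp := pairing N _ _ _ hAs0.le hAt0.le hx hy hq'
  obtain ⟨_, a2, _⟩ := hJ D hD G hG C0 s t hs ht N eps heps hC0N b b' hb hb' _ hz1
  obtain ⟨_, d2, _, _⟩ := hJ0 N eps' heps' (by nlinarith) b0 b0 hb0 hb0 (zn (1 / 4) w n0)
    (zn_norm_lt _ (by norm_num) w hw0 _ hn01)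
  rw [mbar_stair] at d2
  set P := ∑ g ∈ Icc (1 : ℤ) N, gf 0 b (zn G.rho w n) g * gf 0 b' (zn G.rho w n) g with hPdef
  set Q := ∑ g ∈ Icc (1 : ℤ) N, gf 0 b0 (zn (1 / 4) w n0) g * gf 0 b0 (zn (1 / 4) w n0) g
    with hQdef
  have e1 : sgf 1 (close C0 t b) (zn G.rho w n)
      - ((G.mbar * (As * At) : ℝ) : ℂ) * sgf 1 (close 1 cap1 b0) (zn (1 / 4) w n0)
      = (sgf 1 (close C0 t b) (zn G.rho w n) - (G.mbar : ℂ) * P)
        + (G.mbar : ℂ) * (P - ((As * At : ℝ) : ℂ) * Q)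
        + -(((G.mbar * (As * At) : ℝ) : ℂ) *
          (sgf 1 (close 1 cap1 b0) (zn (1 / 4) w n0) - ((1 : ℝ) : ℂ) * Q)) := by
    push_cast
    ring
  rw [e1]
  refine norm_add₃_le.trans ?_
  have hc0 : 0 ≤ G.mbar * (As * At) := by positivity
  rw [norm_neg, norm_mul, norm_mul, Complex.norm_real, Complex.norm_real,
    Real.norm_of_nonneg hm0.le, Real.norm_of_nonneg hc0]
  have hAsE : As ≤ E ^ KA := hAs.up.trans (hpow KA)
  have hAtE : At ≤ E ^ KA := hAt.up.trans (hpow KA)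
  have hmE : G.mbar ≤ E ^ Km := hm2.trans (hpow Km)
  have hJE : D ^ KJ ≤ E ^ KJ := hpow KJ
  have hkey := hK1 E hE2
  have b1 : ‖sgf 1 (close C0 t b) (zn G.rho w n) - (G.mbar : ℂ) * P‖ ≤ E ^ KJ * qn n := by
    refine (a2.trans hJE).trans ?_
    exact le_mul_of_one_le_right (by positivity) hqn1
  have b2 : G.mbar * ‖P - ((As * At : ℝ) : ℂ) * Q‖
      ≤ E ^ Km * (E ^ KE1 * E ^ KE1 + E ^ KA * (E ^ KE1 * (Cs * E ^ KP1))
        + E ^ KA * (Cs * E ^ KP1 * E ^ KE1)) * qn n := by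
    have h1 : E ^ KE1 * E ^ KE1 + At * (E ^ KE1 * (Cs * E ^ KP1 * qn n))
        + As * (Cs * E ^ KP1 * qn n * E ^ KE1)
        ≤ (E ^ KE1 * E ^ KE1 + E ^ KA * (E ^ KE1 * (Cs * E ^ KP1))
        + E ^ KA * (Cs * E ^ KP1 * E ^ KE1)) * qn n := by
      have i1 : E ^ KE1 * E ^ KE1 ≤ E ^ KE1 * E ^ KE1 * qn n := le_mul_of_one_le_right
        (by positivity) hqn1
      have i2 : At * (E ^ KE1 * (Cs * E ^ KP1 * qn n))
          ≤ E ^ KA * (E ^ KE1 * (Cs * E ^ KP1)) * qn n := by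
        calc At * (E ^ KE1 * (Cs * E ^ KP1 * qn n))
            ≤ E ^ KA * (E ^ KE1 * (Cs * E ^ KP1 * qn n)) := by gcongr
          _ = _ := by ring
      have i3 : As * (Cs * E ^ KP1 * qn n * E ^ KE1)
          ≤ E ^ KA * (Cs * E ^ KP1 * E ^ KE1) * qn n := by
        calc As * (Cs * E ^ KP1 * qn n * E ^ KE1)
            ≤ E ^ KA * (Cs * E ^ KP1 * qn n * E ^ KE1) := by gcongr
          _ = _ := by ring
      calc _ ≤ E ^ KE1 * E ^ KE1 * qn n + E ^ KA * (E ^ KE1 * (Cs * E ^ KP1)) * qn n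
            + E ^ KA * (Cs * E ^ KP1 * E ^ KE1) * qn n := add_le_add (add_le_add i1 i2) i3
        _ = _ := by ring
    rw [mul_assoc]
    exact mul_le_mul hmE (hp.trans h1) (norm_nonneg _) (by positivity)
  have b3 : G.mbar * (As * At) *
      ‖sgf 1 (close 1 cap1 b0) (zn (1 / 4) w n0) - ((1 : ℝ) : ℂ) * Q‖
      ≤ E ^ Km * (E ^ KA * E ^ KA) * C2 * qn n := by
    calc G.mbar * (As * At) *
        ‖sgf 1 (close 1 cap1 b0) (zn (1 / 4) w n0) - ((1 : ℝ) : ℂ) * Q‖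
        ≤ E ^ Km * (E ^ KA * E ^ KA) * C2 := by gcongr
      _ ≤ _ := le_mul_of_one_le_right (by positivity) hqn1
  calc _ ≤ E ^ KJ * qn n
        + E ^ Km * (E ^ KE1 * E ^ KE1 + E ^ KA * (E ^ KE1 * (Cs * E ^ KP1))
          + E ^ KA * (Cs * E ^ KP1 * E ^ KE1)) * qn n
        + E ^ Km * (E ^ KA * E ^ KA) * C2 * qn n := add_le_add (add_le_add b1 b2) b3
    _ = (E ^ KJ + E ^ Km * (E ^ KE1 * E ^ KE1 + E ^ KA * (E ^ KE1 * (Cs * E ^ KP1))
          + E ^ KA * (Cs * E ^ KP1 * E ^ KE1))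
        + E ^ Km * (E ^ KA * E ^ KA) * C2) * qn n := by ring
    _ ≤ E ^ K1 * qn n := mul_le_mul_of_nonneg_right hkey hqn0.le
    _ ≤ E ^ max K1 (Km + (KA + KA)) * qn n := by
        refine mul_le_mul_of_nonneg_right ?_ hqn0.le
        exact pow_le_pow_right₀ hE1 (le_max_left _ _)

end Pool.Agent.PFW
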