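import Pool.Agent.PFW.StmtsC
import Pool.Agent.EXW.StmtsA
import Pool.Agent.EXW.QGVL
import Pool.Agent.Lib_helper89.FL.GVL

/-!
# Module PFW_WVL: the limit of a nonnegative critical solution and the pointwise upper bound
-/

set_option autoImplicit false

open Finset Filter Topology

namespace Pool.Agent.PFW

open Pool.Agent.Gap Pool.Agent.FL Pool.Agent.EXW Pool.Agent.Gap.VL Pool.Agent.FL.GVL
open Pool.Agent.EXW.QGVL

namespace WVL

/-- the defect of harmonicity is exponentially small -/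
lemma defectN {C θ : ℝ} {G : GapKernel} (hC : 0 < C) (h0 : 0 < θ) (h1 : θ < 1) (hG : Cls C θ G)
    {R' : ℕ} {s v : ℤ → ℝ} (hs : CritSrc C θ R' s) (hv : CritN C G s v) (n : ℕ) (hn : 1 ≤ n) :
    |(∑ d ∈ Icc (-(G.R : ℤ)) G.R, kk G d * v (n + d)) - v n|
      ≤ (C + C * (C / (1 - √θ))) * (√(√θ)) ^ n := by
  obtain ⟨a1, a2, a3, a4, a5⟩ := root_bounds h0 h1
  have hvabs : ∀ g, |v g| ≤ C := by
    intro g
    rw [abs_of_nonneg (hv.nonneg g)]
    exact hv.up g
  have e1 : (∑ d ∈ Icc (-(G.R : ℤ)) G.R, kk G d * v (n + d)) - v n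
      = -(s n) + ∑ d ∈ Icc (-(G.R : ℤ)) G.R, (kk G d - G.Kc n (n + d)) * v (n + d) := by
    have h2 := hv.eq n (by exact_mod_cast hn)
    rw [sum_Icc_shift] at h2
    have h3 : ∑ d ∈ Icc (-(G.R : ℤ)) G.R, (kk G d - G.Kc n (n + d)) * v (n + d)
        = ∑ d ∈ Icc (-(G.R : ℤ)) G.R, kk G d * v (n + d)
          - ∑ d ∈ Icc (-(G.R : ℤ)) G.R, G.Kc n (n + d) * v (n + d) := by
      rw [← Finset.sum_sub_distrib]
      exact Finset.sum_congr rfl fun d _ => by ring
    rw [h3]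
    linarith
  have e2 : |∑ d ∈ Icc (-(G.R : ℤ)) G.R, (kk G d - G.Kc n (n + d)) * v (n + d)|
      ≤ C * (C / (1 - √θ)) * (√(√θ)) ^ n := by
    calc |∑ d ∈ Icc (-(G.R : ℤ)) G.R, (kk G d - G.Kc n (n + d)) * v (n + d)|
        ≤ ∑ d ∈ Icc (-(G.R : ℤ)) G.R, |(kk G d - G.Kc n (n + d)) * v (n + d)| :=
          Finset.abs_sum_le_sum_abs _ _
      _ ≤ ∑ d ∈ Icc (-(G.R : ℤ)) G.R, ∑ i ∈ G.S.filter (fun i => n ≤ 2 * i.1),
            C * (G.rho ^ i.1 * G.T i d) := by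
          refine Finset.sum_le_sum fun d _ => ?_
          have e3 : (kk G d - G.Kc n (n + d)) * v (n + d)
              = ∑ i ∈ G.S, (G.rho ^ i.1 * (G.T i d - G.K i n (n + d))) * v (n + d) := by
            unfold kk GapKernel.Kc
            rw [← Finset.sum_sub_distrib, Finset.sum_mul]
            exact Finset.sum_congr rfl fun i _ => by ring
          rw [e3, Finset.sum_filter]
          refine (Finset.abs_sum_le_sum_abs _ _).trans (Finset.sum_le_sum fun i _ => ?_)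
          have h4 := G.K_nonneg i n (n + d)
          have h5 := G.K_le i n (n + d)
          rw [add_sub_cancel_left] at h5
          have h6 : 0 ≤ G.rho ^ i.1 := pow_nonneg G.rho_pos.le _
          split_ifs with h
          · rw [abs_mul, abs_of_nonneg (mul_nonneg h6 (by linarith)), mul_comm]
            refine mul_le_mul (hvabs _) ?_ (mul_nonneg h6 (by linarith)) hC.le
            refine mul_le_mul_of_nonneg_left (by linarith) h6
          · rcases le_or_gt ((n : ℤ) + d) 0 with h7 | h7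
            · rw [hv.zero _ h7, mul_zero, abs_zero]
            · rw [hG.loc.K_loc i n (n + d) (by exact_mod_cast hn) h7 (by omega),
                add_sub_cancel_left, sub_self, mul_zero, zero_mul, abs_zero]
      _ = C * ∑ i ∈ G.S.filter (fun i => n ≤ 2 * i.1), G.rho ^ i.1 * G.tot i := by
          rw [Finset.sum_comm, Finset.mul_sum]
          refine Finset.sum_congr rfl fun i _ => ?_
          unfold GapKernel.tot
          rw [← Finset.mul_sum, ← Finset.mul_sum]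
      _ ≤ C * (C / (1 - √θ) * (√(√θ)) ^ n) :=
          mul_le_mul_of_nonneg_left (FL.GVL.tail hC h0 h1 hG n) hC.le
      _ = _ := by ring
  have e3 : |s n| ≤ C * (√(√θ)) ^ n := by
    rw [abs_of_nonneg (hs.nonneg _)]
    refine (hs.dec n).trans ?_
    have : θ ^ n ≤ (√(√θ)) ^ n := pow_le_pow_left₀ h0.le a5 n
    gcongr
  rw [e1]
  calc |-(s n) + ∑ d ∈ Icc (-(G.R : ℤ)) G.R, (kk G d - G.Kc n (n + d)) * v (n + d)|
      ≤ |-(s n)| + |∑ d ∈ Icc (-(G.R : ℤ)) G.R, (kk G d - G.Kc n (n + d)) * v (n + d)| :=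
        abs_add_le _ _
    _ ≤ C * (√(√θ)) ^ n + C * (C / (1 - √θ)) * (√(√θ)) ^ n := by
        rw [abs_neg]; exact add_le_add e3 e2
    _ = _ := by ring

/-- the old module with explicit constants -/
theorem coreN {C θ : ℝ} (hC : 0 < C) (h0 : 0 < θ) (h1 : θ < 1) (G : GapKernel) (hG : Cls C θ G)
    (R' : ℕ) (s v : ℤ → ℝ) (hs : CritSrc C θ R' s) (hv : CritN C G s v) :
    ∃ A : ℝ, 0 ≤ A ∧ A ≤ C ∧
      (∀ N : ℕ, ∑ g ∈ Icc (1 : ℤ) N, (g : ℝ) ^ 2 * (v g - A) ^ 2 ≤ c3 C θ) ∧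
      ∀ n : ℕ, v n ≤ C * (P5 C θ * A + q1 C θ * (√(√θ)) ^ n) := by
  obtain ⟨a1, a2, a3, a4, a5⟩ := root_bounds h0 h1
  set φ := √(√θ) with hφ
  set W0 := C / (1 - √θ) with hW0
  have hW0n : 0 ≤ W0 := div_nonneg hC.le (by linarith)
  set q0 := C + C * W0 with hq0
  have hq0n : 0 ≤ q0 := by positivity
  have h1φ : 0 < 1 - φ := by linarith
  set Q1 := q0 / (1 - φ) ^ 2 with hQ1
  have hQ1n : 0 ≤ Q1 := by positivity
  have hs2 : Summable fun n : ℕ => (n : ℝ) ^ 2 * φ ^ n :=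
    summable_pow_mul_geometric_of_norm_lt_one 2 (by rwa [Real.norm_of_nonneg a3.le])
  set Z2 := ∑' n : ℕ, (n : ℝ) ^ 2 * φ ^ n with hZ2
  have hZ2n : 0 ≤ Z2 := tsum_nonneg fun n => by positivity
  set X := 2 * C * Q1 * Z2 with hX
  have hXn : 0 ≤ X := by positivity
  set P := P5 C θ with hP
  have hPn : 0 ≤ P := by
    rw [hP]; unfold P5
    exact mul_nonneg hW0n (tsum_nonneg fun n => by positivity)
  set C2 := C * (X + 3 * (2 * C) ^ 2 * P) with hC2
  have hC2n : 0 ≤ C2 := by positivity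
  set C3 := C * (X + (P * C2 + 12 * (2 * C) ^ 2 * P) / 2) + 1 with hC3
  have hcc : c3 C θ = C3 := rfl
  rw [hcc]
  have hvabs : ∀ g, |v g| ≤ C := by
    intro g
    rw [abs_of_nonneg (hv.nonneg g)]
    exact hv.up g
  obtain ⟨hc1, hc2⟩ := rho_le_P5 hC h0 h1 hG
  have hc0 := c0_pos G
  have hPb : ∀ g, |Phi G v g| ≤ c0 G * C := by
    intro g
    unfold Phi c0
    calc |∑ d ∈ Icc 1 G.R, kk G d * S d v g| ≤ ∑ d ∈ Icc 1 G.R, |kk G d * S d v g| :=
          Finset.abs_sum_le_sum_abs _ _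
      _ ≤ ∑ d ∈ Icc 1 G.R, kk G d * (d : ℝ) ^ 2 * C := by
          refine Finset.sum_le_sum fun d _ => ?_
          rw [abs_mul, abs_of_nonneg (kk_nonneg G _), mul_assoc]
          exact mul_le_mul_of_nonneg_left (S_abs_le d v C hvabs g) (kk_nonneg G _)
      _ = _ := by rw [← Finset.sum_mul]
  obtain ⟨L, hL, hLn⟩ := second_small (F := fun n : ℕ => Phi G v n) (B := c0 G * C) (Q := q0)
    (φ := φ) a3 a4 (fun n => hPb n) (by
      intro n
      have e := Phi_second G v ((n : ℤ) + 1)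
      have e2 : (n : ℤ) + 1 - 1 = n := by ring
      have e3 : (n : ℤ) + 1 + 1 = ((n + 2 : ℕ) : ℤ) := by push_cast; ring
      have e4 : (n : ℤ) + 1 = ((n + 1 : ℕ) : ℤ) := by push_cast; ring
      rw [e2, e3] at e
      have h2 := defectN hC h0 h1 hG hs hv (n + 1) (by omega)
      rw [e4] at e
      show |Phi G v ((n + 2 : ℕ) : ℤ) + Phi G v (n : ℤ) - 2 * Phi G v ((n + 1 : ℕ) : ℤ)| ≤ q0 * φ ^ n
      rw [e]
      refine h2.trans ?_
      have h3 : φ ^ (n + 1) ≤ φ ^ n := pow_le_pow_of_le_one a3.le a4.le (Nat.le_succ n)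
      exact mul_le_mul_of_nonneg_left h3 hq0n)
  set A : ℝ := L / c0 G with hA
  have hAabs : |A| ≤ C := by
    rw [hA, abs_div, abs_of_pos hc0, div_le_iff₀ hc0, mul_comm]
    exact hL
  set y : ℤ → ℝ := fun g => v g - A with hy
  have hyB : ∀ g, |y g| ≤ 2 * C := by
    intro g
    calc |v g - A| ≤ |v g| + |A| := abs_sub _ _
      _ ≤ 2 * C := by linarith [hvabs g]
  have hPy : ∀ n : ℕ, |Phi G y n| ≤ Q1 * φ ^ n := by
    intro n
    have h1 : Phi G y n = Phi G v n - c0 G * A := by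
      unfold Phi c0
      rw [Finset.sum_mul, ← Finset.sum_sub_distrib]
      refine Finset.sum_congr rfl fun d _ => ?_
      have := S_sub d v (fun _ => A) n
      rw [S_const] at this
      rw [hy, this]
      ring
    have h2 : c0 G * A = L := by rw [hA]; field_simp
    rw [h1, h2]
    exact hLn n
  have hXs : ∀ n : ℕ, ∑ g ∈ Icc (1 : ℤ) n, (g : ℝ) ^ 2 * |y g * Phi G y g| ≤ X := by
    intro n
    have e : ∑ g ∈ Icc (1 : ℤ) n, (g : ℝ) ^ 2 * |y g * Phi G y g|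
        = ∑ k ∈ Icc 1 n, ((k : ℤ) : ℝ) ^ 2 * |y k * Phi G y k| := by
      have : Icc (1 : ℤ) n = (Icc 1 n).map Nat.castEmbedding := by
        ext x
        simp only [Finset.mem_Icc, Finset.mem_map, Nat.castEmbedding_apply]
        constructor
        · rintro ⟨h1, h2⟩
          exact ⟨x.toNat, by omega, by omega⟩
        · rintro ⟨k, ⟨h1, h2⟩, rfl⟩
          omega
      rw [this, Finset.sum_map]
      rfl
    rw [e]
    calc ∑ k ∈ Icc 1 n, ((k : ℤ) : ℝ) ^ 2 * |y k * Phi G y k|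
        ≤ ∑ k ∈ Icc 1 n, 2 * C * Q1 * ((k : ℝ) ^ 2 * φ ^ k) := by
          refine Finset.sum_le_sum fun k _ => ?_
          rw [abs_mul, Int.cast_natCast]
          calc (k : ℝ) ^ 2 * (|y k| * |Phi G y k|) ≤ (k : ℝ) ^ 2 * ((2 * C) * (Q1 * φ ^ k)) :=
                mul_le_mul_of_nonneg_left (mul_le_mul (hyB k) (hPy k) (abs_nonneg _)
                  (by positivity)) (by positivity)
            _ = _ := by ring
      _ = 2 * C * Q1 * ∑ k ∈ Icc 1 n, ((k : ℝ) ^ 2 * φ ^ k) := by rw [Finset.mul_sum]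
      _ ≤ 2 * C * Q1 * Z2 :=
          mul_le_mul_of_nonneg_left (hs2.sum_le_tsum _ fun _ _ => by positivity) (by positivity)
  have hPm : ∀ p ≤ 5, ∑ d ∈ Icc 1 G.R, kk G d * (d : ℝ) ^ p ≤ P :=
    fun p hp => moment hC h0 h1 hG p hp
  have hdiv : ∀ {a b : ℝ}, 0 ≤ a → G.rho * a ≤ b → a ≤ C * b := by
    intro a b ha hab
    have h2 := mul_le_mul_of_nonneg_right hG.rho_ge ha
    calc a = C * (C⁻¹ * a) := by field_simp
      _ ≤ C * b := mul_le_mul_of_nonneg_left (h2.trans hab) hC.le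
  have hs1 : ∀ M : ℕ, ∑ g ∈ Icc (1 : ℤ) M, y g ^ 2 ≤ C2 := by
    intro M
    refine hdiv (Finset.sum_nonneg fun g _ => sq_nonneg _) ?_
    refine step1 G y (2 * C) X hyB (fun n => ?_) M P hPm
    refine le_trans (Finset.sum_le_sum fun g hg => ?_) (hXs n)
    rw [Finset.mem_Icc] at hg
    have h4 : (1 : ℝ) ≤ g := by exact_mod_cast hg.1
    exact le_mul_of_one_le_left (abs_nonneg _) (one_le_pow₀ h4)
  have hs3 : ∀ M : ℕ, ∑ g ∈ Icc (1 : ℤ) M, (g : ℝ) ^ 2 * (v g - A) ^ 2 ≤ C3 := by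
    intro M
    have := hdiv (Finset.sum_nonneg fun g _ => by positivity)
      (step2 G y (2 * C) X hyB hXs C2 hs1 M P hPm)
    rw [hC3]
    linarith
  have hPn : ∀ g, 0 ≤ Phi G v g := fun g =>
    Finset.sum_nonneg fun d _ => mul_nonneg (kk_nonneg G _) (S_nonneg d v hv.nonneg g)
  have hL0 : 0 ≤ L := by
    have ht : Tendsto (fun n : ℕ => Phi G v n + Q1 * φ ^ n) atTop (𝓝 L) := by
      have t1 : Tendsto (fun n : ℕ => Q1 * φ ^ n) atTop (𝓝 0) := by
        have := (tendsto_pow_atTop_nhds_zero_of_lt_one a3.le a4).const_mul Q1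
        simpa using this
      have t2 : Tendsto (fun n : ℕ => Phi G v n - L) atTop (𝓝 0) :=
        squeeze_zero_norm (fun n => by rw [Real.norm_eq_abs]; exact hLn n) t1
      have t3 := (t2.add t1).add_const L
      simp only [add_zero, zero_add] at t3
      refine t3.congr fun n => ?_
      ring
    exact ge_of_tendsto' ht fun n => add_nonneg (hPn n) (mul_nonneg hQ1n (pow_nonneg a3.le n))
  have hA0 : 0 ≤ A := div_nonneg hL0 hc0.le
  refine ⟨A, hA0, (abs_le.mp hAabs).2, hs3, fun n => ?_⟩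
  have b1 : kk G ((1 : ℕ) : ℤ) * S 1 v n ≤ Phi G v n :=
    Finset.single_le_sum (f := fun d : ℕ => kk G d * S d v n)
      (fun d _ => mul_nonneg (kk_nonneg G _) (S_nonneg d v hv.nonneg n))
      (Finset.mem_Icc.2 ⟨le_rfl, G.R_pos⟩)
  have b2 : S 1 v n = v n := by unfold S; simp
  rw [b2, Nat.cast_one] at b1
  have b3 : G.rho * v n ≤ Phi G v n := (mul_le_mul_of_nonneg_right (kk_one G) (hv.nonneg n)).trans b1
  have b4 : Phi G v n ≤ L + Q1 * φ ^ n := by
    have := (abs_le.mp (hLn n)).2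
    linarith
  have b5 : L ≤ P * A := by
    have h2 : c0 G * A = L := by rw [hA]; field_simp
    rw [← h2]
    exact mul_le_mul_of_nonneg_right hc2 hA0
  have b6 : G.rho * v n ≤ P * A + Q1 * φ ^ n := by linarith
  exact hdiv (hv.nonneg n) b6

/-- the constants of the pointwise bound are polynomially bounded -/
theorem pb1 : PB fun D => D * (P5 D (1 - D⁻¹) + q1 D (1 - D⁻¹)) := by
  have l1 : LB fun D => 1 - √(1 - D⁻¹) :=
    (LB.invmul (c := 2) (by norm_num)).of_le fun D hD => by linarith [sqrt_th hD]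
  have l2 : LB fun D => 1 - √(√(1 - D⁻¹)) :=
    (LB.invmul (c := 4) (by norm_num)).of_le fun D hD => by linarith [sqrt_sqrt_th hD]
  have g : ∀ k : ℕ, PB fun D => ∑' n : ℕ, (n : ℝ) ^ k * (√(√(1 - D⁻¹))) ^ n := fun k =>
    PB.geo' k (fun D _ => Real.sqrt_nonneg _) (LB.invmul (c := 4) (by norm_num))
      fun D hD => sqrt_sqrt_th hD
  have pP : PB fun D => P5 D (1 - D⁻¹) := (PB.id.div l1).mul (g 5)
  have pq : PB fun D => q1 D (1 - D⁻¹) :=
    (PB.id.add (PB.id.mul (PB.id.div l1))).div (l2.pow 2)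
  exact PB.id.mul (pP.add pq)

end WVL

open WVL in
/-- MODULE WVL. -/
theorem t_WVL : WVL_Stmt := by
  obtain ⟨K, hK⟩ := QGVL.pb.le
  obtain ⟨K', hK'⟩ := pb1.le
  refine ⟨K + K' + 3, fun D hD G hG R' s V hs hV => ?_⟩
  have hD0 : 0 < D := by linarith
  have hD1 : 1 ≤ D := by linarith
  obtain ⟨A, h1, h2, h3, h4⟩ := coreN hD0 (th_pos hD) (th_lt hD) G hG R' s V hs hV
  have e1 : D ≤ D ^ (K + K' + 3) := le_self_pow₀ hD1 (by omega)
  refine ⟨A, ⟨h1, h2.trans e1, fun N => ?_, fun n => ?_⟩⟩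
  · exact ((h3 N).trans (hK D hD)).trans (pow_le_pow_right₀ hD1 (by omega))
  · obtain ⟨a1, a2, a3, a4, a5⟩ := root_bounds (th_pos hD) (th_lt hD)
    have hP0 : 0 ≤ P5 D (1 - D⁻¹) := by
      unfold P5
      exact mul_nonneg (div_nonneg hD0.le (by linarith)) (tsum_nonneg fun n => by positivity)
    have hq0 : 0 ≤ q1 D (1 - D⁻¹) := by
      unfold q1
      have : 0 ≤ D / (1 - √(1 - D⁻¹)) := div_nonneg hD0.le (by linarith)
      positivity
    have hexp : (√(√(1 - D⁻¹))) ^ n ≤ Real.exp (-((n : ℝ) / D ^ (K + K' + 3))) := by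
      have e2 : √(√(1 - D⁻¹)) ≤ Real.exp (-(4 * D)⁻¹) := by
        refine (sqrt_sqrt_th hD).trans ?_
        have := Real.add_one_le_exp (-(4 * D)⁻¹)
        linarith
      have e3 : (√(√(1 - D⁻¹))) ^ n ≤ Real.exp (-(4 * D)⁻¹) ^ n :=
        pow_le_pow_left₀ a3.le e2 n
      refine e3.trans ?_
      rw [← Real.exp_nat_mul]
      refine Real.exp_le_exp.2 ?_
      have e4 : 4 * D ≤ D ^ (K + K' + 3) := by
        calc 4 * D ≤ D ^ 2 * D := by nlinarith
          _ = D ^ 3 := by ring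
          _ ≤ D ^ (K + K' + 3) := pow_le_pow_right₀ hD1 (by omega)
      have e5 : (D ^ (K + K' + 3))⁻¹ ≤ (4 * D)⁻¹ := inv_anti₀ (by positivity) e4
      rw [div_eq_mul_inv]
      have e6 : (n : ℝ) * (D ^ (K + K' + 3))⁻¹ ≤ n * (4 * D)⁻¹ :=
        mul_le_mul_of_nonneg_left e5 (Nat.cast_nonneg n)
      linarith
    have h5 := h4 n
    have hc := hK' D hD
    set x := Real.exp (-((n : ℝ) / D ^ (K + K' + 3))) with hx
    have hx0 : 0 < x := Real.exp_pos _
    have h6 : D * (P5 D (1 - D⁻¹) * A + q1 D (1 - D⁻¹) * (√(√(1 - D⁻¹))) ^ n)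
        ≤ (D * (P5 D (1 - D⁻¹) + q1 D (1 - D⁻¹))) * (A + x) := by
      have h7 : q1 D (1 - D⁻¹) * (√(√(1 - D⁻¹))) ^ n ≤ q1 D (1 - D⁻¹) * x :=
        mul_le_mul_of_nonneg_left hexp hq0
      have h8 : 0 ≤ P5 D (1 - D⁻¹) * x := mul_nonneg hP0 hx0.le
      have h9 : 0 ≤ q1 D (1 - D⁻¹) * A := mul_nonneg hq0 h1
      have h10 : P5 D (1 - D⁻¹) * A + q1 D (1 - D⁻¹) * (√(√(1 - D⁻¹))) ^ n
          ≤ (P5 D (1 - D⁻¹) + q1 D (1 - D⁻¹)) * (A + x) := by nlinarith
      calc _ ≤ D * ((P5 D (1 - D⁻¹) + q1 D (1 - D⁻¹)) * (A + x)) :=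
            mul_le_mul_of_nonneg_left h10 hD0.le
        _ = _ := by ring
    refine h5.trans (h6.trans ?_)
    have h11 : D ^ K' ≤ D ^ (K + K' + 3) := pow_le_pow_right₀ hD1 (by omega)
    exact mul_le_mul_of_nonneg_right (hc.trans h11) (by linarith)

end Pool.Agent.PFW
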