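import Pool.Agent.EXW.Main3
import Pool.Agent.PFW.GVN
import Pool.Agent.PFW.WVL
import Pool.Agent.PFW.WGVL
import Pool.Agent.PFW.TRN
import Pool.Agent.PFW.LOW
import Pool.Agent.PFW.WCS
import Pool.Agent.PFW.SLOW4
import Pool.Agent.PFW.WSIDE
import Pool.Agent.PFW.WMC
import Pool.Agent.PFW.WMK
import Pool.Agent.PFW.WCA
import Pool.Agent.PFW.WE
import Pool.Agent.PFW.WP
import Pool.Agent.PFW.WLT
import Pool.Agent.PFW.WRAT
import Pool.Agent.PFW.WMA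
import Pool.Agent.PFW.WMD
import Pool.Agent.PFW.WKEY
import Pool.Agent.PFW.WFIN
import Pool.Agent.PFW.WMOD
import Pool.Agent.PFW.DATP
import Pool.Agent.PFW.FINAL4

/-!
# Project PFW: assembly
-/

set_option autoImplicit false

namespace Pool.Agent.PFW

open Finset Pool.Agent.Lib27 Pool.Agent.SapR Pool.Agent.Gap Pool.Agent.FL Pool.Agent.EXW Filter
  Topology Pool.Agent.AreaLaw MeasureTheory
open scoped NNReal ENNReal

/-- normalised Laplace transforms with a rate -/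
theorem m_WRAT : WRAT_Stmt := by
  obtain ⟨oLT, oLT1, oM2, oBAL, oST, oSUP, oW⟩ := old_gap
  have hW : QGW_Stmt := m_QGW
  have hJ1 : J1_Stmt := J1
  have hC2 : C2_Stmt := Gap.C2
  have hC : C_Stmt := Gap.C hC2
  have hRE : RE_Stmt := Gap.RE hC
  have hJ2s : J2_Stmt := J2 hC2 hC hRE
  have hB1 : B1_Stmt := B1
  have hS0 : QS0_Stmt := t_QS0 oSUP oW
  have hETA : QETA_Stmt := t_QETA oST
  have hRB : QRB_Stmt := t_QRB t_QPAR hS0
  have hE : WE_Stmt := t_WE m_QGRE hW t_QGEB t_QPAR hS0 hETA hRB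
  have hJ : QGJ2_Stmt := t_QGJ2 t_QGC m_QGRE m_QGSUP hW
  have hP : WP_Stmt := t_WP hE (t_WCA (t_WGVL t_WVL)) hJ t_QPAR hS0 hJ1 hJ2s
  have hLT : WLT_Stmt := t_WLT hP t_QX hJ t_QPAR hJ1 hJ2s hB1
  have hM2 : QGM2_Stmt := t_QGM2 t_QGC m_QGRE m_QGSUP hW
  exact t_WRAT hLT hM2 t_QPAR oM2 oBAL

/-- the universal law -/
theorem m_WFIN : WFIN_Stmt := by
  obtain ⟨oLT, oLT1, oM2, oBAL, oST, oSUP, oW⟩ := old_gap
  exact t_WFIN (t_WSIDE m_WRAT t_QPAR oBAL oM2) t_WKEY oLT oLT1 oM2 oBAL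

/-- the moments -/
theorem m_WMK : WMK_Stmt := by
  have hA : WMA_Stmt := t_WMA m_WRAT t_CHA t_CHB
  exact t_WMK (t_WMC (t_WMD m_WRAT hA t_FDX t_SMM t_QPAR) hA m_WRAT t_SMM t_QPAR)

/-- the final theorem from the upper bound of the arches of gap `1` and the mass gap modules -/
theorem m_FINAL4 (hCUT : CUT_Stmt) (hMNP : PWR.MNP_Stmt) (hARP : PWR.ARP_Stmt)
    (hQMGP : PWR.QMGP_Stmt) : FINAL4_Stmt :=
  t_FINAL4 m_WFIN (t_DATP hQMGP mg_main mgi2 (t_KW2 hg))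
    (t_WCS (t_GVN m_QGRE m_QGSUP) t_WVL hCUT (t_LOW hMNP hARP hg) m_QGV) t_SLOW4
    (t_WMOD (t_QNEAR hg) (t_PDIF (t_NEARP hg))) m_WMK (t_TRM hg (tr K1H.k1h)) m_IDN hg
    (tr K1H.k1h)

end Pool.Agent.PFW
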