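import Pool.Agent.PFW.StmtsW
import Pool.Agent.EXW.MOMA

/-!
# Project PFW, module WMA (port of `EXW/MOMA.lean`)
-/

set_option autoImplicit false

namespace Pool.Agent.PFW

open Finset Filter Topology
open Pool.Agent.Lib27 Pool.Agent.SapR Pool.Agent.Gap Pool.Agent.FL Pool.Agent.EXW
open Pool.Agent.KCG (mr)
open Pool.Agent.EXW.MOMA

theorem t_WMA (hQ : WRAT_Stmt) (hA : CHA_Stmt) (hB : CHB_Stmt) : WMA_Stmt := by
  intro r
  obtain ⟨Kq, Kp, hQ⟩ := hQ
  obtain ⟨Kc, hB⟩ := hB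
  refine ⟨Kq + (4 * (Kc + 2) + (2 * r + 2)), (Kc + 2) * r + (3 * r + Kc + Kp) + 1, ?_⟩
  intro D hD G hG C0 s t Vs Vt B hs ht hVs hVt hSol W n n0 hSc hW
  have hD1 : (1 : ℝ) ≤ D := by linarith
  have hW2 := hSc.W2
  have hDW1 : 1 ≤ D * W := by nlinarith
  have hSc' : Sc0 Kq D W G n n0 :=
    { D2 := hSc.D2
      W2 := hSc.W2
      cls := hSc.cls
      big := (pow_le_pow_right₀ hDW1 (by omega)).trans hSc.big
      near := hSc.near }
  obtain ⟨hp, -, -⟩ := hQ D hD G hG C0 s t Vs Vt B hs ht hVs hVt hSol W n n0 hSc'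
    ((pow_le_pow_right₀ hD1 (by omega)).trans hW)
  obtain ⟨hn1, hlog, hg0n⟩ := MOMA.scale (r := r) (Kc := Kc) hD hW2 (by omega) hSc.big
  have hr0 : (0 : ℝ) ≤ r := Nat.cast_nonneg r
  have hL1 : 1 ≤ Real.log n := by linarith
  have hS1 : 1 ≤ Real.sqrt n := by
    rw [Real.one_le_sqrt]
    exact hn1
  have hSn : Real.sqrt n ≤ n := by
    rw [Real.sqrt_le_left (by linarith)]
    nlinarith
  have hR : 0 < G.rho ^ n := pow_pos G.rho_pos n
  have hDc : 1 ≤ D ^ Kc := one_le_pow₀ hD1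
  have hA0 : 0 < (closeP C0 t B n).eval 1 := by
    have h1 : 0 < (D ^ Kp)⁻¹ := by positivity
    have h2 := h1.trans_le hp
    have h3 : 0 < (n : ℝ) * Real.sqrt n * G.rho ^ n := by positivity
    exact (pos_iff_pos_of_mul_pos h2).1 h3
  obtain ⟨g0, hg0⟩ : ∃ g0 : ℕ, g0 = ⌈D ^ Kc * Real.sqrt n * Real.log n⌉₊ := ⟨_, rfl⟩
  have hXpos : 1 ≤ D ^ Kc * Real.sqrt n * Real.log n := by
    have : 1 ≤ D ^ Kc * Real.sqrt n := by nlinarith
    nlinarith
  have g1 : D ^ Kc * Real.sqrt n * Real.log n ≤ g0 := by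
    rw [hg0]
    exact Nat.le_ceil _
  have g2 : (g0 : ℝ) ≤ D ^ Kc * Real.sqrt n * Real.log n + 1 := by
    rw [hg0]
    exact (Nat.ceil_lt_add_one (by linarith)).le
  have g3 : 1 ≤ g0 := by
    have : (1 : ℝ) ≤ g0 := hXpos.trans g1
    exact_mod_cast this
  have g4 : g0 ≤ n := by
    rw [hg0]
    exact Nat.ceil_le.2 hg0n
  obtain ⟨-, hU⟩ := hA G hG.loc C0 s t hs.cap ht.cap hs.supp ht.supp B hSol
  obtain ⟨U, hU0, hU1, hU2, hU3⟩ := hU g0 g3
  have key := hB D hD G hG C0 s t hs ht B hSol g0 g3 (fun n g => (U n g).eval 1)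
    (fun n g hg => by simp only [hU0 n g hg, Polynomial.eval_zero])
    (fun n g hg => by simp only [hU1 n g hg])
    (fun n g hg hg' => by
      rw [hU2 n g hg hg', Polynomial.eval_finsetSum]
      refine Finset.sum_congr rfl fun i _ => ?_
      split_ifs with h
      · rw [Polynomial.eval_finsetSum]
        refine Finset.sum_congr rfl fun g' _ => ?_
        simp
      · simp) n g4
  have hcl : ∑ m ∈ range (n + 1), ∑ g ∈ Icc (1 : ℤ) C0, t m g * (U (n - m) g).eval 1 =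
      (closeP C0 t U n).eval 1 := by
    unfold closeP
    rw [Polynomial.eval_finsetSum]
    refine Finset.sum_congr rfl fun m _ => ?_
    rw [Polynomial.eval_finsetSum]
    refine Finset.sum_congr rfl fun g _ => ?_
    simp
  simp only [hcl] at key
  have hexp := MOMA.expo (N := n) (g := g0) (r := r) hD hn1 rfl hlog g1
  exact MOMA.fin hD hA0 hn1 hS1 hSn hL1 hp (Nat.cast_nonneg g0) g2
    (key.trans (mul_le_mul_of_nonneg_left hexp (by positivity))) (hU3 r n)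

end Pool.Agent.PFW
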